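import Mathlib

/-!
# Ultraproducts of fields

`UP U k` is the ultraproduct of the fields `k n` with respect to the ultrafilter `U` on `ℕ`. We need
lifts of polynomials over the ultraproduct to polynomials over the product.
-/

set_option autoImplicit false

namespace Pool.Agent.K7.H18.NG

open Polynomial Filter

variable (U : Ultrafilter ℕ)

section
variable (k : ℕ → Type) [∀ n, Field (k n)]

/-- the sequences which vanish almost everywhere -/
def UI : Ideal (∀ n, k n) where
  carrier := {f | ∀ᶠ n in (U : Filter ℕ), f n = 0}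
  add_mem' := by
    intro a b ha hb
    filter_upwards [ha, hb] with n h1 h2
    rw [Pi.add_apply, h1, h2, add_zero]
  zero_mem' := Filter.Eventually.of_forall fun n => rfl
  smul_mem' := by
    intro c x hx
    filter_upwards [hx] with n h1
    rw [smul_eq_mul, Pi.mul_apply, h1, mul_zero]

theorem mem_UI {f : ∀ n, k n} : f ∈ UI U k ↔ ∀ᶠ n in (U : Filter ℕ), f n = 0 := Iff.rfl

instance UI_isMaximal : (UI U k).IsMaximal := by
  classical
  refine Ideal.isMaximal_iff.2 ⟨?_, ?_⟩
  · intro h
    have h1 : ∀ᶠ n in (U : Filter ℕ), (1 : ∀ n, k n) n = 0 := h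
    obtain ⟨n, hn⟩ := h1.exists
    exact one_ne_zero hn
  · intro J x hJ hx hxJ
    have h1 : ¬ ∀ᶠ n in (U : Filter ℕ), x n = 0 := hx
    have h2 : ∀ᶠ n in (U : Filter ℕ), ¬ x n = 0 := Ultrafilter.eventually_not.2 h1
    have h3 : (1 - x * fun n => (x n)⁻¹) ∈ UI U k := by
      show ∀ᶠ n in (U : Filter ℕ), _ = 0
      filter_upwards [h2] with n hn
      rw [Pi.sub_apply, Pi.mul_apply, Pi.one_apply, mul_inv_cancel₀ hn, sub_self]
    have h4 := J.add_mem (hJ h3) (J.mul_mem_right (fun n => (x n)⁻¹) hxJ)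
    rwa [sub_add_cancel] at h4

/-- the ultraproduct -/
abbrev UP : Type := (∀ n, k n) ⧸ UI U k

noncomputable instance instFieldUP : Field (UP U k) := Ideal.Quotient.field (UI U k)

/-- the class of a sequence -/
noncomputable def mk : (∀ n, k n) →+* UP U k := Ideal.Quotient.mk (UI U k)

theorem mk_surjective : Function.Surjective (mk U k) := Ideal.Quotient.mk_surjective

theorem mk_eq_zero {f : ∀ n, k n} : mk U k f = 0 ↔ ∀ᶠ n in (U : Filter ℕ), f n = 0 :=
  Ideal.Quotient.eq_zero_iff_mem

theorem mk_eq_mk {f g : ∀ n, k n} : mk U k f = mk U k g ↔ ∀ᶠ n in (U : Filter ℕ), f n = g n := by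
  rw [← sub_eq_zero, ← map_sub, mk_eq_zero]
  refine Filter.eventually_congr (Filter.Eventually.of_forall fun n => ?_)
  rw [Pi.sub_apply, sub_eq_zero]

/-- the projection to a factor -/
def pr (n : ℕ) : (∀ n, k n) →+* k n := Pi.evalRingHom k n

theorem pr_apply (n : ℕ) (f : ∀ n, k n) : pr k n f = f n := rfl

theorem poly_zero {P : (∀ n, k n)[X]} (h : P.map (mk U k) = 0) :
    ∀ᶠ n in (U : Filter ℕ), P.map (pr k n) = 0 := by
  have h1 : ∀ i ∈ P.support, ∀ᶠ n in (U : Filter ℕ), P.coeff i n = 0 := by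
    intro i _
    rw [← mk_eq_zero, ← coeff_map, h, coeff_zero]
  have h2 := (Filter.eventually_all_finset P.support).2 h1
  filter_upwards [h2] with n hn
  ext i
  rw [coeff_map, coeff_zero, pr_apply]
  by_cases hi : i ∈ P.support
  · exact hn i hi
  · rw [notMem_support_iff.1 hi]; rfl

theorem poly2_zero {P : (∀ n, k n)[X][X]} (h : P.map (mapRingHom (mk U k)) = 0) :
    ∀ᶠ n in (U : Filter ℕ), P.map (mapRingHom (pr k n)) = 0 := by
  have h1 : ∀ i ∈ P.support, ∀ᶠ n in (U : Filter ℕ), (P.coeff i).map (pr k n) = 0 := by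
    intro i _
    apply poly_zero
    rw [← coe_mapRingHom, ← coeff_map, h, coeff_zero]
  have h2 := (Filter.eventually_all_finset P.support).2 h1
  filter_upwards [h2] with n hn
  ext1 i
  rw [coeff_map, coeff_zero, coe_mapRingHom]
  by_cases hi : i ∈ P.support
  · exact hn i hi
  · rw [notMem_support_iff.1 hi, Polynomial.map_zero]

theorem mapRingHom_mk_surjective : Function.Surjective (mapRingHom (mk U k)) := by
  rw [coe_mapRingHom]
  exact Polynomial.map_surjective _ (mk_surjective U k)

theorem poly_ne {P : (∀ n, k n)[X]} (h : P.map (mk U k) ≠ 0) :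
    ∀ᶠ n in (U : Filter ℕ), P.map (pr k n) ≠ 0 := by
  obtain ⟨i, hi⟩ : ∃ i, (P.map (mk U k)).coeff i ≠ 0 := by
    by_contra hcon
    push Not at hcon
    exact h (Polynomial.ext fun i => by rw [hcon i, coeff_zero])
  rw [coeff_map, Ne, mk_eq_zero] at hi
  have h2 := Ultrafilter.eventually_not.2 hi
  filter_upwards [h2] with n hn h0
  apply hn
  have := congrArg (fun p => p.coeff i) h0
  simpa [pr_apply] using this

/-- lifting monic polynomials -/
theorem exists_monic_lift {f : (UP U k)[X][X]} (hf : f.Monic) :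
    ∃ g : (∀ n, k n)[X][X], g.Monic ∧ g.natDegree = f.natDegree ∧
      g.map (mapRingHom (mk U k)) = f := by
  have h1 : f ∈ lifts (mapRingHom (mk U k)) := by
    rw [lifts_iff_coeff_lifts]
    intro i
    exact mapRingHom_mk_surjective U k _
  obtain ⟨g, h2, h3, h4⟩ := lifts_and_natDegree_eq_and_monic h1 hf
  exact ⟨g, h4, h3, h2⟩

theorem exists_lift2 (f : (UP U k)[X][X]) :
    ∃ g : (∀ n, k n)[X][X], g.map (mapRingHom (mk U k)) = f :=
  Polynomial.map_surjective _ (mapRingHom_mk_surjective U k) f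

theorem exists_lift (f : (UP U k)[X]) : ∃ g : (∀ n, k n)[X], g.map (mk U k) = f :=
  Polynomial.map_surjective _ (mk_surjective U k) f

end

section
variable {k l : ℕ → Type} [∀ n, Field (k n)] [∀ n, Field (l n)] (φ : ∀ n, k n →+* l n)

/-- the product of homomorphisms -/
def piHom : (∀ n, k n) →+* (∀ n, l n) := RingHom.pi fun n => (φ n).comp (Pi.evalRingHom k n)

theorem piHom_apply (f : ∀ n, k n) (n : ℕ) : piHom φ f n = φ n (f n) := rfl

/-- the ultraproduct of homomorphisms -/
noncomputable def upHom : UP U k →+* UP U l :=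
  Ideal.quotientMap (UI U l) (piHom φ) (by
    intro f hf
    show ∀ᶠ n in (U : Filter ℕ), φ n (f n) = 0
    have h : ∀ᶠ n in (U : Filter ℕ), f n = 0 := hf
    filter_upwards [h] with n hn
    rw [hn, map_zero])

theorem upHom_mk (f : ∀ n, k n) : upHom U φ (mk U k f) = mk U l (piHom φ f) := rfl

end

end Pool.Agent.K7.H18.NG
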