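import Pool.Agent.K7.H18.NG.Prop
import Pool.Agent.K7.H18.NG.Ultra

/-!
# Cyclic data for finite fields and for their ultraproducts
-/

set_option autoImplicit false

namespace Pool.Agent.K7.H18.NG

open Polynomial Filter

theorem exists_cyc (K F : Type) [Field K] [Finite K] [Field F] [Finite F] [Algebra K F] (m : ℕ)
    (hm : Module.finrank K F = m) :
    ∃ c : Cyc K F m, ∀ x, c.N x = algebraMap K F (Algebra.norm K x) := by
  classical
  have := Fintype.ofFinite K
  have := Fintype.ofFinite F
  let φ : Gal(F/K) := FiniteField.frobeniusAlgEquivOfAlgebraic K F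
  let σ : F →+* F := (φ : F →+* F)
  have hσφ : ∀ (k : ℕ) (x : F), (σ ^ k) x = (φ ^ k) x := by
    intro k x
    induction k with
    | zero => rw [pow_zero, pow_zero]; rfl
    | succ k ih =>
      rw [pow_succ', pow_succ', RingHom.mul_def, RingHom.comp_apply, ih, AlgEquiv.mul_apply]
      rfl
  have hpow : ∀ (k : ℕ) (x : F), (σ ^ k) x = x ^ (Nat.card K ^ k) := by
    intro k x
    rw [hσφ, AlgEquiv.coe_pow, FiniteField.coe_frobeniusAlgEquivOfAlgebraic_iterate,
      Fintype.card_eq_nat_card]
  let b := IsGalois.normalBasis K F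
  let b' := (Algebra.traceForm K F).dualBasis (traceForm_nondegenerate K F) b
  have hbij := FiniteField.bijective_frobeniusAlgEquivOfAlgebraic_pow K F
  have horder : φ ^ m = 1 := by
    rw [← hm, ← FiniteField.orderOf_frobeniusAlgEquivOfAlgebraic K F]
    exact pow_orderOf_eq_one _
  have hσm : σ ^ m = 1 := by
    apply RingHom.ext
    intro x
    rw [hσφ, horder]; rfl
  have htr : ∀ x, ∑ k ∈ Finset.range m, (σ ^ k) x = algebraMap K F (Algebra.trace K F x) := by
    intro x
    rw [FiniteField.algebraMap_trace_eq_sum_pow, hm]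
    exact Finset.sum_congr rfl fun k _ => hpow k x
  have hnorm : ∀ x, ∏ k ∈ Finset.range m, (σ ^ k) x = algebraMap K F (Algebra.norm K x) := by
    intro x
    rw [FiniteField.algebraMap_norm_eq_prod_pow, hm]
    exact Finset.prod_congr rfl fun k _ => hpow k x
  refine ⟨⟨σ, ?_, ?_, hσm, b 1, b' 1, ?_⟩, fun x => hnorm x⟩
  · intro x hx
    have h1 : x ∈ Set.range (algebraMap K F) := by
      rw [IsGalois.mem_range_algebraMap_iff_fixed]
      intro f
      obtain ⟨k, hk⟩ := hbij.2 f
      have h2 : ∀ k : ℕ, (φ ^ k) x = x := by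
        intro k
        induction k with
        | zero => rfl
        | succ k ih =>
          rw [pow_succ', AlgEquiv.mul_apply, ih]
          exact hx
      rw [← hk]
      exact h2 _
    exact h1
  · intro a
    exact φ.commutes a
  · intro i hi
    rw [htr]
    have h1 : (σ ^ i) (b 1) = b (φ ^ i) := by
      rw [hσφ, IsGalois.normalBasis_apply (φ ^ i)]
    rw [h1]
    have h2 : Algebra.trace K F (b' 1 * b (φ ^ i)) = if φ ^ i = 1 then 1 else 0 := by
      rw [← Algebra.traceForm_apply]
      exact LinearMap.BilinForm.apply_dualBasis_left _ _ _ _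
    rw [h2]
    have h3 : φ ^ i = 1 ↔ i = 0 := by
      constructor
      · intro h
        have h4 : (fun n : Fin (Module.finrank K F) => φ ^ n.1) ⟨i, by omega⟩ =
            (fun n : Fin (Module.finrank K F) => φ ^ n.1) ⟨0, by omega⟩ := by
          show φ ^ i = φ ^ 0
          rw [h, pow_zero]
        have h5 := hbij.1 h4
        exact congrArg Fin.val h5
      · rintro rfl; rw [pow_zero]
    by_cases h : i = 0
    · rw [if_pos h, if_pos (h3.2 h), map_one]
    · rw [if_neg h, if_neg (fun h' => h (h3.1 h')), map_zero]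

/-! ### ultraproducts -/

section
variable (U : Ultrafilter ℕ) (K F : ℕ → Type) [∀ n, Field (K n)] [∀ n, Field (F n)]
  [∀ n, Algebra (K n) (F n)] {m : ℕ}

@[instance_reducible]
noncomputable def algUP : Algebra (UP U K) (UP U F) :=
  (upHom U (fun n => algebraMap (K n) (F n))).toAlgebra

variable {K F}

theorem upHom_pow (c : ∀ n, Cyc (K n) (F n) m) (k : ℕ) (f : ∀ n, F n) :
    ((upHom U (fun n => (c n).σ)) ^ k) (mk U F f) = mk U F (fun n => ((c n).σ ^ k) (f n)) := by
  induction k with
  | zero => rw [pow_zero]; rfl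
  | succ k ih =>
    rw [pow_succ', RingHom.mul_def, RingHom.comp_apply, ih, upHom_mk]
    congr 1
    funext n
    rw [piHom_apply, (c n).pow_succ_apply]

open Classical in
/-- the cyclic data of an ultraproduct -/
noncomputable def cycUP (c : ∀ n, Cyc (K n) (F n) m) :
    @Cyc (UP U K) (UP U F) _ _ (algUP U K F) m := by
  letI := algUP U K F
  refine ⟨upHom U (fun n => (c n).σ), ?_, ?_, ?_, mk U F (fun n => (c n).β),
    mk U F (fun n => (c n).ω), ?_⟩
  · intro x hx
    obtain ⟨f, rfl⟩ := mk_surjective U F x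
    rw [upHom_mk, mk_eq_mk] at hx
    have h1 : ∀ n, ∃ a : K n, (c n).σ (f n) = f n → algebraMap (K n) (F n) a = f n := by
      intro n
      by_cases h : (c n).σ (f n) = f n
      · obtain ⟨a, ha⟩ := (c n).fix _ h
        exact ⟨a, fun _ => ha⟩
      · exact ⟨0, fun h' => absurd h' h⟩
    choose a ha using h1
    refine ⟨mk U K a, ?_⟩
    show upHom U (fun n => algebraMap (K n) (F n)) (mk U K a) = _
    rw [upHom_mk, mk_eq_mk]
    filter_upwards [hx] with n hn
    exact ha n hn
  · intro a
    obtain ⟨f, rfl⟩ := mk_surjective U K a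
    show upHom U (fun n => (c n).σ) (upHom U (fun n => algebraMap (K n) (F n)) (mk U K f)) =
      upHom U (fun n => algebraMap (K n) (F n)) (mk U K f)
    rw [upHom_mk, upHom_mk]
    congr 1
    funext n
    exact (c n).com _
  · apply RingHom.ext
    intro x
    obtain ⟨f, rfl⟩ := mk_surjective U F x
    rw [upHom_pow]
    show _ = mk U F f
    congr 1
    funext n
    exact (c n).pow_m_apply _
  · intro i hi
    rw [upHom_pow, ← map_mul]
    simp only [upHom_pow]
    rw [← map_sum]
    have h1 : (∑ k ∈ Finset.range m, fun n => ((c n).σ ^ k)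
        (((fun n => (c n).ω) * fun n => ((c n).σ ^ i) (c n).β) n)) =
        (if i = 0 then 1 else 0 : ∀ n, F n) := by
      funext n
      rw [Finset.sum_apply]
      have h2 := (c n).dual i hi
      refine Eq.trans ?_ (h2.trans ?_)
      · rfl
      · split_ifs <;> rfl
    rw [h1]
    split_ifs
    · exact map_one _
    · exact map_zero _

theorem cycUP_N (c : ∀ n, Cyc (K n) (F n) m) (f : ∀ n, F n) :
    @Cyc.N (UP U K) (UP U F) _ _ (algUP U K F) m (cycUP U c) (mk U F f) =
      mk U F (fun n => (c n).N (f n)) := by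
  let _ := algUP U K F
  unfold Cyc.N
  have h1 : ∀ k, ((cycUP U c).σ ^ k) (mk U F f) = mk U F (fun n => ((c n).σ ^ k) (f n)) :=
    fun k => upHom_pow U c k f
  simp only [h1]
  rw [← map_prod]
  congr 1
  funext n
  rw [Finset.prod_apply]

/-- the configuration exists in some member of the family -/
theorem exists_config (n : ℕ) (hn : 3 ≤ n) [∀ i, Finite (K i)]
    (c : ∀ i, Cyc (K i) (F i) (n + 1)) (hcard : ∀ i, i ≤ Nat.card (K i)) :
    ∃ i, ∃ (A : Fin (n + 2) → F i) (B b : Fin (n + 1) → F i), Function.Injective A ∧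
      Function.Injective B ∧ (∀ j, b j ≠ 0) ∧ (∀ j, (c i).σ (b j) = b j) ∧
      ∀ s j, (c i).N (A s + B j) = b j := by
  classical
  let V : Ultrafilter ℕ := Filter.hyperfilter ℕ
  let _ := algUP V K F
  have hcard' : ∀ M : ℕ, ∀ᶠ i in (V : Filter ℕ), M ≤ Nat.card (K i) := by
    intro M
    have h1 : ∀ᶠ i in (V : Filter ℕ), M ≤ i :=
      Nat.hyperfilter_le_atTop (Filter.eventually_ge_atTop M)
    filter_upwards [h1] with i hi
    exact hi.trans (hcard i)
  have hP : PAC (UP V K) := pac_ultra V K hcard'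
  obtain ⟨A, B, b, hA, hB, hb, hbσ, hAB⟩ := config (cycUP V c) hn hP
  choose A' hA' using fun s => mk_surjective V F (A s)
  choose B' hB' using fun s => mk_surjective V F (B s)
  choose b' hb' using fun s => mk_surjective V F (b s)
  have e1 : ∀ s t, s ≠ t → ∀ᶠ i in (V : Filter ℕ), A' s i ≠ A' t i := by
    intro s t hst
    refine Ultrafilter.eventually_not.2 fun h => hst (hA ?_)
    rw [← hA', ← hA', mk_eq_mk]
    exact h
  have e2 : ∀ s t, s ≠ t → ∀ᶠ i in (V : Filter ℕ), B' s i ≠ B' t i := by
    intro s t hst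
    refine Ultrafilter.eventually_not.2 fun h => hst (hB ?_)
    rw [← hB', ← hB', mk_eq_mk]
    exact h
  have e3 : ∀ j, ∀ᶠ i in (V : Filter ℕ), b' j i ≠ 0 := by
    intro j
    refine Ultrafilter.eventually_not.2 fun h => hb j ?_
    rw [← hb', mk_eq_zero]
    exact h
  have e4 : ∀ j, ∀ᶠ i in (V : Filter ℕ), (c i).σ (b' j i) = b' j i := by
    intro j
    have h1 := hbσ j
    rw [← hb'] at h1
    have h2 : upHom V (fun i => (c i).σ) (mk V F (b' j)) = mk V F (b' j) := h1
    rw [upHom_mk, mk_eq_mk] at h2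
    exact h2
  have e5 : ∀ s j, ∀ᶠ i in (V : Filter ℕ), (c i).N (A' s i + B' j i) = b' j i := by
    intro s j
    have h1 := hAB s j
    rw [← hA', ← hB', ← hb', ← map_add, cycUP_N, mk_eq_mk] at h1
    exact h1
  have f1 : ∀ᶠ i in (V : Filter ℕ), ∀ s t, s ≠ t → A' s i ≠ A' t i := by
    rw [Filter.eventually_all]; intro s
    rw [Filter.eventually_all]; intro t
    by_cases hst : s = t
    · exact Filter.Eventually.of_forall fun i h => absurd hst h
    · filter_upwards [e1 s t hst] with i hi _ using hi
  have f2 : ∀ᶠ i in (V : Filter ℕ), ∀ s t, s ≠ t → B' s i ≠ B' t i := by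
    rw [Filter.eventually_all]; intro s
    rw [Filter.eventually_all]; intro t
    by_cases hst : s = t
    · exact Filter.Eventually.of_forall fun i h => absurd hst h
    · filter_upwards [e2 s t hst] with i hi _ using hi
  have f3 := Filter.eventually_all.2 e3
  have f4 := Filter.eventually_all.2 e4
  have f5 : ∀ᶠ i in (V : Filter ℕ), ∀ s j, (c i).N (A' s i + B' j i) = b' j i := by
    rw [Filter.eventually_all]; intro s
    rw [Filter.eventually_all]; intro j
    exact e5 s j
  obtain ⟨i, g1, g2, g3, g4, g5⟩ := (f1.and (f2.and (f3.and (f4.and f5)))).exists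
  refine ⟨i, fun s => A' s i, fun s => B' s i, fun s => b' s i, ?_, ?_, g3, g4, g5⟩
  · intro s t h
    by_contra hst
    exact g1 s t hst h
  · intro s t h
    by_contra hst
    exact g2 s t hst h

end

end Pool.Agent.K7.H18.NG
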