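import Mathlib

/-!
# Choosing roots of a completely split polynomial killed by a linear form
-/

set_option autoImplicit false

namespace Pool.Agent.K7.H18.NG

open Polynomial Filter

section
variable {K : Type} [Field K] [Infinite K]

omit [Infinite K] in
theorem ev_ne (p : K[X]) (hp : p ≠ 0) : ∀ᶠ y in (cofinite : Filter K), p.eval y ≠ 0 := by
  classical
  rw [eventually_cofinite]
  refine (p.roots.toFinset.finite_toSet).subset fun y hy => ?_
  rw [Finset.mem_coe, Multiset.mem_toFinset, mem_roots hp]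
  exact not_not.1 hy

omit [Infinite K] in
theorem ev_ne_lin (a b : K) (h : b ≠ 0) : ∀ᶠ y in (cofinite : Filter K), a - y * b ≠ 0 := by
  filter_upwards [ev_ne (C a - X * C b) (fun h0 => h (by
    have h1 := congrArg (fun p => p.coeff 1) h0
    simpa [coeff_C] using h1))] with y hy
  rw [eval_sub, eval_mul, eval_C, eval_X, eval_C] at hy
  exact hy

omit [Infinite K] in
theorem ev_ne_quad (a b d : K) (h : d ≠ 0) :
    ∀ᶠ y in (cofinite : Filter K), a + y * b + y ^ 2 * d ≠ 0 := by
  filter_upwards [ev_ne (C a + X * C b + X ^ 2 * C d) (fun h0 => h (by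
    have h1 := congrArg (fun p => p.coeff 2) h0
    simpa [coeff_C, coeff_X_pow] using h1))] with y hy
  rw [eval_add, eval_add, eval_mul, eval_mul, eval_C, eval_X, eval_C, eval_pow, eval_X, eval_C] at hy
  exact hy

omit [Field K] [Infinite K] in
theorem ev_notMem (S : Finset K) : ∀ᶠ y in (cofinite : Filter K), y ∉ S := by
  rw [eventually_cofinite]
  refine S.finite_toSet.subset fun y hy => ?_
  exact not_not.1 hy

/-- the polynomial with simple roots `Y` -/
noncomputable def PY (Y : Finset K) : K[X] := ∏ y ∈ Y, (X - C y)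

variable (l : K[X] →ₗ[K] K)

def Good (Y : Finset K) : Prop := l (PY Y) ≠ 0 ∧ ∀ y ∈ Y, l ((X - C y) * PY Y) ≠ 0

omit [Infinite K] in
theorem l_sub (y : K) (P : K[X]) : l ((X - C y) * P) = l (X * P) - y * l P := by
  rw [sub_mul, map_sub, ← smul_eq_C_mul, map_smul, smul_eq_mul]

open Classical in
theorem good_step {Y : Finset K} (h : Good l Y) : ∃ y, y ∉ Y ∧ Good l (insert y Y) := by
  have e1 := ev_notMem Y
  have e2 := ev_ne_lin (l (X * PY Y)) (l (PY Y)) h.1
  have e3 : ∀ᶠ y in (cofinite : Filter K), ∀ y' ∈ Y, l (X * ((X - C y') * PY Y)) -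
      y * l ((X - C y') * PY Y) ≠ 0 := by
    rw [Filter.eventually_all_finset]
    intro y' hy'
    exact ev_ne_lin _ _ (h.2 y' hy')
  have e4 := ev_ne_quad (l (X * (X * PY Y))) (-2 * l (X * PY Y)) (l (PY Y)) h.1
  obtain ⟨y, hy1, hy2, hy3, hy4⟩ := (e1.and (e2.and (e3.and e4))).exists
  have hP : PY (insert y Y) = (X - C y) * PY Y := by
    unfold PY
    rw [Finset.prod_insert hy1]
  refine ⟨y, hy1, ?_, ?_⟩
  · rw [hP, l_sub]; exact hy2
  · intro y' hy'
    rw [hP]
    rcases Finset.mem_insert.1 hy' with rfl | h1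
    · rw [l_sub, l_sub]
      have : l (X * ((X - C y') * PY Y)) = l (X * (X * PY Y)) - y' * l (X * PY Y) := by
        rw [← l_sub]; congr 1; ring
      rw [this]
      intro h0
      apply hy4
      rw [← h0]; ring
    · have : (X - C y') * ((X - C y) * PY Y) = (X - C y) * ((X - C y') * PY Y) := by ring
      rw [this, l_sub]
      exact hy3 y' h1

open Classical in
theorem good_grow {Y : Finset K} (h : Good l Y) (k : ℕ) :
    ∃ Y' : Finset K, Y'.card = Y.card + k ∧ Good l Y' := by
  induction k with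
  | zero => exact ⟨Y, rfl, h⟩
  | succ k ih =>
    obtain ⟨Y', h1, h2⟩ := ih
    obtain ⟨y, h3, h4⟩ := good_step l h2
    exact ⟨insert y Y', by rw [Finset.card_insert_of_notMem h3, h1]; rfl, h4⟩

omit [Infinite K] in
theorem low_zero {d : ℕ} (h : ∀ k < d, l (X ^ k) = 0) (P : K[X]) (hP : ∀ k, d ≤ k → P.coeff k = 0) :
    l P = 0 := by
  rw [P.as_sum_range, map_sum]
  refine Finset.sum_eq_zero fun i hi => ?_
  rw [← C_mul_X_pow_eq_monomial, ← smul_eq_C_mul, map_smul]
  rcases lt_or_ge i d with h1 | h1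
  · rw [h i h1, smul_zero]
  · rw [hP i h1, zero_smul]

omit [Infinite K] in
theorem low_monic {d : ℕ} (h : ∀ k < d, l (X ^ k) = 0) (P : K[X]) (hP : P.Monic)
    (hd : P.natDegree = d) : l P = l (X ^ d) := by
  have h1 : l (P - X ^ d) = 0 := by
    apply low_zero l h
    intro k hk
    rw [coeff_sub, coeff_X_pow]
    rcases eq_or_lt_of_le hk with h2 | h2
    · subst h2
      rw [if_pos rfl, ← hd]
      have := hP.coeff_natDegree
      rw [this, sub_self]
    · rw [if_neg h2.ne', coeff_eq_zero_of_natDegree_lt (by omega), sub_self]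
  rw [map_sub, sub_eq_zero] at h1
  exact h1

omit [Infinite K] in
theorem low_two {d : ℕ} (h : ∀ k < d, l (X ^ k) = 0) (Y : Finset K) (hY : Y.card = d)
    (y : K) : l ((X - C y) * PY Y) = l (X ^ (d + 1)) - (y + ∑ z ∈ Y, z) * l (X ^ d) := by
  classical
  have h0 : (X - C y) * PY Y = ((y ::ₘ Y.val).map fun t => X - C t).prod := by
    rw [Multiset.map_cons, Multiset.prod_cons]; rfl
  have hcard : Multiset.card (y ::ₘ Y.val) = d + 1 := by
    rw [Multiset.card_cons]; exact congrArg (· + 1) hY
  have hmon : ((X - C y) * PY Y).Monic := by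
    rw [h0]; exact monic_multisetProd_X_sub_C _
  have hdeg : ((X - C y) * PY Y).natDegree = d + 1 := by
    rw [h0, natDegree_multiset_prod_X_sub_C_eq_card, hcard]
  have hc : ((X - C y) * PY Y).coeff d = - (y + ∑ z ∈ Y, z) := by
    rw [h0]
    have := multiset_prod_X_sub_C_coeff_card_pred (y ::ₘ Y.val) (by rw [hcard]; omega)
    rw [hcard] at this
    rw [Nat.add_sub_cancel] at this
    rw [this, Multiset.sum_cons]
    congr 2
    rw [Finset.sum_eq_multiset_sum, Multiset.map_id']
  have h1 : l ((X - C y) * PY Y - X ^ (d + 1) + C (y + ∑ z ∈ Y, z) * X ^ d) = 0 := by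
    apply low_zero l h
    intro k hk
    rw [coeff_add, coeff_sub, coeff_X_pow, coeff_C_mul, coeff_X_pow]
    rcases eq_or_lt_of_le hk with h2 | h2
    · subst h2
      rw [if_neg (by omega), if_pos rfl, hc]; ring
    · rw [if_neg h2.ne']
      rcases eq_or_lt_of_le (Nat.succ_le_of_lt h2) with h3 | h3
      · have h4 := hmon.coeff_natDegree
        rw [hdeg] at h4
        rw [← h3]
        rw [h4, if_pos rfl]; ring
      · rw [if_neg (by omega), coeff_eq_zero_of_natDegree_lt (by omega)]; ring
  rw [map_add, map_sub, ← smul_eq_C_mul, map_smul, smul_eq_mul] at h1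
  linear_combination h1

open Classical in
theorem exists_card (k : ℕ) : ∃ Y : Finset K, Y.card = k :=
  let ⟨Y, hY⟩ := Infinite.exists_subset_card_eq K k
  ⟨Y, hY⟩

open Classical in
/-- a set of size `d - 1` with suitable sum -/
theorem base_sum (d : ℕ) (hd : 0 < d) (c : K) (h : (2 : K) ≠ 0 ∨ 2 ≤ d ∨ c ≠ 0) :
    ∃ Y : Finset K, Y.card = d - 1 ∧ ((2 : K) ≠ 0 ∨ ∑ z ∈ Y, z ≠ c) := by
  rcases h with h | h | h
  · obtain ⟨Y, hY⟩ := exists_card (K := K) (d - 1)
    exact ⟨Y, hY, Or.inl h⟩
  · obtain ⟨Y, hY⟩ := exists_card (K := K) (d - 2)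
    obtain ⟨y, hy1, hy2⟩ := ((ev_notMem Y).and (ev_notMem {c - ∑ z ∈ Y, z})).exists
    refine ⟨insert y Y, by rw [Finset.card_insert_of_notMem hy1, hY]; omega, Or.inr ?_⟩
    rw [Finset.sum_insert hy1]
    intro h3
    apply hy2
    rw [Finset.mem_singleton, ← h3]; ring
  · rcases Nat.lt_or_ge 1 d with h1 | h1
    · obtain ⟨Y, hY⟩ := exists_card (K := K) (d - 2)
      obtain ⟨y, hy1, hy2⟩ := ((ev_notMem Y).and (ev_notMem {c - ∑ z ∈ Y, z})).exists
      refine ⟨insert y Y, by rw [Finset.card_insert_of_notMem hy1, hY]; omega, Or.inr ?_⟩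
      rw [Finset.sum_insert hy1]
      intro h3
      apply hy2
      rw [Finset.mem_singleton, ← h3]; ring
    · refine ⟨∅, by simp; omega, Or.inr ?_⟩
      rw [Finset.sum_empty]
      exact h.symm

omit [Infinite K] in
theorem PY_natDegree (Y : Finset K) : (PY Y).natDegree = Y.card := by
  unfold PY
  rw [natDegree_finsetProd_X_sub_C_eq_card]

omit [Infinite K] in
theorem PY_monic (Y : Finset K) : (PY Y).Monic := by
  unfold PY
  exact monic_prod_of_monic _ _ fun y _ => monic_X_sub_C y

open Classical in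
theorem good_base (n : ℕ) (hn : 3 ≤ n) (R : K[X]) (hR : R.natDegree ≤ n - 1) (hlR : l R ≠ 0) :
    ∃ Y : Finset K, Y.card ≤ n - 1 ∧ Good l Y := by
  have h0 : ∃ d, l (X ^ d) ≠ 0 := by
    by_contra hcon
    push Not at hcon
    exact hlR (low_zero l (d := R.natDegree + 1) (fun k _ => hcon k) R (fun k hk =>
      coeff_eq_zero_of_natDegree_lt (by omega)))
  obtain ⟨d, hd1, hd2⟩ : ∃ d, l (X ^ d) ≠ 0 ∧ ∀ k < d, l (X ^ k) = 0 :=
    ⟨Nat.find h0, Nat.find_spec h0, fun k hk => not_not.1 (Nat.find_min h0 hk)⟩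
  have hdn : d ≤ n - 1 := by
    by_contra hcon
    exact hlR (low_zero l hd2 R (fun k hk => coeff_eq_zero_of_natDegree_lt (by omega)))
  rcases Nat.eq_zero_or_pos d with h1 | h1
  · subst h1
    refine ⟨∅, by simp, ?_, by simp⟩
    unfold PY
    rw [Finset.prod_empty]
    rwa [pow_zero] at hd1
  · set c : K := l (X ^ (d + 1)) / l (X ^ d) with hc
    by_cases hcase : (2 : K) ≠ 0 ∨ 2 ≤ d ∨ c ≠ 0
    · obtain ⟨Y, hY1, hY2⟩ := base_sum d h1 c hcase
      have e1 := ev_notMem Y
      have e2 : ∀ᶠ y in (cofinite : Filter K), ∀ y' ∈ Y, (c - ∑ z ∈ Y, z - y') - y * 1 ≠ 0 := by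
        rw [Filter.eventually_all_finset]
        intro y' _
        exact ev_ne_lin _ _ one_ne_zero
      have e3 : ∀ᶠ y in (cofinite : Filter K), (c - ∑ z ∈ Y, z) - y * 2 ≠ 0 := by
        by_cases h2 : (2 : K) = 0
        · refine Filter.Eventually.of_forall fun y => ?_
          rw [h2, mul_zero, sub_zero, sub_ne_zero]
          exact (hY2.resolve_left (not_not.2 h2)).symm
        · exact ev_ne_lin _ _ h2
      obtain ⟨y, hy1, hy2, hy3⟩ := (e1.and (e2.and e3)).exists
      have hcardY : (insert y Y).card = d := by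
        rw [Finset.card_insert_of_notMem hy1, hY1]; omega
      refine ⟨insert y Y, by omega, ?_, ?_⟩
      · rw [low_monic l hd2 _ (PY_monic _) (by rw [PY_natDegree, hcardY])]
        exact hd1
      · intro y' hy'
        rw [low_two l hd2 _ hcardY, Finset.sum_insert hy1]
        have h3 : l (X ^ (d + 1)) = c * l (X ^ d) := by
          rw [hc, div_mul_cancel₀ _ hd1]
        rw [h3, ← sub_mul]
        apply mul_ne_zero _ hd1
        rcases Finset.mem_insert.1 hy' with rfl | h4
        · intro h5; apply hy3; rw [← h5]; ring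
        · intro h5; apply hy2 y' h4; rw [← h5]; ring
    · push Not at hcase
      obtain ⟨h2, h3, h4⟩ := hcase
      have hd : d = 1 := by omega
      subst hd
      have h5 : l (X ^ 2) = 0 := by
        have := hc ▸ h4
        exact (div_eq_zero_iff.1 this).resolve_right hd1
      have h6 : l (X ^ 0) = 0 := hd2 0 (by norm_num)
      obtain ⟨a, ha⟩ := (ev_ne_quad (l (X ^ 3)) 0 (l (X ^ 1)) hd1).exists
      obtain ⟨b, hb1, hb2⟩ := ((ev_ne_quad (l (X ^ 3)) 0 (l (X ^ 1)) hd1).and
        (ev_notMem {a})).exists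
      have hab : a ≠ b := fun h => hb2 (by rw [h]; exact Finset.mem_singleton_self _)
      refine ⟨{a, b}, ?_, ?_, ?_⟩
      · rw [Finset.card_pair hab]; omega
      · have h7 : PY {a, b} = X ^ 2 - C (a + b) * X ^ 1 + C (a * b) * X ^ 0 := by
          unfold PY
          rw [Finset.prod_pair hab]
          simp only [C_add, C_mul]; ring
        rw [h7, map_add, map_sub, ← smul_eq_C_mul, ← smul_eq_C_mul, map_smul, map_smul, h5, h6,
          smul_zero, add_zero, zero_sub, smul_eq_mul, Ne, neg_eq_zero]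
        apply mul_ne_zero _ hd1
        intro h8
        apply hab
        have : a = -b := by linear_combination h8
        rw [this]
        have : (2 : K) * b = 0 := by rw [h2, zero_mul]
        linear_combination -this
      · have h7 : ∀ u v : K, (l (X ^ 3) + u * 0 + u ^ 2 * l (X ^ 1) ≠ 0) →
            l ((X - C u) * ((X - C u) * (X - C v))) ≠ 0 := by
          intro u v h8
          have h9 : (X - C u) * ((X - C u) * (X - C v)) = X ^ 3 - C (2 * u + v) * X ^ 2 +
              C (u ^ 2 + 2 * (u * v)) * X ^ 1 - C (u ^ 2 * v) * X ^ 0 := by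
            simp only [C_add, C_mul, C_pow, C_ofNat]; ring
          rw [h9, map_sub, map_add, map_sub, ← smul_eq_C_mul, ← smul_eq_C_mul, ← smul_eq_C_mul,
            map_smul, map_smul, map_smul, h5, h6, smul_zero, smul_zero, h2]
          intro h10
          apply h8
          rw [smul_eq_mul] at h10
          linear_combination h10
        intro y hy
        unfold PY
        rw [Finset.prod_pair hab]
        rcases Finset.mem_insert.1 hy with rfl | h8
        · exact h7 _ _ ha
        · rw [Finset.mem_singleton] at h8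
          subst h8
          have := h7 y a hb1
          have h9 : (X - C y) * ((X - C a) * (X - C y)) = (X - C y) * ((X - C y) * (X - C a)) := by
            ring
          rw [h9]; exact this

open Classical in
theorem LL (n : ℕ) (hn : 3 ≤ n) (R : K[X]) (hR : R.natDegree ≤ n - 1) (hlR : l R ≠ 0) :
    ∃ x : Fin n → K, Function.Injective x ∧ l (∏ j, (X - C (x j))) = 0 := by
  obtain ⟨Y0, h1, h2⟩ := good_base l n hn R hR hlR
  obtain ⟨Y, h3, h4⟩ := good_grow l h2 (n - 1 - Y0.card)
  have h5 : Y.card = n - 1 := by omega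
  set t : K := l (X * PY Y) / l (PY Y) with ht
  have h6 : l ((X - C t) * PY Y) = 0 := by
    rw [l_sub, ht, div_mul_cancel₀ _ h4.1, sub_self]
  have h7 : t ∉ Y := fun h => h4.2 t h h6
  have h8 : (insert t Y).card = n := by
    rw [Finset.card_insert_of_notMem h7, h5]; omega
  let e := (insert t Y).equivFinOfCardEq h8
  refine ⟨fun j => (e.symm j : K), fun i j hij => e.symm.injective (Subtype.ext hij), ?_⟩
  have h9 : ∏ j : Fin n, (X - C ((e.symm j : K))) = ∏ y ∈ insert t Y, (X - C y) := by
    rw [← Finset.prod_coe_sort (insert t Y) (fun y => (X - C y : K[X]))]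
    exact Equiv.prod_comp e.symm (fun y : (insert t Y : Finset K) => (X - C (y : K) : K[X]))
  rw [h9, Finset.prod_insert h7]
  exact h6

end

end Pool.Agent.K7.H18.NG
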