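import Pool.Agent.K7.H18.NG.GtF
import Pool.Agent.K7.H18.NG.LL

/-!
# Norm forms and the first deformation
-/

set_option autoImplicit false

namespace Pool.Agent.K7.H18.NG

open Polynomial

theorem coeff_one_prod {A : Type} [CommRing A] (s : Finset ℕ) (f : ℕ → A[X]) :
    (∏ k ∈ s, f k).coeff 1 = ∑ k ∈ s, (f k).coeff 1 * ∏ r ∈ s.erase k, (f r).coeff 0 := by
  classical
  induction s using Finset.induction_on with
  | empty => simp [coeff_one]
  | insert a s ha ih =>
    rw [Finset.prod_insert ha, Finset.sum_insert ha, Finset.erase_insert ha, mul_coeff_one, ih,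
      coeff_zero_prod]
    rw [add_comm ((f a).coeff 0 * _), Finset.mul_sum]
    congr 1
    refine Finset.sum_congr rfl fun k hk => ?_
    have hne : a ≠ k := fun h => ha (h ▸ hk)
    rw [Finset.erase_insert_of_ne hne, Finset.prod_insert (fun h => ha (Finset.mem_of_mem_erase h))]
    ring

theorem comp_line_coeff_one {A : Type} [CommRing A] (Q : A[X]) (a b : A) :
    (Q.comp (C a + C b * X)).coeff 1 = b * (derivative Q).eval a := by
  have h1 : (Q.comp (C a + C b * X)).coeff 1 = eval 0 (derivative (Q.comp (C a + C b * X))) := by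
    rw [← coeff_zero_eq_eval_zero, coeff_derivative]; simp
  rw [h1, derivative_comp]
  simp

section
variable {K F : Type} [Field K] [Field F] [Algebra K F] {m : ℕ} (c : Cyc K F m) {ι : Type}

/-- evaluation at rational points -/
noncomputable def Φ (F : Type) {K : Type} [Field K] [Field F] [Algebra K F] {ι : Type}
    (x : ι → K) (a : K) : (MvPolynomial ι F)[X] →+* F :=
  eval₂RingHom (MvPolynomial.eval fun i => algebraMap K F (x i)) (algebraMap K F a)

/-- restriction to a line -/
noncomputable def Λ (F : Type) {K : Type} [Field K] [Field F] [Algebra K F] {ι : Type}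
    (z v : ι → K) : MvPolynomial ι F →ₐ[F] F[X] :=
  MvPolynomial.aeval (fun i => C (algebraMap K F (z i)) + C (algebraMap K F (v i)) * X : ι → F[X])

theorem Φ_C (x : ι → K) (a : K) (g : MvPolynomial ι F) :
    Φ F x a (C g) = MvPolynomial.eval (fun i => algebraMap K F (x i)) g := by
  unfold Φ; simp

theorem Φ_X (x : ι → K) (a : K) : Φ F x a X = algebraMap K F a := by
  unfold Φ; simp

theorem Φ_divX (x : ι → K) (a : K) (p : (MvPolynomial ι F)[X]) :
    algebraMap K F a * Φ F x a (divX p) = Φ F x a p - Φ F x 0 p := by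
  have h1 := congrArg (Φ F x a) (divX_mul_X_add p)
  have h2 := congrArg (Φ F x (0 : K)) (divX_mul_X_add p)
  rw [map_add, map_mul, Φ_X, Φ_C] at h1 h2
  rw [map_zero, mul_zero, zero_add] at h2
  rw [← h1, ← h2]; ring

namespace Cyc

theorem eval_conj (k : ℕ) (x : ι → K) (g : MvPolynomial ι F) :
    MvPolynomial.eval (fun i => algebraMap K F (x i)) (MvPolynomial.map (c.σ ^ k) g) =
      (c.σ ^ k) (MvPolynomial.eval (fun i => algebraMap K F (x i)) g) := by
  induction g using MvPolynomial.induction_on with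
  | C a => simp
  | add p q hp hq => simp only [map_add, hp, hq]
  | mul_X p i hp => simp only [map_mul, hp, MvPolynomial.map_X, MvPolynomial.eval_X, c.pow_com]

theorem Φ_conj (k : ℕ) (x : ι → K) (a : K) (f : (MvPolynomial ι F)[X]) :
    Φ F x a (f.map (MvPolynomial.map (c.σ ^ k))) = (c.σ ^ k) (Φ F x a f) := by
  induction f using Polynomial.induction_on' with
  | add p q hp hq => rw [Polynomial.map_add, map_add, map_add, map_add, hp, hq]
  | monomial n g =>
    rw [map_monomial, ← C_mul_X_pow_eq_monomial, ← C_mul_X_pow_eq_monomial]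
    simp only [map_mul, map_pow, Φ_X, Φ_C, c.pow_com, c.eval_conj]

theorem Λ_conj (k : ℕ) (z v : ι → K) (g : MvPolynomial ι F) :
    Λ F z v (MvPolynomial.map (c.σ ^ k) g) = (Λ F z v g).map (c.σ ^ k) := by
  induction g using MvPolynomial.induction_on with
  | C a => simp [Λ]
  | add p q hp hq => simp only [map_add, hp, hq, Polynomial.map_add]
  | mul_X p i hp =>
    rw [map_mul, map_mul, hp, MvPolynomial.map_X, map_mul, Polynomial.map_mul]
    congr 1
    unfold Λ
    rw [MvPolynomial.aeval_X, Polynomial.map_add, Polynomial.map_mul, Polynomial.map_C,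
      Polynomial.map_C, Polynomial.map_X, c.pow_com, c.pow_com]

/-- the norm of a polynomial -/
noncomputable def NP (f : (MvPolynomial ι F)[X]) : (MvPolynomial ι F)[X] :=
  ∏ k ∈ Finset.range m, f.map (MvPolynomial.map (c.σ ^ k))

theorem NP_inv (f : (MvPolynomial ι F)[X]) : (c.NP f).map (MvPolynomial.map c.σ) = c.NP f := by
  have hmm : ∀ (k : ℕ) (P : MvPolynomial ι F), MvPolynomial.map c.σ (MvPolynomial.map (c.σ ^ k) P) =
      MvPolynomial.map (c.σ ^ (k + 1)) P := by
    intro k P
    rw [MvPolynomial.map_map, pow_succ', RingHom.mul_def]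
  unfold NP
  rw [Polynomial.map_prod, ← Cyc.prod_shift m (fun k => f.map (MvPolynomial.map (c.σ ^ k)))
    (by show f.map (MvPolynomial.map (c.σ ^ m)) = f.map (MvPolynomial.map (c.σ ^ 0))
        rw [c.pow, pow_zero])]
  refine Finset.prod_congr rfl fun k _ => ?_
  ext1 i
  rw [coeff_map, coeff_map, coeff_map, hmm]

theorem Φ_NP (x : ι → K) (a : K) (f : (MvPolynomial ι F)[X]) :
    Φ F x a (c.NP f) = c.N (Φ F x a f) := by
  unfold NP N
  rw [map_prod]
  exact Finset.prod_congr rfl fun k _ => c.Φ_conj k x a f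

theorem divX_inv (f : (MvPolynomial ι F)[X]) (h : f.map (MvPolynomial.map c.σ) = f) :
    (divX f).map (MvPolynomial.map c.σ) = divX f := by
  ext1 i
  rw [coeff_map, coeff_divX]
  conv_rhs => rw [← h]
  rw [coeff_map]

/-! conjugates of `β` -/

theorem σβ_ne {m : ℕ} (c : Cyc K F m) (k : ℕ) (h0 : 0 < k) (hk : k < m) : (c.σ ^ k) c.β ≠ c.β := by
  intro h
  have h1 := c.dual k hk
  have h2 := c.dual 0 (by omega)
  rw [if_neg (by omega), h] at h1
  rw [if_pos rfl, pow_zero] at h2
  have h3 : (1 : F →+* F) c.β = c.β := rfl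
  rw [h3, h1] at h2
  exact zero_ne_one h2

theorem σ_pow_inj {m : ℕ} (c : Cyc K F m) {i j : ℕ} (hi : i < m) (hj : j < m)
    (h : (c.σ ^ i) c.β = (c.σ ^ j) c.β) : i = j := by
  wlog hij : i ≤ j generalizing i j
  · exact (this hj hi h.symm (by omega)).symm
  by_contra hne
  obtain ⟨d, rfl⟩ : ∃ d, j = i + d := ⟨j - i, by omega⟩
  rw [c.pow_add_apply] at h
  exact c.σβ_ne d (by omega) (by omega) ((c.σ ^ i).injective h).symm

theorem dual' {m : ℕ} (c : Cyc K F m) (i : ℕ) (hi : i < m) :
    c.T (c.ω * (c.σ ^ i) c.β) = if i = 0 then 1 else 0 := c.dual i hi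

/-! the interpolation polynomials -/

/-- the deformation of the norm polynomial -/
noncomputable def PD (D : F) : F[X][X] :=
  ∏ k ∈ Finset.range m, (C (X + C ((c.σ ^ k) c.β)) + C (C ((c.σ ^ k) D)) * X)

theorem PD_inv (D : F) : (c.PD D).map (mapRingHom c.σ) = c.PD D := by
  unfold PD
  rw [Polynomial.map_prod, ← Cyc.prod_shift m
    (fun k => (C (X + C ((c.σ ^ k) c.β)) + C (C ((c.σ ^ k) D)) * X : F[X][X]))
    (by show (C (X + C ((c.σ ^ m) c.β)) + C (C ((c.σ ^ m) D)) * X : F[X][X]) =
          (C (X + C ((c.σ ^ 0) c.β)) + C (C ((c.σ ^ 0) D)) * X : F[X][X])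
        rw [c.pow, pow_zero])]
  refine Finset.prod_congr rfl fun k _ => ?_
  simp only [Polynomial.map_add, Polynomial.map_mul, Polynomial.map_C, Polynomial.map_X,
    coe_mapRingHom, c.pow_succ_apply]

/-- the derivative of the norm polynomial in the direction `D` -/
noncomputable def QD (D : F) : F[X] := (c.PD D).coeff 1

theorem QD_eq (D : F) : c.QD D = ∑ k ∈ Finset.range m,
    C ((c.σ ^ k) D) * ∏ r ∈ (Finset.range m).erase k, (X + C ((c.σ ^ r) c.β)) := by
  unfold QD PD
  rw [coeff_one_prod]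
  refine Finset.sum_congr rfl fun k _ => ?_
  congr 1
  · simp
  · refine Finset.prod_congr rfl fun r _ => ?_
    simp

theorem QD_inv (D : F) : (c.QD D).map c.σ = c.QD D := by
  unfold QD
  conv_rhs => rw [← c.PD_inv D]
  rw [coeff_map, coe_mapRingHom]

theorem QD_inv' (D : F) (k : ℕ) : (c.QD D).map (c.σ ^ k) = c.QD D := by
  induction k with
  | zero => rw [pow_zero]; exact Polynomial.map_id
  | succ k ih => rw [pow_succ', RingHom.mul_def, ← Polynomial.map_map, ih, c.QD_inv]

theorem QD_eval (D : F) (hm : 0 < m) : (c.QD D).eval (-c.β) =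
    D * ∏ r ∈ (Finset.range m).erase 0, ((c.σ ^ r) c.β - c.β) := by
  rw [QD_eq, eval_finsetSum, Finset.sum_eq_single 0]
  · rw [eval_mul, eval_C, eval_prod, pow_zero]
    congr 1
    refine Finset.prod_congr rfl fun r _ => ?_
    rw [eval_add, eval_X, eval_C]; ring
  · intro k _ hk
    rw [eval_mul, eval_prod]
    apply mul_eq_zero_of_right
    apply Finset.prod_eq_zero (Finset.mem_erase.2 ⟨hk.symm, Finset.mem_range.2 hm⟩)
    rw [eval_add, eval_X, eval_C, pow_zero]
    show -c.β + c.β = 0
    ring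
  · intro h; exact absurd (Finset.mem_range.2 hm) h

theorem QD_natDegree (D : F) : (c.QD D).natDegree ≤ m - 1 := by
  rw [QD_eq]
  apply natDegree_sum_le_of_forall_le
  intro k hk
  refine (natDegree_C_mul_le _ _).trans ?_
  refine (natDegree_prod_le _ _).trans ?_
  refine (Finset.sum_le_card_nsmul _ _ 1 fun r _ => ?_).trans ?_
  · exact (natDegree_X_add_C _).le
  · rw [Finset.card_erase_of_mem hk, Finset.card_range]; simp

theorem QD_coeff (D : F) : (c.QD D).coeff (m - 1) = c.T D := by
  rw [QD_eq, finsetSum_coeff]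
  unfold T
  refine Finset.sum_congr rfl fun k hk => ?_
  rw [coeff_C_mul]
  have h1 : (∏ r ∈ (Finset.range m).erase k, (X + C ((c.σ ^ r) c.β) : F[X])).Monic :=
    monic_prod_of_monic _ _ fun r _ => monic_X_add_C _
  have h2 : (∏ r ∈ (Finset.range m).erase k, (X + C ((c.σ ^ r) c.β) : F[X])).natDegree = m - 1 := by
    rw [natDegree_prod_of_monic _ _ fun r _ => monic_X_add_C _]
    rw [Finset.sum_congr rfl fun r _ => natDegree_X_add_C _]
    rw [Finset.sum_const, Finset.card_erase_of_mem hk, Finset.card_range]; simp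
  have h3 := h1.coeff_natDegree
  rw [h2] at h3
  rw [h3, mul_one]

theorem descend_one (P : F[X]) (h : P.map c.σ = P) :
    ∃ P' : K[X], P'.map (algebraMap K F) = P := by
  classical
  have h1 : ∀ d, c.σ (P.coeff d) = P.coeff d := by
    intro d
    rw [← coeff_map, h]
  choose a ha using fun d => c.fix _ (h1 d)
  refine ⟨∑ d ∈ P.support, monomial d (a d), ?_⟩
  rw [Polynomial.map_sum]
  conv_rhs => rw [P.as_sum_support]
  refine Finset.sum_congr rfl fun d _ => ?_
  rw [map_monomial, ha]

/-- the nodal value -/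
noncomputable def kap : F := ∏ r ∈ (Finset.range m).erase 0, ((c.σ ^ r) c.β - c.β)

theorem kap_ne : c.kap ≠ 0 := by
  unfold kap
  rw [Finset.prod_ne_zero_iff]
  intro r hr
  rw [Finset.mem_erase, Finset.mem_range] at hr
  exact sub_ne_zero.2 (c.σβ_ne r (by omega) hr.2)

/-- the direction belonging to a polynomial -/
noncomputable def dir (Q : K[X]) : F := aeval (-c.β) Q / c.kap

open Classical in
theorem QD_dir (hm : 0 < m) (Q : K[X]) (hQ : Q.natDegree ≤ m - 1) :
    c.QD (c.dir Q) = Q.map (algebraMap K F) := by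
  have h1 : ∀ k, ((c.QD (c.dir Q)) - Q.map (algebraMap K F)).eval ((c.σ ^ k) (-c.β)) = 0 := by
    intro k
    have h2 : ((c.QD (c.dir Q)) - Q.map (algebraMap K F)).map (c.σ ^ k) =
        (c.QD (c.dir Q)) - Q.map (algebraMap K F) := by
      rw [Polynomial.map_sub, c.QD_inv', Polynomial.map_map]
      congr 2
      exact RingHom.ext fun a => c.pow_com k a
    rw [← h2, eval_map_apply, eval_sub, c.QD_eval _ hm, eval_map_algebraMap]
    have h3 : c.dir Q * c.kap = aeval (-c.β) Q := div_mul_cancel₀ _ c.kap_ne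
    unfold kap at h3
    rw [h3, sub_self, map_zero]
  rw [← sub_eq_zero]
  apply eq_zero_of_natDegree_lt_card_of_eval_eq_zero' _
    ((Finset.range m).image fun k => (c.σ ^ k) (-c.β))
  · intro y hy
    obtain ⟨k, -, rfl⟩ := Finset.mem_image.1 hy
    exact h1 k
  · rw [Finset.card_image_of_injOn, Finset.card_range]
    · have h4 := natDegree_sub_le (c.QD (c.dir Q)) (Q.map (algebraMap K F))
      have h5 := c.QD_natDegree (c.dir Q)
      have h6 : (Q.map (algebraMap K F)).natDegree ≤ m - 1 := natDegree_map_le.trans hQ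
      have h7 := max_le h5 h6
      omega
    · intro i hi j hj hij
      rw [Finset.coe_range, Set.mem_Iio] at hi hj
      apply c.σ_pow_inj hi hj
      have h8 : (c.σ ^ i) (-c.β) = (c.σ ^ j) (-c.β) := hij
      rw [map_neg, map_neg] at h8
      exact neg_injective h8

theorem dir_add (P Q : K[X]) : c.dir (P + Q) = c.dir P + c.dir Q := by
  unfold dir; rw [map_add, add_div]

theorem dir_smul (a : K) (Q : K[X]) : c.dir (a • Q) = algebraMap K F a * c.dir Q := by
  unfold dir; rw [map_smul, Algebra.smul_def, mul_div_assoc]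

/-- the trace with values in the base field -/
noncomputable def tr (x : F) : K := (c.fix _ (c.σ_T x)).choose

theorem tr_eq (x : F) : algebraMap K F (c.tr x) = c.T x := (c.fix _ (c.σ_T x)).choose_spec

/-- the linear form of the first stage -/
noncomputable def ll : K[X] →ₗ[K] K where
  toFun Q := c.tr (c.ω * c.σ (c.dir Q)) - c.tr (c.ω * c.σ (c.σ (c.dir Q)))
  map_add' P Q := by
    apply (algebraMap K F).injective
    simp only [map_add, map_sub, tr_eq, c.dir_add, mul_add, c.T_add]
    ring
  map_smul' a Q := by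
    apply (algebraMap K F).injective
    simp only [map_mul, map_sub, tr_eq, c.dir_smul, c.com, smul_eq_mul, RingHom.id_apply]
    have h1 : ∀ y : F, c.ω * (algebraMap K F a * y) = algebraMap K F a * (c.ω * y) := fun y => by
      ring
    rw [h1, h1, c.T_smul, c.T_smul]
    ring

theorem ll_eq (Q : K[X]) : algebraMap K F (c.ll Q) =
    c.T (c.ω * c.σ (c.dir Q)) - c.T (c.ω * c.σ (c.σ (c.dir Q))) := by
  show algebraMap K F (c.tr (c.ω * c.σ (c.dir Q)) - c.tr (c.ω * c.σ (c.σ (c.dir Q)))) = _
  rw [map_sub, tr_eq, tr_eq]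

theorem exists_dir (n : ℕ) (c : Cyc K F (n + 1)) (hn : 3 ≤ n) (hK : Infinite K) :
    ∃ (x : Fin n → K) (D : F), Function.Injective x ∧
      c.QD D = (∏ j, (X - C (x j)) : K[X]).map (algebraMap K F) ∧ c.T D = 1 ∧
      c.T (c.ω * c.σ D) = c.T (c.ω * c.σ (c.σ D)) := by
  obtain ⟨R, hR⟩ := c.descend_one _ (c.QD_inv ((c.σ ^ n) c.β - c.β))
  have hRT : c.T ((c.σ ^ n) c.β - c.β) = 0 := by rw [T_sub, T_σ_pow, sub_self]
  have hRdeg : R.natDegree ≤ n - 1 := by
    have h1 : R.natDegree ≤ n := by
      have := c.QD_natDegree ((c.σ ^ n) c.β - c.β)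
      rw [← hR, natDegree_map] at this
      omega
    have h2 : R.coeff n = 0 := by
      apply (algebraMap K F).injective
      have := c.QD_coeff ((c.σ ^ n) c.β - c.β)
      rw [← hR, coeff_map, hRT] at this
      rw [map_zero]
      exact this
    rcases Nat.lt_or_ge R.natDegree n with h3 | h3
    · omega
    · exfalso
      have h4 : R.natDegree = n := le_antisymm h1 h3
      have h5 : R = 0 := by
        rw [← leadingCoeff_eq_zero, leadingCoeff, h4]; exact h2
      rw [h5, natDegree_zero] at h4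
      omega
  have hdirR : c.dir R = (c.σ ^ n) c.β - c.β := by
    unfold dir
    rw [← eval_map_algebraMap, hR, c.QD_eval _ (by omega)]
    exact mul_div_cancel_right₀ _ c.kap_ne
  have hσσ : ∀ y, c.σ (c.σ y) = (c.σ ^ 2) y := fun y => by
    rw [c.pow_succ_apply, pow_one]
  have hσ1 : ∀ y, c.σ y = (c.σ ^ 1) y := fun y => by rw [pow_one]
  have hlR : c.ll R ≠ 0 := by
    intro h
    have h1 := congrArg (algebraMap K F) h
    rw [c.ll_eq, hdirR, map_zero, hσσ, hσ1, map_sub, map_sub, ← c.pow_add_apply,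
      ← c.pow_add_apply, mul_sub, mul_sub, c.T_sub, c.T_sub, Nat.add_comm 1 n, c.pow,
      show 2 + n = 1 + (n + 1) by ring, c.pow_add_apply 1, c.pow, c.dual' 1 (by omega),
      c.dual' 2 (by omega)] at h1
    have h2 : (1 : F →+* F) c.β = (c.σ ^ 0) c.β := by rw [pow_zero]
    rw [h2, c.dual' 0 (by omega), ← c.pow_add_apply, c.dual' 1 (by omega)] at h1
    simp at h1
  obtain ⟨x, hx1, hx2⟩ := LL c.ll n hn R hRdeg hlR
  have hQdeg : (∏ j, (X - C (x j)) : K[X]).natDegree = n := by
    rw [natDegree_finsetProd_X_sub_C_eq_card, Finset.card_univ, Fintype.card_fin]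
  have hQmon : (∏ j, (X - C (x j)) : K[X]).Monic := monic_prod_of_monic _ _ fun j _ => monic_X_sub_C _
  have h3 := c.QD_dir (by omega) (∏ j, (X - C (x j)) : K[X]) (by rw [hQdeg]; rfl)
  refine ⟨x, c.dir (∏ j, (X - C (x j)) : K[X]), hx1, h3, ?_, ?_⟩
  · rw [← c.QD_coeff, h3, coeff_map]
    have := hQmon.coeff_natDegree
    rw [hQdeg] at this
    rw [show n + 1 - 1 = n from rfl, this, map_one]
  · rw [← sub_eq_zero, ← c.ll_eq, hx2, map_zero]

end Cyc

end

end Pool.Agent.K7.H18.NG
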