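import Pool.Agent.K7.H18.NG.Geom1

/-!
# The first deformation
-/

set_option autoImplicit false

namespace Pool.Agent.K7.H18.NG

open Polynomial

section
variable {K F : Type} [Field K] [Field F] [Algebra K F] {ι : Type}

theorem infinite_of_pac (hK : PAC K) : Infinite K := by
  classical
  by_contra hfin
  rw [not_infinite_iff_finite] at hfin
  have := Fintype.ofFinite K
  obtain ⟨a, x, h1, -, -⟩ := gt hK (ι := Empty) (κ := Empty) (fun i => i.elim) (fun i => i.elim)
    (fun i => i.elim) (fun i => i.elim) (fun v _ => funext fun i => i.elim) (fun i => i.elim)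
    (∏ a : K, (X - C a)) (Finset.prod_ne_zero_iff.2 fun a _ => X_sub_C_ne_zero a)
  apply h1
  rw [eval_prod]
  exact Finset.prod_eq_zero (Finset.mem_univ a) (by simp)

theorem eval_der_prod {n : ℕ} (x : Fin n → K) (hx : Function.Injective x) (j : Fin n) :
    (derivative (∏ i, (X - C (x i)) : K[X])).eval (x j) ≠ 0 := by
  classical
  rw [← Finset.mul_prod_erase Finset.univ (fun i => (X - C (x i) : K[X])) (Finset.mem_univ j),
    derivative_mul, eval_add, eval_mul, eval_mul, eval_sub, eval_X, eval_C, sub_self, zero_mul,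
    add_zero, derivative_sub, derivative_X, derivative_C, sub_zero, eval_one, one_mul, eval_prod,
    Finset.prod_ne_zero_iff]
  intro i hi
  rw [eval_sub, eval_X, eval_C, sub_ne_zero]
  exact fun h => (Finset.mem_erase.1 hi).1 (hx h).symm

theorem Λ_coeff_zero (z v : ι → K) (g : MvPolynomial ι F) :
    (Λ F z v g).coeff 0 = MvPolynomial.eval (fun i => algebraMap K F (z i)) g := by
  induction g using MvPolynomial.induction_on with
  | C a => simp [Λ]
  | add p q hp hq => simp only [map_add, coeff_add, hp, hq]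
  | mul_X p i hp =>
    rw [map_mul, mul_coeff_zero, hp, map_mul, MvPolynomial.eval_X]
    congr 1
    simp [Λ]

/-- the family for the first deformation -/
noncomputable def f1 {n : ℕ} (c : Cyc K F (n + 1)) (D : F) (j : Fin n) :
    (MvPolynomial (Fin n) F)[X] :=
  C (MvPolynomial.C c.β + MvPolynomial.X j) + X * C (MvPolynomial.C D)

theorem Φ_f1 {n : ℕ} (c : Cyc K F (n + 1)) (D : F) (j : Fin n) (x : Fin n → K) (a : K) :
    Φ F x a (f1 c D j) = c.β + algebraMap K F (x j) + algebraMap K F a * D := by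
  unfold f1
  rw [map_add, map_mul, Φ_C, Φ_C, Φ_X, map_add, MvPolynomial.eval_C, MvPolynomial.eval_X,
    MvPolynomial.eval_C]

theorem Λ_f1 {n : ℕ} (c : Cyc K F (n + 1)) (D : F) (j : Fin n) (z v : Fin n → K) :
    Λ F z v ((c.NP (f1 c D j)).coeff 1) =
      (c.QD D).comp (C (algebraMap K F (z j)) + C (algebraMap K F (v j)) * X) := by
  have h1 : (c.NP (f1 c D j)).map (Λ F z v : MvPolynomial (Fin n) F →ₐ[F] F[X]).toRingHom =
      (c.PD D).map (compRingHom (C (algebraMap K F (z j)) + C (algebraMap K F (v j)) * X)) := by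
    unfold Cyc.NP Cyc.PD
    rw [Polynomial.map_prod, Polynomial.map_prod]
    refine Finset.prod_congr rfl fun k _ => ?_
    unfold f1 Λ
    simp only [Polynomial.map_add, Polynomial.map_mul, Polynomial.map_C, Polynomial.map_X, map_add,
      MvPolynomial.map_C, MvPolynomial.map_X, AlgHom.toRingHom_eq_coe, RingHom.coe_coe,
      MvPolynomial.aeval_X, MvPolynomial.aeval_C, coe_compRingHom_apply, X_comp, C_comp,
      algebraMap_eq]
    ring
  have h2 := congrArg (fun p => p.coeff 1) h1
  simp only [coeff_map] at h2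
  exact h2

theorem stage1 {n : ℕ} (c : Cyc K F (n + 1)) (hn : 3 ≤ n) (hK : PAC K) :
    ∃ (β₂ : F) (x : Fin n → K), Function.Injective x ∧ c.σ β₂ ≠ β₂ ∧ c.T β₂ ≠ c.T c.β ∧
      (∀ j, c.N (β₂ + algebraMap K F (x j)) = c.N (c.β + algebraMap K F (x j))) ∧
      c.T (c.ω * c.σ (β₂ - c.β)) = c.T (c.ω * c.σ (c.σ (β₂ - c.β))) := by
  classical
  have hinf := infinite_of_pac hK
  obtain ⟨x0, D, hx0, hQ, hT, hω⟩ := Cyc.exists_dir n c hn hinf
  have hEinv : ∀ j, (divX (c.NP (f1 c D j))).map (MvPolynomial.map c.σ) = divX (c.NP (f1 c D j)) :=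
    fun j => c.divX_inv _ (c.NP_inv _)
  obtain ⟨a, x, ha, h1, h2⟩ := gtF c (by omega) hK (κ := (Fin n × Fin n) ⊕ Unit)
    (fun j => divX (c.NP (f1 c D j))) hEinv
    (fun s => Sum.elim (fun p : Fin n × Fin n => if p.1 = p.2 then 1 else
      C (MvPolynomial.X p.1 - MvPolynomial.X p.2))
      (fun _ => C (MvPolynomial.C (c.σ c.β - c.β)) + X * C (MvPolynomial.C (c.σ D - D))) s) x0
    (by
      intro j
      rw [coeff_divX, zero_add]
      rw [← Λ_coeff_zero x0 0, Λ_f1, hQ, Pi.zero_apply, map_zero, C_0, zero_mul, add_zero, comp_C,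
        coeff_C_zero, eval_map_algebraMap, aeval_algebraMap_apply, map_prod,
        Finset.prod_eq_zero (Finset.mem_univ j) (by simp), map_zero])
    (by
      intro v hv
      funext j
      have h3 := hv j
      rw [coeff_divX, zero_add] at h3
      have h4 : (Λ F x0 v ((c.NP (f1 c D j)).coeff 1)).coeff 1 = 0 := h3
      rw [Λ_f1, comp_line_coeff_one, hQ, derivative_map, eval_map_algebraMap, aeval_algebraMap_apply,
        ← map_mul, map_eq_zero_iff _ (algebraMap K F).injective, mul_eq_zero] at h4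
      exact h4.resolve_right (eval_der_prod x0 hx0 j))
    (by
      rintro (⟨i, j⟩ | _)
      · dsimp only [Sum.elim_inl]
        split_ifs with hij
        · simp
        · rw [coeff_C_zero, map_sub, MvPolynomial.eval_X, MvPolynomial.eval_X, sub_ne_zero]
          exact fun h => hij (hx0 ((algebraMap K F).injective h))
      · simp only [Sum.elim_inr, coeff_add, coeff_C_zero, coeff_X_mul_zero, add_zero,
          MvPolynomial.eval_C]
        rw [sub_ne_zero]
        have := c.σβ_ne 1 one_pos (by omega)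
        rwa [pow_one] at this)
    X X_ne_zero
  have ha0 : a ≠ 0 := by rwa [eval_X] at ha
  have haF : algebraMap K F a ≠ 0 := (_root_.map_ne_zero _).2 ha0
  refine ⟨c.β + algebraMap K F a * D, x, ?_, ?_, ?_, ?_, ?_⟩
  · intro i j hij
    by_contra hne
    apply h2 (Sum.inl (i, j))
    simp only [Sum.elim_inl]
    rw [if_neg hne, eval₂_C, map_sub, MvPolynomial.eval_X, MvPolynomial.eval_X, hij, sub_self]
  · have h3 := h2 (Sum.inr ())
    simp only [Sum.elim_inr, eval₂_add, eval₂_C, eval₂_mul, eval₂_X, MvPolynomial.eval_C] at h3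
    intro h4
    apply h3
    rw [map_add, map_mul, c.com] at h4
    linear_combination h4
  · rw [c.T_add, c.T_smul, hT, mul_one]
    intro h3
    exact haF (by linear_combination h3)
  · intro j
    have h3 : Φ F x a (divX (c.NP (f1 c D j))) = 0 := h1 j
    have h4 := Φ_divX (F := F) x a (c.NP (f1 c D j))
    rw [h3, mul_zero, c.Φ_NP, c.Φ_NP, Φ_f1, Φ_f1, map_zero, zero_mul, add_zero] at h4
    rw [add_right_comm]
    exact (sub_eq_zero.1 h4.symm)
  · rw [add_sub_cancel_left]
    simp only [map_mul, c.com]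
    have h3 : ∀ y : F, c.ω * (algebraMap K F a * y) = algebraMap K F a * (c.ω * y) := fun y => by
      ring
    rw [h3, h3, c.T_smul, c.T_smul, hω]

end

end Pool.Agent.K7.H18.NG
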