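import Pool.Agent.K7.H18.NG.Geom2

/-!
# The second deformation
-/

set_option autoImplicit false

namespace Pool.Agent.K7.H18.NG

open Polynomial

section
variable {K F : Type} [Field K] [Field F] [Algebra K F] {m : ℕ} (c : Cyc K F m) {ι : Type}

theorem Φ_zero (x : ι → K) (p : (MvPolynomial ι F)[X]) :
    Φ F x (0 : K) p = MvPolynomial.eval (fun i => algebraMap K F (x i)) (p.coeff 0) := by
  unfold Φ
  rw [coe_eval₂RingHom, map_zero, eval₂_at_zero]

namespace Cyc

theorem NP1_coeff_one (g : MvPolynomial ι F) : (c.NP (1 + X * C g)).coeff 1 =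
    ∑ k ∈ Finset.range m, MvPolynomial.map (c.σ ^ k) g := by
  unfold NP
  rw [coeff_one_prod]
  refine Finset.sum_congr rfl fun k _ => ?_
  have h1 : (∏ r ∈ (Finset.range m).erase k,
      ((1 + X * C g : (MvPolynomial ι F)[X]).map (MvPolynomial.map (c.σ ^ r))).coeff 0) = 1 := by
    refine Finset.prod_eq_one fun r _ => ?_
    simp
  rw [h1, mul_one, coeff_map, coeff_add, coeff_one, if_neg one_ne_zero, zero_add, coeff_X_mul,
    coeff_C_zero]

theorem eval_NP1 (x : ι → K) (g : MvPolynomial ι F) :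
    MvPolynomial.eval (fun i => algebraMap K F (x i)) ((c.NP (1 + X * C g)).coeff 1) =
      c.T (MvPolynomial.eval (fun i => algebraMap K F (x i)) g) := by
  rw [NP1_coeff_one, map_sum]
  exact Finset.sum_congr rfl fun k _ => c.eval_conj k x g

theorem Λ_NP1 (z v : ι → K) (g : MvPolynomial ι F) :
    (Λ F z v ((c.NP (1 + X * C g)).coeff 1)).coeff 1 = c.T ((Λ F z v g).coeff 1) := by
  rw [NP1_coeff_one, map_sum, finsetSum_coeff]
  refine Finset.sum_congr rfl fun k _ => ?_
  rw [c.Λ_conj, coeff_map]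

theorem N_one : c.N 1 = 1 := by
  unfold N
  exact Finset.prod_eq_one fun k _ => map_one _

theorem dual2 {i j : ℕ} (hi : i < m) (hj : j < m) :
    c.T ((c.σ ^ j) c.ω * (c.σ ^ i) c.β) = if i = j then 1 else 0 := by
  rcases le_or_gt j i with h | h
  · obtain ⟨d, rfl⟩ : ∃ d, i = j + d := ⟨i - j, by omega⟩
    rw [c.pow_add_apply, ← map_mul, c.T_σ_pow, c.dual' d (by omega)]
    by_cases hd : d = 0
    · rw [if_pos hd, if_pos (by omega)]
    · rw [if_neg hd, if_neg (by omega)]
  · have h1 : (c.σ ^ i) c.β = (c.σ ^ j) ((c.σ ^ (i + m - j)) c.β) := by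
      rw [← c.pow_add_apply, show j + (i + m - j) = i + m by omega, c.pow_add_apply, c.pow_m_apply]
    rw [h1, ← map_mul, c.T_σ_pow, c.dual' _ (by omega), if_neg (by omega), if_neg (by omega)]

theorem T_mul_T (x y : F) : c.T (x * c.T y) = c.T x * c.T y := by
  obtain ⟨a, ha⟩ := c.fix _ (c.σ_T y)
  rw [← ha, mul_comm x, c.T_smul, mul_comm]

theorem Tω_Tβ (hm : 0 < m) : c.T c.ω * c.T c.β = 1 := by
  rw [← c.T_mul_T]
  conv_lhs => enter [2, 2]; unfold T
  rw [Finset.mul_sum, c.T_sum, Finset.sum_eq_single 0]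
  · rw [c.dual' 0 hm, if_pos rfl]
  · intro k hk h0
    rw [c.dual' k (Finset.mem_range.1 hk), if_neg h0]
  · intro h; exact absurd (Finset.mem_range.2 hm) h

theorem σω_ne (hm : 1 < m) : c.σ c.ω ≠ c.ω := by
  intro h
  obtain ⟨a, ha⟩ := c.fix _ h
  have h0 := c.dual' 0 (by omega)
  have h1 := c.dual' 1 hm
  rw [← ha, c.T_smul, c.T_σ_pow, if_pos rfl] at h0
  rw [← ha, c.T_smul, c.T_σ_pow, if_neg one_ne_zero, h0] at h1
  exact one_ne_zero h1

end Cyc

/-! the polynomials of the second stage -/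

/-- the index type -/
abbrev I2 (n : ℕ) : Type := Fin n ⊕ (Fin 2 ⊕ Fin n)

variable {n : ℕ} (d : Cyc K F (n + 1)) (τ : K) (β₂ : F)

/-- the element `η` -/
noncomputable def eta : MvPolynomial (I2 n) F :=
  MvPolynomial.C ((algebraMap K F τ + 1) * d.ω) +
    ∑ i : Fin n, MvPolynomial.X (Sum.inr (Sum.inr i)) * MvPolynomial.C ((d.σ ^ (i.val + 1)) d.ω)

/-- the element `β₂` -/
noncomputable def bb : MvPolynomial (I2 n) F :=
  MvPolynomial.C β₂ + MvPolynomial.X (Sum.inr (Sum.inl 0)) * MvPolynomial.C ((d.σ ^ n) d.β - d.β) +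
    MvPolynomial.X (Sum.inr (Sum.inl 1)) * MvPolynomial.C ((d.σ ^ (n - 1)) d.β - d.β)

/-- the equations -/
noncomputable def E2 : I2 n → (MvPolynomial (I2 n) F)[X]
  | Sum.inl j => d.NP (C (bb d β₂ + MvPolynomial.X (Sum.inl j))) -
      d.NP (C (MvPolynomial.C d.β + MvPolynomial.X (Sum.inl j)))
  | Sum.inr (Sum.inl i) => divX (d.NP (1 + X * C (eta d τ *
      MvPolynomial.map (d.σ ^ (i.val + 1)) (bb d β₂)))) - C (MvPolynomial.C (algebraMap K F τ))
  | Sum.inr (Sum.inr i) => divX (d.NP (1 + X * C (eta d τ *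
      MvPolynomial.C ((d.σ ^ (i.val + 1)) d.β)))) - C (MvPolynomial.C (algebraMap K F τ))

theorem E2_inv (k : I2 n) : (E2 d τ β₂ k).map (MvPolynomial.map d.σ) = E2 d τ β₂ k := by
  rcases k with j | i | i
  · unfold E2
    rw [Polynomial.map_sub, d.NP_inv, d.NP_inv]
  · unfold E2
    rw [Polynomial.map_sub, d.divX_inv _ (d.NP_inv _), Polynomial.map_C, MvPolynomial.map_C, d.com]
  · unfold E2
    rw [Polynomial.map_sub, d.divX_inv _ (d.NP_inv _), Polynomial.map_C, MvPolynomial.map_C, d.com]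

/-- the inequations -/
noncomputable def G2 : (Fin n × Fin n) ⊕ Fin 2 → (MvPolynomial (I2 n) F)[X]
  | Sum.inl (i, j) => if i = j then 1 else
      C (MvPolynomial.X (Sum.inl i) - MvPolynomial.X (Sum.inl j))
  | Sum.inr 0 => C (MvPolynomial.map d.σ (eta d τ) - eta d τ)
  | Sum.inr 1 => C (MvPolynomial.map d.σ (bb d β₂) - bb d β₂)

theorem G2_inl (i j : Fin n) : G2 d τ β₂ (Sum.inl (i, j)) = if i = j then 1 else
    C (MvPolynomial.X (Sum.inl i) - MvPolynomial.X (Sum.inl j)) := rfl

/-- the starting point -/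
def z2 (x0 : Fin n → K) (τ : K) : I2 n → K
  | Sum.inl j => x0 j
  | Sum.inr (Sum.inl _) => 0
  | Sum.inr (Sum.inr _) => τ

/-! evaluations -/

theorem eval_eta (x : I2 n → K) : MvPolynomial.eval (fun i => algebraMap K F (x i)) (eta d τ) =
    (algebraMap K F τ + 1) * d.ω +
      ∑ i : Fin n, algebraMap K F (x (Sum.inr (Sum.inr i))) * (d.σ ^ (i.val + 1)) d.ω := by
  unfold eta
  rw [map_add, map_sum, MvPolynomial.eval_C]
  congr 1
  refine Finset.sum_congr rfl fun i _ => ?_
  rw [map_mul, MvPolynomial.eval_X, MvPolynomial.eval_C]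

theorem eval_bb (x : I2 n → K) : MvPolynomial.eval (fun i => algebraMap K F (x i)) (bb d β₂) =
    β₂ + algebraMap K F (x (Sum.inr (Sum.inl 0))) * ((d.σ ^ n) d.β - d.β) +
      algebraMap K F (x (Sum.inr (Sum.inl 1))) * ((d.σ ^ (n - 1)) d.β - d.β) := by
  unfold bb
  rw [map_add, map_add, map_mul, map_mul, MvPolynomial.eval_C, MvPolynomial.eval_C,
    MvPolynomial.eval_C, MvPolynomial.eval_X, MvPolynomial.eval_X]

theorem eval_eta_z2 (x0 : Fin n → K) :
    MvPolynomial.eval (fun i => algebraMap K F (z2 x0 τ i)) (eta d τ) =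
      algebraMap K F τ * d.T d.ω + d.ω := by
  rw [eval_eta]
  unfold Cyc.T
  rw [Finset.sum_range_succ', mul_add, Finset.mul_sum, ← Fin.sum_univ_eq_sum_range
    (fun k => algebraMap K F τ * (d.σ ^ (k + 1)) d.ω) n]
  simp only [z2, pow_zero]
  have h1 : (1 : F →+* F) d.ω = d.ω := rfl
  rw [h1]
  ring

theorem eval_bb_z2 (x0 : Fin n → K) :
    MvPolynomial.eval (fun i => algebraMap K F (z2 x0 τ i)) (bb d β₂) = β₂ := by
  rw [eval_bb]
  simp only [z2, map_zero, zero_mul, add_zero]

theorem T_eta (y : F) :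
    d.T ((algebraMap K F τ * d.T d.ω + d.ω) * y) =
      algebraMap K F τ * (d.T d.ω * d.T y) + d.T (d.ω * y) := by
  rw [add_mul, d.T_add]
  congr 1
  have h1 : algebraMap K F τ * d.T d.ω * y = algebraMap K F τ * (y * d.T d.ω) := by ring
  rw [h1, d.T_smul, d.T_mul_T, mul_comm (d.T y)]

theorem Λ_eta_one (z v : I2 n → K) : (Λ F z v (eta d τ)).coeff 1 =
    ∑ i : Fin n, algebraMap K F (v (Sum.inr (Sum.inr i))) * (d.σ ^ (i.val + 1)) d.ω := by
  unfold eta Λ
  rw [map_add, map_sum, coeff_add, finsetSum_coeff, MvPolynomial.aeval_C, algebraMap_eq,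
    coeff_C_of_ne_zero one_ne_zero, zero_add]
  refine Finset.sum_congr rfl fun i _ => ?_
  rw [map_mul, MvPolynomial.aeval_C, MvPolynomial.aeval_X, algebraMap_eq, coeff_mul_C, coeff_add,
    coeff_C_of_ne_zero one_ne_zero, zero_add, coeff_C_mul_X, if_pos rfl]

theorem Λ_bb_one (z v : I2 n → K) : (Λ F z v (bb d β₂)).coeff 1 =
    algebraMap K F (v (Sum.inr (Sum.inl 0))) * ((d.σ ^ n) d.β - d.β) +
      algebraMap K F (v (Sum.inr (Sum.inl 1))) * ((d.σ ^ (n - 1)) d.β - d.β) := by
  unfold bb Λ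
  simp only [map_add, map_mul, MvPolynomial.aeval_C, MvPolynomial.aeval_X, algebraMap_eq,
    coeff_add, coeff_mul_C, coeff_C_of_ne_zero one_ne_zero, zero_add, coeff_C_mul_X, if_true]

theorem T_eta_lin (v : I2 n → K) (i : Fin n) :
    d.T ((∑ l : Fin n, algebraMap K F (v (Sum.inr (Sum.inr l))) * (d.σ ^ (l.val + 1)) d.ω) *
      (d.σ ^ (i.val + 1)) d.β) = algebraMap K F (v (Sum.inr (Sum.inr i))) := by
  rw [Finset.sum_mul, d.T_sum, Finset.sum_eq_single i]
  · rw [mul_assoc, d.T_smul, d.dual2 (by omega) (by omega), if_pos rfl, mul_one]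
  · intro l _ hl
    rw [mul_assoc, d.T_smul, d.dual2 (by omega) (by omega), if_neg (fun h => hl (Fin.ext (by omega))),
      mul_zero]
  · intro h; exact absurd (Finset.mem_univ i) h

/-- the difference of the two norm polynomials -/
noncomputable def UU : F[X] := ∏ k ∈ Finset.range (n + 1), (X + C ((d.σ ^ k) β₂)) -
  ∏ k ∈ Finset.range (n + 1), (X + C ((d.σ ^ k) d.β))

theorem UU_coeff_n : (UU d β₂).coeff n = d.T β₂ - d.T d.β := by
  have h : ∀ a : ℕ → F, (∏ k ∈ Finset.range (n + 1), (X + C (a k))).coeff n =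
      ∑ k ∈ Finset.range (n + 1), a k := by
    intro a
    have h1 := prod_X_sub_C_coeff_card_pred (Finset.range (n + 1)) (fun k => - a k) (by simp)
    rw [Finset.card_range, Nat.add_sub_cancel, Finset.sum_neg_distrib, neg_neg] at h1
    rw [← h1]
    congr 1
    refine Finset.prod_congr rfl fun k _ => ?_
    rw [C_neg, sub_neg_eq_add]
  unfold UU
  rw [coeff_sub, h, h]
  rfl

theorem UU_natDegree : (UU d β₂).natDegree ≤ n := by
  have h : ∀ a : ℕ → F, (∏ k ∈ Finset.range (n + 1), (X + C (a k))).Monic ∧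
      (∏ k ∈ Finset.range (n + 1), (X + C (a k))).natDegree = n + 1 := by
    intro a
    refine ⟨monic_prod_of_monic _ _ fun r _ => monic_X_add_C _, ?_⟩
    rw [natDegree_prod_of_monic _ _ fun r _ => monic_X_add_C _]
    rw [Finset.sum_congr rfl fun r _ => natDegree_X_add_C _]
    rw [Finset.sum_const, Finset.card_range]; simp
  obtain ⟨h1, h2⟩ := h (fun k => (d.σ ^ k) β₂)
  obtain ⟨h3, h4⟩ := h (fun k => (d.σ ^ k) d.β)
  beta_reduce at h1 h2 h3 h4
  rw [natDegree_le_iff_coeff_eq_zero]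
  intro N hN
  unfold UU
  rw [coeff_sub]
  rcases Nat.lt_or_ge (n + 1) N with h5 | h5
  · rw [coeff_eq_zero_of_natDegree_lt (by omega), coeff_eq_zero_of_natDegree_lt (by omega), sub_self]
  · have h6 : N = n + 1 := by omega
    subst h6
    have h7 := h1.coeff_natDegree
    have h8 := h3.coeff_natDegree
    rw [h2] at h7
    rw [h4] at h8
    rw [h7, h8, sub_self]

theorem UU_eval (y : K) : (UU d β₂).eval (algebraMap K F y) =
    d.N (β₂ + algebraMap K F y) - d.N (d.β + algebraMap K F y) := by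
  unfold UU Cyc.N
  rw [eval_sub, eval_prod, eval_prod]
  congr 1 <;>
  · refine Finset.prod_congr rfl fun k _ => ?_
    rw [eval_add, eval_X, eval_C, map_add, d.pow_com, add_comm]

open Classical in
theorem UU_eq (x0 : Fin n → K) (hx0 : Function.Injective x0)
    (hN : ∀ j, d.N (β₂ + algebraMap K F (x0 j)) = d.N (d.β + algebraMap K F (x0 j))) (hn : 0 < n) :
    UU d β₂ = C (d.T β₂ - d.T d.β) * (∏ j, (X - C (x0 j)) : K[X]).map (algebraMap K F) := by
  have hQdeg : (∏ j, (X - C (x0 j)) : K[X]).natDegree = n := by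
    rw [natDegree_finsetProd_X_sub_C_eq_card, Finset.card_univ, Fintype.card_fin]
  have hQmon : (∏ j, (X - C (x0 j)) : K[X]).Monic := monic_prod_of_monic _ _ fun j _ => monic_X_sub_C _
  rw [← sub_eq_zero]
  apply eq_zero_of_natDegree_lt_card_of_eval_eq_zero' _
    (Finset.univ.image fun j => algebraMap K F (x0 j))
  · intro y hy
    obtain ⟨j, -, rfl⟩ := Finset.mem_image.1 hy
    rw [eval_sub, UU_eval, hN, sub_self, eval_mul, eval_map_algebraMap, aeval_algebraMap_apply,
      map_prod, Finset.prod_eq_zero (Finset.mem_univ j) (by simp), map_zero, mul_zero, sub_self]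
  · have hinj : Function.Injective (fun j => algebraMap K F (x0 j)) :=
      (algebraMap K F).injective.comp hx0
    rw [Finset.card_image_of_injective _ hinj, Finset.card_univ, Fintype.card_fin]
    have h1 : (UU d β₂ - C (d.T β₂ - d.T d.β) *
        (∏ j, (X - C (x0 j)) : K[X]).map (algebraMap K F)).natDegree ≤ n := by
      refine (natDegree_sub_le _ _).trans (max_le (UU_natDegree d β₂) ?_)
      refine (natDegree_C_mul_le _ _).trans ?_
      rw [natDegree_map, hQdeg]
    have h2 : (UU d β₂ - C (d.T β₂ - d.T d.β) *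
        (∏ j, (X - C (x0 j)) : K[X]).map (algebraMap K F)).coeff n = 0 := by
      have h3 := hQmon.coeff_natDegree
      rw [hQdeg] at h3
      rw [coeff_sub, UU_coeff_n, coeff_C_mul, coeff_map, h3, map_one, mul_one, sub_self]
    rcases h1.lt_or_eq with h4 | h4
    · exact h4
    · exfalso
      have h5 : UU d β₂ - C (d.T β₂ - d.T d.β) *
          (∏ j, (X - C (x0 j)) : K[X]).map (algebraMap K F) = 0 := by
        rw [← leadingCoeff_eq_zero, leadingCoeff, h4]; exact h2
      rw [h5, natDegree_zero] at h4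
      omega

theorem Λ_C (z v : ι → K) (y : F) : Λ F z v (MvPolynomial.C y) = C y := by
  unfold Λ
  rw [MvPolynomial.aeval_C, algebraMap_eq]

theorem Λ_E3 (x0 : Fin n → K) (v : I2 n → K) (j : Fin n)
    (hbb : Λ F (z2 x0 τ) v (bb d β₂) = C β₂) :
    Λ F (z2 x0 τ) v ((E2 d τ β₂ (Sum.inl j)).coeff 0) =
      (UU d β₂).comp (C (algebraMap K F (x0 j)) + C (algebraMap K F (v (Sum.inl j))) * X) := by
  have hX : Λ F (z2 x0 τ) v (MvPolynomial.X (Sum.inl j)) =
      C (algebraMap K F (x0 j)) + C (algebraMap K F (v (Sum.inl j))) * X := by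
    unfold Λ
    rw [MvPolynomial.aeval_X]; rfl
  have h1 : ∀ (g : MvPolynomial (I2 n) F) (y : F), Λ F (z2 x0 τ) v g = C y →
      Λ F (z2 x0 τ) v ((d.NP (C (g + MvPolynomial.X (Sum.inl j)))).coeff 0) =
        (∏ k ∈ Finset.range (n + 1), (X + C ((d.σ ^ k) y))).comp
          (C (algebraMap K F (x0 j)) + C (algebraMap K F (v (Sum.inl j))) * X) := by
    intro g y hg
    unfold Cyc.NP
    rw [coeff_zero_prod, map_prod, prod_comp]
    refine Finset.prod_congr rfl fun k _ => ?_
    rw [coeff_map, coeff_C_zero, d.Λ_conj, map_add, hg, hX]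
    simp only [Polynomial.map_add, Polynomial.map_mul, Polynomial.map_C, Polynomial.map_X,
      d.pow_com, add_comp, X_comp, C_comp]
    ring
  unfold UU
  rw [sub_comp, ← h1 _ _ hbb, ← h1 (MvPolynomial.C d.β) d.β (by unfold Λ; rw [MvPolynomial.aeval_C, algebraMap_eq])]
  unfold E2
  rw [coeff_sub, map_sub]

theorem stage2 {n : ℕ} (d : Cyc K F (n + 1)) (hn : 3 ≤ n) (hK : PAC K) :
    ∃ (β₂ η ρ : F) (x : Fin n → K), Function.Injective x ∧ ρ ≠ 0 ∧ d.σ ρ = ρ ∧ d.σ β₂ ≠ β₂ ∧
      d.σ η ≠ η ∧ d.T β₂ ≠ d.T d.β ∧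
      (∀ j, d.N (β₂ + algebraMap K F (x j)) = d.N (d.β + algebraMap K F (x j))) ∧
      (∀ i < 2, d.N (1 + η * (d.σ ^ (i + 1)) β₂) = ρ) ∧
      (∀ i < n, d.N (1 + η * (d.σ ^ (i + 1)) d.β) = ρ) := by
  classical
  obtain ⟨β₂, x0, hx0, hσβ, hTβ, hN, hω⟩ := stage1 d hn hK
  -- the parameter τ
  have hTω : d.T d.ω * d.T d.β = 1 := d.Tω_Tβ (by omega)
  have hTω0 : d.T d.ω ≠ 0 := left_ne_zero_of_mul_eq_one hTω
  have hTD : d.T (β₂ - d.β) ≠ 0 := by rw [d.T_sub]; exact sub_ne_zero.2 hTβ
  let τ : K := - d.tr (d.ω * d.σ (β₂ - d.β)) / (d.tr d.ω * d.tr (β₂ - d.β))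
  have hτ : algebraMap K F τ * (d.T d.ω * d.T (β₂ - d.β)) = - d.T (d.ω * d.σ (β₂ - d.β)) := by
    show algebraMap K F (- d.tr (d.ω * d.σ (β₂ - d.β)) / (d.tr d.ω * d.tr (β₂ - d.β))) * _ = _
    rw [map_div₀, map_neg, map_mul, d.tr_eq, d.tr_eq, d.tr_eq]
    exact div_mul_cancel₀ _ (mul_ne_zero hTω0 hTD)
  have hσσ : ∀ y, d.σ (d.σ y) = (d.σ ^ 2) y := fun y => by rw [d.pow_succ_apply, pow_one]
  have hσ1 : ∀ y, d.σ y = (d.σ ^ 1) y := fun y => by rw [pow_one]
  -- values at the starting point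
  have hval1 : ∀ i < n, d.T ((algebraMap K F τ * d.T d.ω + d.ω) * (d.σ ^ (i + 1)) d.β) =
      algebraMap K F τ := by
    intro i hi
    rw [T_eta, d.T_σ_pow, hTω, d.dual' _ (by omega), if_neg (by omega), mul_one, add_zero]
  have hval2 : ∀ i < 2, d.T ((algebraMap K F τ * d.T d.ω + d.ω) * (d.σ ^ (i + 1)) β₂) =
      algebraMap K F τ := by
    intro i hi
    have h1 : (d.σ ^ (i + 1)) β₂ = (d.σ ^ (i + 1)) d.β + (d.σ ^ (i + 1)) (β₂ - d.β) := by
      rw [map_sub]; ring
    rw [h1, mul_add, d.T_add, hval1 i (by omega), T_eta, d.T_σ_pow, hτ]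
    have h2 : d.T (d.ω * (d.σ ^ (i + 1)) (β₂ - d.β)) = d.T (d.ω * d.σ (β₂ - d.β)) := by
      interval_cases i
      · rw [zero_add, pow_one]
      · rw [hω, hσσ]
    rw [h2]; ring
  have hlin : ∀ (p q : K) (A B A' B' : F), d.T (d.ω * (algebraMap K F p * (A - B) +
      algebraMap K F q * (A' - B'))) = algebraMap K F p * (d.T (d.ω * A) - d.T (d.ω * B)) +
        algebraMap K F q * (d.T (d.ω * A') - d.T (d.ω * B')) := by
    intro p q A B A' B'
    rw [show d.ω * (algebraMap K F p * (A - B) + algebraMap K F q * (A' - B')) =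
      algebraMap K F p * (d.ω * A - d.ω * B) + algebraMap K F q * (d.ω * A' - d.ω * B') by ring,
      d.T_add, d.T_smul, d.T_smul, d.T_sub, d.T_sub]
  have he : (X * (1 + C τ * X) : K[X]) ≠ 0 := by
    apply mul_ne_zero X_ne_zero
    intro h
    have h1 := congrArg (fun p => p.coeff 0) h
    simp at h1
  obtain ⟨a, x, ha, h1, h2⟩ := gtF d (by omega) hK (E2 d τ β₂) (E2_inv d τ β₂) (G2 d τ β₂)
    (z2 x0 τ)
    (by
      rintro (j | i | i)
      · unfold E2
        rw [← Φ_zero, map_sub, d.Φ_NP, d.Φ_NP, Φ_C, Φ_C, map_add, map_add, eval_bb_z2,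
          MvPolynomial.eval_X, MvPolynomial.eval_C]
        show d.N (β₂ + algebraMap K F (x0 j)) - d.N (d.β + algebraMap K F (x0 j)) = 0
        rw [hN, sub_self]
      · unfold E2
        rw [coeff_sub, coeff_divX, zero_add, coeff_C_zero, map_sub, d.eval_NP1, map_mul,
          d.eval_conj, eval_bb_z2, eval_eta_z2, hval2 i.val i.isLt, MvPolynomial.eval_C, sub_self]
      · unfold E2
        rw [coeff_sub, coeff_divX, zero_add, coeff_C_zero, map_sub, d.eval_NP1, map_mul,
          MvPolynomial.eval_C, eval_eta_z2, hval1 i.val i.isLt, MvPolynomial.eval_C, sub_self])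
    (by
      intro v hv
      have hv' : ∀ k, (Λ F (z2 x0 τ) v ((E2 d τ β₂ k).coeff 0)).coeff 1 = 0 := hv
      have hvh : ∀ i : Fin n, v (Sum.inr (Sum.inr i)) = 0 := by
        intro i
        have h3 := hv' (Sum.inr (Sum.inr i))
        unfold E2 at h3
        rw [coeff_sub, coeff_divX, zero_add, coeff_C_zero, map_sub, coeff_sub, d.Λ_NP1, map_mul,
          Λ_C, Λ_C, coeff_mul_C, coeff_C_of_ne_zero one_ne_zero, sub_zero, Λ_eta_one,
          T_eta_lin] at h3
        exact (map_eq_zero_iff _ (algebraMap K F).injective).1 h3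
      have heta1 : (Λ F (z2 x0 τ) v (eta d τ)).coeff 1 = 0 := by
        rw [Λ_eta_one]
        refine Finset.sum_eq_zero fun i _ => ?_
        rw [hvh, map_zero, zero_mul]
      have heta0 : (Λ F (z2 x0 τ) v (eta d τ)).coeff 0 = algebraMap K F τ * d.T d.ω + d.ω := by
        rw [Λ_coeff_zero, eval_eta_z2]
      have hvt0 : ∀ i : Fin 2, d.T (d.ω * (d.σ ^ (i.val + 1)) (
          algebraMap K F (v (Sum.inr (Sum.inl 0))) * ((d.σ ^ n) d.β - d.β) +
          algebraMap K F (v (Sum.inr (Sum.inl 1))) * ((d.σ ^ (n - 1)) d.β - d.β))) = 0 := by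
        intro i
        have h3 := hv' (Sum.inr (Sum.inl i))
        unfold E2 at h3
        rw [coeff_sub, coeff_divX, zero_add, coeff_C_zero, map_sub, coeff_sub, d.Λ_NP1, map_mul,
          Λ_C, coeff_C_of_ne_zero one_ne_zero, sub_zero, mul_coeff_one, heta1, zero_mul, add_zero,
          heta0, d.Λ_conj, coeff_map, Λ_bb_one, T_eta, d.T_σ_pow, d.T_add, d.T_smul, d.T_smul,
          d.T_sub, d.T_sub, d.T_σ_pow, d.T_σ_pow, sub_self, mul_zero, mul_zero, add_zero, mul_zero,
          mul_zero, zero_add] at h3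
        exact h3
      have e0 := d.dual' 0 (by omega)
      have e1 := d.dual' 1 (by omega)
      have e2 := d.dual' 2 (by omega)
      have en := d.dual' n (by omega)
      rw [if_pos rfl] at e0
      rw [if_neg (by omega)] at e1 e2 en
      have hvt : v (Sum.inr (Sum.inl 0)) = 0 := by
        have h3 := hvt0 0
        simp only [Fin.val_zero, zero_add, map_add, map_mul, map_sub, d.pow_com,
          ← d.pow_add_apply] at h3
        rw [hlin, show 1 + n = n + 1 + 0 by ring, d.pow_add_apply (n + 1), d.pow_m_apply,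
          show 1 + (n - 1) = n by omega, e0, e1, en] at h3
        simpa using h3
      have hvt' : v (Sum.inr (Sum.inl 1)) = 0 := by
        have h3 := hvt0 1
        simp only [Fin.val_one, map_add, map_mul, map_sub, d.pow_com,
          ← d.pow_add_apply] at h3
        rw [hlin, show 1 + 1 + n = n + 1 + 1 by ring, d.pow_add_apply (n + 1), d.pow_m_apply,
          show 1 + 1 + (n - 1) = n + 1 + 0 by omega, d.pow_add_apply (n + 1), d.pow_m_apply,
          show 1 + 1 = 2 from rfl, e0, e1, e2] at h3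
        simpa using h3
      have hbb : Λ F (z2 x0 τ) v (bb d β₂) = C β₂ := by
        unfold bb Λ
        simp only [map_add, map_mul, MvPolynomial.aeval_C, MvPolynomial.aeval_X, algebraMap_eq,
          hvt, hvt', z2, map_zero, zero_mul, add_zero]
      have hvx : ∀ j : Fin n, v (Sum.inl j) = 0 := by
        intro j
        have h3 := hv' (Sum.inl j)
        rw [Λ_E3 d τ β₂ x0 v j hbb, comp_line_coeff_one, UU_eq d β₂ x0 hx0 hN (by omega),
          derivative_C_mul, eval_mul, eval_C, derivative_map, eval_map_algebraMap,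
          aeval_algebraMap_apply, mul_eq_zero, mul_eq_zero] at h3
        rcases h3 with h3 | h3 | h3
        · exact (map_eq_zero_iff _ (algebraMap K F).injective).1 h3
        · exact absurd (sub_eq_zero.1 h3) hTβ
        · exact absurd ((map_eq_zero_iff _ (algebraMap K F).injective).1 h3)
            (eval_der_prod x0 hx0 j)
      funext k
      rcases k with j | i | i
      · exact hvx j
      · fin_cases i
        · exact hvt
        · exact hvt'
      · exact hvh i)
    (by
      rintro (⟨i, j⟩ | i)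
      · rw [G2_inl]
        split_ifs with hij
        · simp
        · rw [coeff_C_zero, map_sub, MvPolynomial.eval_X, MvPolynomial.eval_X, sub_ne_zero]
          exact fun h => hij (hx0 ((algebraMap K F).injective h))
      · have e3 : ∀ g : MvPolynomial (I2 n) F,
            MvPolynomial.eval (fun i => algebraMap K F (z2 x0 τ i)) (MvPolynomial.map d.σ g) =
            d.σ (MvPolynomial.eval (fun i => algebraMap K F (z2 x0 τ i)) g) := by
          intro g
          have := d.eval_conj 1 (z2 x0 τ) g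
          rwa [pow_one] at this
        fin_cases i
        · show MvPolynomial.eval (fun i => algebraMap K F (z2 x0 τ i))
            ((C (MvPolynomial.map d.σ (eta d τ) - eta d τ) : (MvPolynomial (I2 n) F)[X]).coeff 0) ≠ 0
          rw [coeff_C_zero, map_sub, e3, eval_eta_z2, map_add, map_mul, d.com, d.σ_T]
          intro h
          apply d.σω_ne (by omega)
          linear_combination h
        · show MvPolynomial.eval (fun i => algebraMap K F (z2 x0 τ i))
            ((C (MvPolynomial.map d.σ (bb d β₂) - bb d β₂) : (MvPolynomial (I2 n) F)[X]).coeff 0) ≠ 0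
          rw [coeff_C_zero, map_sub, e3, eval_bb_z2, sub_ne_zero]
          exact hσβ)
    (X * (1 + C τ * X)) he
  rw [eval_mul, eval_X, eval_add, eval_one, eval_mul, eval_C, eval_X] at ha
  have ha0 : a ≠ 0 := left_ne_zero_of_mul ha
  have ha1 : 1 + τ * a ≠ 0 := right_ne_zero_of_mul ha
  have haF : algebraMap K F a ≠ 0 := (_root_.map_ne_zero _).2 ha0
  have e3 : ∀ g : MvPolynomial (I2 n) F,
      MvPolynomial.eval (fun i => algebraMap K F (x i)) (MvPolynomial.map d.σ g) =
      d.σ (MvPolynomial.eval (fun i => algebraMap K F (x i)) g) := by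
    intro g
    have := d.eval_conj 1 x g
    rwa [pow_one] at this
  set b₂ : F := MvPolynomial.eval (fun i => algebraMap K F (x i)) (bb d β₂) with hb₂
  set η : F := MvPolynomial.eval (fun i => algebraMap K F (x i)) (eta d τ) with hη
  have hdiv : ∀ g : MvPolynomial (I2 n) F,
      Φ F x a (divX (d.NP (1 + X * C g)) - C (MvPolynomial.C (algebraMap K F τ))) = 0 →
      d.N (1 + algebraMap K F a * MvPolynomial.eval (fun i => algebraMap K F (x i)) g) =
        1 + algebraMap K F a * algebraMap K F τ := by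
    intro g hg
    rw [map_sub, Φ_C, MvPolynomial.eval_C, sub_eq_zero] at hg
    have h3 := Φ_divX (F := F) x a (d.NP (1 + X * C g))
    rw [hg, d.Φ_NP, d.Φ_NP, map_add, map_one, map_mul, Φ_X, Φ_C, map_add, map_one, map_mul, Φ_X,
      map_zero, zero_mul, add_zero, d.N_one] at h3
    rw [h3]; ring
  refine ⟨b₂, algebraMap K F a * η, 1 + algebraMap K F a * algebraMap K F τ,
    fun j => x (Sum.inl j), ?_, ?_, ?_, ?_, ?_, ?_, ?_, ?_, ?_⟩
  · intro i j hij
    by_contra hne
    have h3 := h2 (Sum.inl (i, j))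
    rw [G2_inl, if_neg hne, eval₂_C, map_sub, MvPolynomial.eval_X, MvPolynomial.eval_X] at h3
    apply h3
    rw [show x (Sum.inl i) = x (Sum.inl j) from hij, sub_self]
  · rw [← map_mul, ← map_one (algebraMap K F), ← map_add]
    apply (_root_.map_ne_zero _).2
    rwa [mul_comm a τ]
  · rw [map_add, map_one, map_mul, d.com, d.com]
  · have h3 := h2 (Sum.inr 1)
    have h4 : (G2 d τ β₂ (Sum.inr 1)).eval₂ (MvPolynomial.eval fun i => algebraMap K F (x i))
        (algebraMap K F a) = d.σ b₂ - b₂ := by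
      show (C (MvPolynomial.map d.σ (bb d β₂) - bb d β₂) : (MvPolynomial (I2 n) F)[X]).eval₂ _ _ = _
      rw [eval₂_C, map_sub, e3]
    rw [h4] at h3
    exact sub_ne_zero.1 h3
  · have h3 := h2 (Sum.inr 0)
    have h4 : (G2 d τ β₂ (Sum.inr 0)).eval₂ (MvPolynomial.eval fun i => algebraMap K F (x i))
        (algebraMap K F a) = d.σ η - η := by
      show (C (MvPolynomial.map d.σ (eta d τ) - eta d τ) : (MvPolynomial (I2 n) F)[X]).eval₂ _ _ = _
      rw [eval₂_C, map_sub, e3]
    rw [h4] at h3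
    rw [map_mul, d.com]
    intro h5
    exact (sub_ne_zero.1 h3) (mul_left_cancel₀ haF h5)
  · rw [hb₂, eval_bb, d.T_add, d.T_add, d.T_smul, d.T_smul, d.T_sub, d.T_sub, d.T_σ_pow,
      d.T_σ_pow, sub_self, mul_zero, mul_zero, add_zero, add_zero]
    exact hTβ
  · intro j
    have h3 := h1 (Sum.inl j)
    have h4 : Φ F x a (E2 d τ β₂ (Sum.inl j)) = 0 := h3
    unfold E2 at h4
    rw [map_sub, d.Φ_NP, d.Φ_NP, Φ_C, Φ_C, map_add, map_add, MvPolynomial.eval_X,
      MvPolynomial.eval_C, sub_eq_zero] at h4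
    exact h4
  · intro i hi
    have h3 := h1 (Sum.inr (Sum.inl ⟨i, hi⟩))
    have h4 : Φ F x a (E2 d τ β₂ (Sum.inr (Sum.inl ⟨i, hi⟩))) = 0 := h3
    unfold E2 at h4
    have h5 := hdiv _ h4
    rw [map_mul, d.eval_conj] at h5
    rw [mul_assoc]
    exact h5
  · intro i hi
    have h3 := h1 (Sum.inr (Sum.inr ⟨i, hi⟩))
    have h4 : Φ F x a (E2 d τ β₂ (Sum.inr (Sum.inr ⟨i, hi⟩))) = 0 := h3
    unfold E2 at h4
    have h5 := hdiv _ h4
    rw [map_mul, MvPolynomial.eval_C] at h5
    rw [mul_assoc]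
    exact h5

end

end Pool.Agent.K7.H18.NG
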