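import Mathlib

/-!
# Newton's method for systems of polynomial equations over the ring of power series
-/

set_option autoImplicit false

namespace Pool.Agent.K7.H18.NG

open MvPolynomial

section
variable {R ι : Type*} [CommRing R] [Fintype ι] [DecidableEq ι]

omit [Fintype ι] [DecidableEq ι] in
theorem eval_congr_ideal (I : Ideal R) (z w : ι → R) (h : ∀ j, z j - w j ∈ I)
    (P : MvPolynomial ι R) : eval z P - eval w P ∈ I := by
  induction P using MvPolynomial.induction_on with
  | C a => simp
  | add p q hp hq =>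
    have h1 := add_mem hp hq
    convert h1 using 1
    simp only [map_add]
    ring
  | mul_X p i hp =>
    rw [map_mul, map_mul, eval_X, eval_X]
    have h3 : eval z p * z i - eval w p * w i =
        (eval z p - eval w p) * z i + eval w p * (z i - w i) := by ring
    rw [h3]
    exact add_mem (Ideal.mul_mem_right _ _ hp) (Ideal.mul_mem_left _ _ (h i))

theorem taylor (I : Ideal R) (z δ : ι → R) (hδ : ∀ j, δ j ∈ I) (P : MvPolynomial ι R) :
    eval (fun j => z j + δ j) P - eval z P - ∑ j, eval z (pderiv j P) * δ j ∈ I ^ 2 := by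
  induction P using MvPolynomial.induction_on with
  | C a => simp
  | add p q hp hq =>
    have h := add_mem hp hq
    convert h using 1
    simp only [map_add, add_mul, Finset.sum_add_distrib]
    ring
  | mul_X p i hp =>
    set a := eval (fun j => z j + δ j) p with ha
    set b := eval z p with hb
    set s := ∑ j, eval z (pderiv j p) * δ j with hs
    have hs1 : s ∈ I := Ideal.sum_mem _ fun j _ => Ideal.mul_mem_left _ _ (hδ j)
    have h1 : ∑ j, eval z (pderiv j (p * X i)) * δ j = s * z i + b * δ i := by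
      have h2 : ∀ j, eval z (pderiv j (p * X i)) * δ j =
          (eval z (pderiv j p) * δ j) * z i + (if i = j then b * δ i else 0) := by
        intro j
        rw [pderiv_mul, map_add, map_mul, map_mul, eval_X]
        by_cases hij : i = j
        · subst hij
          rw [pderiv_X_self, map_one, if_pos rfl]
          ring
        · rw [if_neg hij, pderiv_X_of_ne hij, map_zero]
          ring
      simp_rw [h2]
      rw [Finset.sum_add_distrib, ← Finset.sum_mul, Finset.sum_ite_eq,
        if_pos (Finset.mem_univ i)]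
    rw [map_mul, map_mul, eval_X, eval_X, h1]
    have h3 : a * (z i + δ i) - b * z i - (s * z i + b * δ i) =
        (a - b - s) * (z i + δ i) + s * δ i := by ring
    rw [h3]
    refine add_mem (Ideal.mul_mem_right _ _ hp) ?_
    rw [sq]
    exact Ideal.mul_mem_mul hs1 (hδ i)

end

section
variable {K ι : Type*} [Field K] [Fintype ι] [DecidableEq ι]

open PowerSeries (constantCoeff)

theorem dvd_iff_mem (n : ℕ) (a : PowerSeries K) :
    (PowerSeries.X : PowerSeries K) ^ n ∣ a ↔ a ∈ Ideal.span {(PowerSeries.X : PowerSeries K) ^ n} :=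
  Ideal.mem_span_singleton.symm

/-- one step of Newton's method -/
theorem newton_step (P : ι → MvPolynomial ι (PowerSeries K)) (z0 : ι → K) (J L : Matrix ι ι K)
    (hJ : ∀ k j, constantCoeff (eval (fun i => PowerSeries.C (z0 i)) (pderiv j (P k))) = J k j)
    (hJL : J * L = 1) (n : ℕ) (z : ι → PowerSeries K) (hz0 : ∀ j, constantCoeff (z j) = z0 j)
    (hz : ∀ k, (PowerSeries.X : PowerSeries K) ^ (n + 1) ∣ eval z (P k)) :
    (∀ j, (PowerSeries.X : PowerSeries K) ^ (n + 1) ∣
      - ∑ k, PowerSeries.C (L j k) * eval z (P k)) ∧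
    ∀ k, (PowerSeries.X : PowerSeries K) ^ (n + 2) ∣
      eval (fun j => z j + - ∑ k, PowerSeries.C (L j k) * eval z (P k)) (P k) := by
  have h1 : ∀ j, (PowerSeries.X : PowerSeries K) ^ (n + 1) ∣
      - ∑ k, PowerSeries.C (L j k) * eval z (P k) := fun j =>
    (Finset.dvd_sum fun k _ => Dvd.dvd.mul_left (hz k) _).neg_right
  refine ⟨h1, fun k => ?_⟩
  set δ : ι → PowerSeries K := fun j => - ∑ k, PowerSeries.C (L j k) * eval z (P k) with hδ
  have h2 := taylor (Ideal.span {(PowerSeries.X : PowerSeries K) ^ (n + 1)}) z δ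
    (fun j => (dvd_iff_mem (n + 1) _).1 (h1 j)) (P k)
  rw [Ideal.span_singleton_pow, ← pow_mul, ← dvd_iff_mem] at h2
  have h3 : (PowerSeries.X : PowerSeries K) ^ (n + 2) ∣
      eval (fun j => z j + δ j) (P k) - eval z (P k) - ∑ j, eval z (pderiv j (P k)) * δ j :=
    (pow_dvd_pow _ (by omega)).trans h2
  -- the partial derivatives
  have h4 : ∀ j, (PowerSeries.X : PowerSeries K) ∣
      eval z (pderiv j (P k)) - PowerSeries.C (J k j) := by
    intro j
    rw [PowerSeries.X_dvd_iff, map_sub, ← hJ k j, PowerSeries.constantCoeff_C, sub_eq_zero]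
    have h5 := eval_congr_ideal (Ideal.span {(PowerSeries.X : PowerSeries K)}) z
      (fun i => PowerSeries.C (z0 i)) (fun i => by
        rw [Ideal.mem_span_singleton, PowerSeries.X_dvd_iff, map_sub, hz0,
          PowerSeries.constantCoeff_C, sub_self]) (pderiv j (P k))
    rw [Ideal.mem_span_singleton, PowerSeries.X_dvd_iff, map_sub, sub_eq_zero] at h5
    exact h5
  have h5 : (PowerSeries.X : PowerSeries K) ^ (n + 2) ∣
      ∑ j, (eval z (pderiv j (P k)) - PowerSeries.C (J k j)) * δ j := by
    refine Finset.dvd_sum fun j _ => ?_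
    have := mul_dvd_mul (h4 j) (h1 j)
    rwa [← pow_succ'] at this
  have h6 : ∑ j, PowerSeries.C (J k j) * δ j = - eval z (P k) := by
    have h7 : ∀ j, PowerSeries.C (J k j) * δ j =
        - ∑ l, PowerSeries.C (J k j * L j l) * eval z (P l) := by
      intro j
      rw [hδ, mul_neg, Finset.mul_sum]
      congr 1
      refine Finset.sum_congr rfl fun l _ => ?_
      rw [map_mul, mul_assoc]
    simp_rw [h7]
    rw [Finset.sum_neg_distrib, Finset.sum_comm]
    congr 1
    have h8 : ∀ l, ∑ j, PowerSeries.C (J k j * L j l) * eval z (P l) =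
        PowerSeries.C ((J * L) k l) * eval z (P l) := by
      intro l
      rw [← Finset.sum_mul, ← map_sum, Matrix.mul_apply]
    simp_rw [h8, hJL]
    rw [Finset.sum_eq_single k]
    · rw [Matrix.one_apply_eq, map_one, one_mul]
    · intro l _ hl
      rw [Matrix.one_apply_ne hl.symm, map_zero, zero_mul]
    · intro h
      exact absurd (Finset.mem_univ k) h
  have h7 : eval (fun j => z j + δ j) (P k) =
      (eval (fun j => z j + δ j) (P k) - eval z (P k) - ∑ j, eval z (pderiv j (P k)) * δ j) +
      ∑ j, (eval z (pderiv j (P k)) - PowerSeries.C (J k j)) * δ j := by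
    simp_rw [sub_mul]
    rw [Finset.sum_sub_distrib, h6]
    ring
  rw [h7]
  exact dvd_add h3 h5

/-- **Newton's method** -/
theorem newton (P : ι → MvPolynomial ι (PowerSeries K)) (z0 : ι → K)
    (h0 : ∀ k, constantCoeff (eval (fun i => PowerSeries.C (z0 i)) (P k)) = 0)
    (hJ : ∀ v : ι → K, (∀ k, ∑ j, constantCoeff
      (eval (fun i => PowerSeries.C (z0 i)) (pderiv j (P k))) * v j = 0) → v = 0) :
    ∃ z : ι → PowerSeries K, (∀ j, constantCoeff (z j) = z0 j) ∧ ∀ k, eval z (P k) = 0 := by
  classical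
  set J : Matrix ι ι K := Matrix.of fun k j =>
    constantCoeff (eval (fun i => PowerSeries.C (z0 i)) (pderiv j (P k))) with hJdef
  have hdet : IsUnit J.det := by
    rw [isUnit_iff_ne_zero]
    intro h
    obtain ⟨v, hv, hv'⟩ := Matrix.exists_mulVec_eq_zero_iff.2 h
    exact hv (hJ v fun k => congrFun hv' k)
  have hJL : J * J⁻¹ = 1 := Matrix.mul_nonsing_inv _ hdet
  let step : (ι → PowerSeries K) → (ι → PowerSeries K) := fun z j =>
    z j + - ∑ k, PowerSeries.C (J⁻¹ j k) * eval z (P k)
  let zs : ℕ → ι → PowerSeries K := fun n => Nat.rec (fun i => PowerSeries.C (z0 i)) (fun _ z => step z) n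
  have hzs : ∀ n, zs (n + 1) = step (zs n) := fun n => rfl
  have key : ∀ n, (∀ j, constantCoeff (zs n j) = z0 j) ∧
      ∀ k, (PowerSeries.X : PowerSeries K) ^ (n + 1) ∣ eval (zs n) (P k) := by
    intro n
    induction n with
    | zero =>
      refine ⟨fun j => PowerSeries.constantCoeff_C _, fun k => ?_⟩
      rw [zero_add, pow_one, PowerSeries.X_dvd_iff]
      exact h0 k
    | succ n ih =>
      obtain ⟨h1, h2⟩ := newton_step P z0 J J⁻¹ (fun k j => rfl) hJL n (zs n) ih.1 ih.2
      refine ⟨fun j => ?_, fun k => ?_⟩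
      · rw [hzs]
        show constantCoeff (zs n j + - ∑ k, PowerSeries.C (J⁻¹ j k) * eval (zs n) (P k)) = z0 j
        have h3 : (PowerSeries.X : PowerSeries K) ∣
            - ∑ k, PowerSeries.C (J⁻¹ j k) * eval (zs n) (P k) :=
          (dvd_pow_self _ (Nat.succ_ne_zero n)).trans (h1 j)
        rw [map_add, ih.1 j, PowerSeries.X_dvd_iff.1 h3, add_zero]
      · rw [hzs]
        exact h2 k
  have hdiff : ∀ n j, (PowerSeries.X : PowerSeries K) ^ (n + 1) ∣ zs (n + 1) j - zs n j := by
    intro n j
    obtain ⟨h1, -⟩ := newton_step P z0 J J⁻¹ (fun k j => rfl) hJL n (zs n) (key n).1 (key n).2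
    rw [hzs]
    have h3 : step (zs n) j - zs n j = - ∑ k, PowerSeries.C (J⁻¹ j k) * eval (zs n) (P k) := by
      show zs n j + - ∑ k, PowerSeries.C (J⁻¹ j k) * eval (zs n) (P k) - zs n j = _
      ring
    rw [h3]
    exact h1 j
  have hdiff' : ∀ m n j, m ≤ n → (PowerSeries.X : PowerSeries K) ^ (m + 1) ∣ zs n j - zs m j := by
    intro m n j hmn
    induction n, hmn using Nat.le_induction with
    | base => rw [sub_self]; exact dvd_zero _
    | succ n hmn ih =>
      have h3 : zs (n + 1) j - zs m j = (zs (n + 1) j - zs n j) + (zs n j - zs m j) := by ring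
      rw [h3]
      exact dvd_add ((pow_dvd_pow _ (by omega)).trans (hdiff n j)) ih
  let z : ι → PowerSeries K := fun j => PowerSeries.mk fun n => PowerSeries.coeff n (zs n j)
  have hz : ∀ n j, (PowerSeries.X : PowerSeries K) ^ (n + 1) ∣ z j - zs n j := by
    intro n j
    rw [PowerSeries.X_pow_dvd_iff]
    intro m hm
    have h3 := PowerSeries.X_pow_dvd_iff.1 (hdiff' m n j (by omega)) m (by omega)
    rw [map_sub] at h3 ⊢
    rw [PowerSeries.coeff_mk]
    rw [sub_eq_zero] at h3 ⊢
    exact h3.symm
  refine ⟨z, fun j => ?_, fun k => ?_⟩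
  · have h3 := hz 0 j
    rw [zero_add, pow_one, PowerSeries.X_dvd_iff, map_sub, sub_eq_zero] at h3
    rw [h3]
    exact (key 0).1 j
  · ext n
    have h3 := eval_congr_ideal (Ideal.span {(PowerSeries.X : PowerSeries K) ^ (n + 1)}) z (zs n)
      (fun j => (dvd_iff_mem _ _).1 (hz n j)) (P k)
    rw [← dvd_iff_mem] at h3
    have h4 := dvd_add h3 ((key n).2 k)
    rw [sub_add_cancel] at h4
    rw [PowerSeries.X_pow_dvd_iff.1 h4 n (by omega), map_zero]

end

end Pool.Agent.K7.H18.NG
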