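import Pool.Agent.K7.H18.NG.Ultra
import Pool.Agent.R410.PW.Weil

/-!
# Ultraproducts of finite fields are pseudo algebraically closed (plane curves)
-/

set_option autoImplicit false

namespace Pool.Agent.K7.H18.NG

open Polynomial Filter

theorem swap_coeff {R : Type*} [CommRing R] (f : R[X][X]) (i j : ℕ) :
    ((Bivariate.swap f).coeff j).coeff i = (f.coeff i).coeff j := by
  induction f using Polynomial.induction_on' with
  | add p q hp hq => simp only [map_add, coeff_add, hp, hq]
  | monomial n a =>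
    induction a using Polynomial.induction_on' with
    | add p q hp hq => simp only [map_add, coeff_add, hp, hq]
    | monomial m r =>
      rw [Bivariate.swap_monomial_monomial]
      simp only [coeff_monomial]
      split_ifs <;> simp_all [coeff_monomial]

theorem swap_natDegree_le {R : Type*} [CommRing R] (f : R[X][X]) (d : ℕ) :
    (Bivariate.swap f).natDegree ≤ d ↔ ∀ i, (f.coeff i).natDegree ≤ d := by
  constructor
  · intro h i
    rw [natDegree_le_iff_coeff_eq_zero]
    intro N hN
    rw [← swap_coeff, coeff_eq_zero_of_natDegree_lt (lt_of_le_of_lt h hN), coeff_zero]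
  · intro h
    rw [natDegree_le_iff_coeff_eq_zero]
    intro N hN
    ext i
    rw [swap_coeff, coeff_zero, coeff_eq_zero_of_natDegree_lt (lt_of_le_of_lt (h i) hN)]

theorem factor_coeff_natDegree_le {R : Type*} [CommRing R] [IsDomain R] {f g h : R[X][X]}
    (hf : f ≠ 0) (hgh : g * h = f) {d : ℕ} (hd : ∀ i, (f.coeff i).natDegree ≤ d) (i : ℕ) :
    (g.coeff i).natDegree ≤ d := by
  have hs : Bivariate.swap g * Bivariate.swap h = Bivariate.swap f := by rw [← map_mul, hgh]
  have hsf : Bivariate.swap f ≠ 0 := by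
    rwa [Ne, map_eq_zero_iff _ (Bivariate.swap (R := R)).injective]
  have hg0 : Bivariate.swap g ≠ 0 := by
    rintro h0; rw [h0, zero_mul] at hs; exact hsf hs.symm
  have hh0 : Bivariate.swap h ≠ 0 := by
    rintro h0; rw [h0, mul_zero] at hs; exact hsf hs.symm
  have h1 : (Bivariate.swap g).natDegree ≤ d := by
    have h2 := natDegree_mul hg0 hh0
    rw [hs] at h2
    have h3 := (swap_natDegree_le f d).2 hd
    omega
  exact (swap_natDegree_le g d).1 h1 i

/-- `K` has many points on the plane curves which stay irreducible over every field. -/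
def PAC (K : Type) [Field K] : Prop :=
  ∀ (f A B : K[X][X]) (D : K[X]), f.Monic → 0 < f.natDegree →
    A * f + B * derivative f = C D → D ≠ 0 →
    (∀ (Ω : Type) [Field Ω] [Algebra K Ω], Irreducible (f.map (mapRingHom (algebraMap K Ω)))) →
    ∀ E : K[X], E ≠ 0 → ∃ a b : K, evalEval a b f = 0 ∧ E.eval a ≠ 0

section
variable (U : Ultrafilter ℕ) (k : ℕ → Type) [∀ n, Field (k n)]

/-- a polynomial over the product with given projections -/
noncomputable def glue (N d : ℕ) (g : ∀ n, (k n)[X][X]) : (∀ n, k n)[X][X] :=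
  ∑ i ∈ Finset.range (N + 1), monomial i
    (∑ j ∈ Finset.range (d + 1), monomial j (fun n => ((g n).coeff i).coeff j))

theorem glue_coeff (N d : ℕ) (g : ∀ n, (k n)[X][X]) (i j : ℕ) (hi : i ≤ N) (hj : j ≤ d) (n : ℕ) :
    ((glue k N d g).coeff i).coeff j n = ((g n).coeff i).coeff j := by
  unfold glue
  rw [finsetSum_coeff, Finset.sum_eq_single i, coeff_monomial, if_pos rfl, finsetSum_coeff,
    Finset.sum_eq_single j, coeff_monomial, if_pos rfl]
  · intro b _ hb
    rw [coeff_monomial, if_neg hb]
  · intro h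
    exact absurd (Finset.mem_range.2 (by omega)) h
  · intro b _ hb
    rw [coeff_monomial, if_neg hb]
  · intro h
    exact absurd (Finset.mem_range.2 (by omega)) h

theorem glue_map (N d : ℕ) (g : ∀ n, (k n)[X][X]) (n : ℕ) (hN : (g n).natDegree ≤ N)
    (hd : ∀ i, ((g n).coeff i).natDegree ≤ d) :
    (glue k N d g).map (mapRingHom (pr k n)) = g n := by
  ext i j
  rw [coeff_map, coe_mapRingHom, coeff_map, pr_apply]
  by_cases hi : i ≤ N
  · by_cases hj : j ≤ d
    · exact glue_coeff k N d g i j hi hj n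
    · have h1 : ((glue k N d g).coeff i).coeff j = 0 := by
        unfold glue
        rw [finsetSum_coeff, Finset.sum_eq_single i, coeff_monomial, if_pos rfl, finsetSum_coeff]
        · refine Finset.sum_eq_zero fun b hb => ?_
          rw [Finset.mem_range] at hb
          rw [coeff_monomial, if_neg (by omega)]
        · intro b _ hb
          rw [coeff_monomial, if_neg hb]
        · intro h
          exact absurd (Finset.mem_range.2 (by omega)) h
      rw [h1, coeff_eq_zero_of_natDegree_lt (lt_of_le_of_lt (hd i) (by omega))]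
      rfl
  · have h1 : (glue k N d g).coeff i = 0 := by
      unfold glue
      rw [finsetSum_coeff]
      refine Finset.sum_eq_zero fun b hb => ?_
      rw [Finset.mem_range] at hb
      rw [coeff_monomial, if_neg (by omega)]
    rw [h1, coeff_eq_zero_of_natDegree_lt (lt_of_le_of_lt hN (by omega)), coeff_zero, coeff_zero]
    rfl

variable [∀ n, Finite (k n)]

omit [∀ n, Finite (k n)] in
/-- Almost all projections are absolutely irreducible. -/
theorem eventually_irreducible {f : (UP U k)[X][X]} (hn : 0 < f.natDegree)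
    (hirr : ∀ (Ω : Type) [Field Ω] [Algebra (UP U k) Ω],
      Irreducible (f.map (mapRingHom (algebraMap (UP U k) Ω))))
    {g : (∀ n, k n)[X][X]} (hg : g.Monic) (hgd : g.natDegree = f.natDegree)
    (hgf : g.map (mapRingHom (mk U k)) = f) :
    ∀ᶠ n in (U : Filter ℕ), Irreducible
      ((g.map (mapRingHom (pr k n))).map (mapRingHom (algebraMap (k n) (AlgebraicClosure (k n))))) := by
  classical
  by_contra hcon
  have hcon' := Ultrafilter.eventually_not.2 hcon
  let l : ℕ → Type := fun n => AlgebraicClosure (k n)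
  let φ : ∀ n, k n →+* l n := fun n => algebraMap (k n) (AlgebraicClosure (k n))
  let _ : Algebra (UP U k) (UP U l) := (upHom U φ).toAlgebra
  have halg : algebraMap (UP U k) (UP U l) = upHom U φ := rfl
  have hI := hirr (UP U l)
  set N := g.natDegree with hN
  -- the degree bound
  obtain ⟨d, hd⟩ : ∃ d, ∀ i, (g.coeff i).natDegree ≤ d := by
    refine ⟨(Bivariate.swap g).natDegree, (swap_natDegree_le g _).1 le_rfl⟩
  let F : ∀ n, (l n)[X][X] := fun n => (g.map (mapRingHom (pr k n))).map (mapRingHom (φ n))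
  have hFm : ∀ n, (F n).Monic := fun n => (hg.map _).map _
  have hFN : ∀ n, (F n).natDegree = N := by
    intro n
    show ((g.map (mapRingHom (pr k n))).map (mapRingHom (φ n))).natDegree = N
    rw [(hg.map _).natDegree_map, hg.natDegree_map]
  have hFd : ∀ n i, ((F n).coeff i).natDegree ≤ d := by
    intro n i
    show (((g.map (mapRingHom (pr k n))).map (mapRingHom (φ n))).coeff i).natDegree ≤ d
    rw [coeff_map, coeff_map, coe_mapRingHom, coe_mapRingHom]
    exact (natDegree_map_le).trans ((natDegree_map_le).trans (hd i))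
  have hF1 : ∀ n, F n ≠ 1 := by
    intro n h1
    have h2 := hFN n
    rw [h1, natDegree_one] at h2
    omega
  have hex : ∀ n, ¬ Irreducible (F n) → ∃ p q : (l n)[X][X], p.Monic ∧ q.Monic ∧ p * q = F n ∧
      p.natDegree ≠ 0 ∧ q.natDegree ≠ 0 := by
    intro n h
    rw [(hFm n).irreducible_iff_natDegree] at h
    push Not at h
    obtain ⟨p, q, h1, h2, h3, h4, h5⟩ := h (hF1 n)
    exact ⟨p, q, h1, h2, h3, h4, h5⟩
  have hex' : ∀ n, ∃ pq : (l n)[X][X] × (l n)[X][X], ¬ Irreducible (F n) →
      pq.1.Monic ∧ pq.2.Monic ∧ pq.1 * pq.2 = F n ∧ pq.1.natDegree ≠ 0 ∧ pq.2.natDegree ≠ 0 := by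
    intro n
    by_cases h : Irreducible (F n)
    · exact ⟨0, fun h' => absurd h h'⟩
    · obtain ⟨p, q, h1⟩ := hex n h
      exact ⟨(p, q), fun _ => h1⟩
  choose pq hpq using hex'
  have hbound : ∀ n, ¬ Irreducible (F n) → ((pq n).1.natDegree ≤ N ∧ (pq n).2.natDegree ≤ N) ∧
      (∀ i, ((pq n).1.coeff i).natDegree ≤ d) ∧ (∀ i, ((pq n).2.coeff i).natDegree ≤ d) := by
    intro n h
    obtain ⟨h1, h2, h3, -, -⟩ := hpq n h
    have h4 := h1.natDegree_mul h2
    rw [h3, hFN n] at h4
    refine ⟨⟨by omega, by omega⟩, ?_, ?_⟩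
    · exact factor_coeff_natDegree_le (hFm n).ne_zero h3 (hFd n)
    · exact factor_coeff_natDegree_le (hFm n).ne_zero ((mul_comm _ _).trans h3) (hFd n)
  let P : (∀ n, l n)[X][X] := glue l N d (fun n => (pq n).1)
  let Q : (∀ n, l n)[X][X] := glue l N d (fun n => (pq n).2)
  have hPn : ∀ n, ¬ Irreducible (F n) → P.map (mapRingHom (pr l n)) = (pq n).1 := fun n h =>
    glue_map l N d _ n (hbound n h).1.1 (hbound n h).2.1
  have hQn : ∀ n, ¬ Irreducible (F n) → Q.map (mapRingHom (pr l n)) = (pq n).2 := fun n h =>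
    glue_map l N d _ n (hbound n h).1.2 (hbound n h).2.2
  -- the polynomial `f` over the big field
  have hfmap : f.map (mapRingHom (algebraMap (UP U k) (UP U l))) =
      (g.map (mapRingHom (piHom φ))).map (mapRingHom (mk U l)) := by
    rw [← hgf, Polynomial.map_map, Polynomial.map_map, mapRingHom_comp, mapRingHom_comp]
    congr 2
  have hprod : P.map (mapRingHom (mk U l)) * Q.map (mapRingHom (mk U l)) =
      f.map (mapRingHom (algebraMap (UP U k) (UP U l))) := by
    rw [hfmap, ← Polynomial.map_mul]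
    ext i j
    rw [coeff_map, coeff_map, coe_mapRingHom, coeff_map, coeff_map, mk_eq_mk]
    filter_upwards [hcon'] with n hn
    have h1 : (P * Q).map (mapRingHom (pr l n)) =
        (g.map (mapRingHom (piHom φ))).map (mapRingHom (pr l n)) := by
      rw [Polynomial.map_mul, hPn n hn, hQn n hn, (hpq n hn).2.2.1, Polynomial.map_map,
        mapRingHom_comp]
      show (g.map (mapRingHom (pr k n))).map (mapRingHom (φ n)) = _
      rw [Polynomial.map_map, mapRingHom_comp]
      congr 2
    have h2 := congrArg (fun p => (p.coeff i).coeff j) h1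
    simpa only [coeff_map, coe_mapRingHom, pr_apply] using h2
  rw [← hprod] at hI
  have hunit := (irreducible_mul_iff.1 hI)
  have hnounit : ∀ (T : (∀ n, l n)[X][X]) (t : ∀ n, (l n)[X][X]),
      (∀ n, ¬ Irreducible (F n) → T.map (mapRingHom (pr l n)) = t n) →
      (∀ n, ¬ Irreducible (F n) → (t n).Monic ∧ (t n).natDegree ≠ 0 ∧ (t n).natDegree ≤ N) →
      ¬ IsUnit (T.map (mapRingHom (mk U l))) := by
    intro T t hT ht hu
    have h0 := natDegree_eq_zero_of_isUnit hu
    have h1 : ∀ i ∈ Finset.Icc 1 N, ∀ᶠ n in (U : Filter ℕ),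
        (T.coeff i).map (pr l n) = 0 := by
      intro i hi
      rw [Finset.mem_Icc] at hi
      apply poly_zero
      rw [← coe_mapRingHom, ← coeff_map]
      exact coeff_eq_zero_of_natDegree_lt (by omega)
    have h2 := (Filter.eventually_all_finset (Finset.Icc 1 N)).2 h1
    obtain ⟨n, hn1, hn2⟩ := (h2.and hcon').exists
    obtain ⟨h3, h4, h5⟩ := ht n hn2
    have h6 := hn1 (t n).natDegree (Finset.mem_Icc.2 ⟨by omega, h5⟩)
    have h7 : (t n).coeff (t n).natDegree = 0 := by
      rw [← hT n hn2, coeff_map, coe_mapRingHom, hT n hn2]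
      exact h6
    rw [h3.coeff_natDegree] at h7
    exact one_ne_zero h7
  rcases hunit with ⟨-, hu⟩ | ⟨-, hu⟩
  · exact hnounit Q (fun n => (pq n).2) hQn
      (fun n h => ⟨(hpq n h).2.1, (hpq n h).2.2.2.2, (hbound n h).1.2⟩) hu
  · exact hnounit P (fun n => (pq n).1) hPn
      (fun n h => ⟨(hpq n h).1, (hpq n h).2.2.2.1, (hbound n h).1.1⟩) hu

open Pool.Agent.R410.PW in
/-- An ultraproduct of finite fields whose sizes tend to infinity is pseudo algebraically closed. -/
theorem pac_ultra (hcard : ∀ M : ℕ, ∀ᶠ n in (U : Filter ℕ), M ≤ Nat.card (k n)) :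
    PAC (UP U k) := by
  classical
  intro f A B D hf hn hAB hD hirr E hE
  obtain ⟨g, hg, hgd, hgf⟩ := exists_monic_lift U k hf
  obtain ⟨A', hA'⟩ := exists_lift2 U k A
  obtain ⟨B', hB'⟩ := exists_lift2 U k B
  obtain ⟨D', hD'⟩ := exists_lift U k D
  obtain ⟨E', hE'⟩ := exists_lift U k E
  have h1 := eventually_irreducible U k hn hirr hg hgd hgf
  have h2 : ∀ᶠ n in (U : Filter ℕ),
      (A' * g + B' * derivative g - C D').map (mapRingHom (pr k n)) = 0 := by
    apply poly2_zero
    rw [Polynomial.map_sub, Polynomial.map_add, Polynomial.map_mul, Polynomial.map_mul,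
      ← derivative_map, hA', hB', hgf, Polynomial.map_C, coe_mapRingHom, hD', hAB, sub_self]
  have h3 : ∀ᶠ n in (U : Filter ℕ), D'.map (pr k n) ≠ 0 := poly_ne U k (by rw [hD']; exact hD)
  have h4 : ∀ᶠ n in (U : Filter ℕ), E'.map (pr k n) ≠ 0 := poly_ne U k (by rw [hE']; exact hE)
  obtain ⟨d, hd⟩ : ∃ d, ∀ i, (g.coeff i).natDegree ≤ d :=
    ⟨(Bivariate.swap g).natDegree, (swap_natDegree_le g _).1 le_rfl⟩
  set W := WC g.natDegree d D'.natDegree with hW
  set e := E'.natDegree with he
  obtain ⟨M, hM⟩ : ∃ M : ℕ, ((W : ℝ) + e * g.natDegree + 2) ^ 2 ≤ (M : ℝ) := exists_nat_ge _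
  have h5 := hcard M
  have hmain : ∀ᶠ n in (U : Filter ℕ), ∃ ab : k n × k n,
      evalEval ab.1 ab.2 (g.map (mapRingHom (pr k n))) = 0 ∧ (E'.map (pr k n)).eval ab.1 ≠ 0 := by
    filter_upwards [h1, h2, h3, h4, h5] with n h1 h2 h3 h4 h5
    set fn := g.map (mapRingHom (pr k n)) with hfn
    have hfnm : fn.Monic := hg.map _
    have hfnd : fn.natDegree = g.natDegree := hg.natDegree_map _
    have hcert : A'.map (mapRingHom (pr k n)) * fn + B'.map (mapRingHom (pr k n)) * derivative fn =
        C (D'.map (pr k n)) := by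
      have h6 := h2
      rw [Polynomial.map_sub, Polynomial.map_add, Polynomial.map_mul, Polynomial.map_mul,
        ← derivative_map, Polynomial.map_C, coe_mapRingHom, sub_eq_zero] at h6
      exact h6
    have hdn : ∀ i, (fn.coeff i).natDegree ≤ d := by
      intro i
      rw [hfn, coeff_map, coe_mapRingHom]
      exact natDegree_map_le.trans (hd i)
    have hw := weil (F := k n) (AlgebraicClosure (k n)) hfnm (by rw [hfnd, hgd]; exact hn) hcert h3
      (δ := D'.natDegree) natDegree_map_le hdn h1
    rw [hfnd, ← hW] at hw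
    by_contra hcon
    push Not at hcon
    -- few points
    have hfin : {z : k n × k n | evalEval z.1 z.2 fn = 0}.ncard ≤ e * g.natDegree := by
      have hsub : {z : k n × k n | evalEval z.1 z.2 fn = 0} ⊆
          ↑((E'.map (pr k n)).roots.toFinset.biUnion fun a =>
            ((fn.map (evalRingHom a)).roots.toFinset.image fun b => (a, b))) := by
        rintro ⟨a, b⟩ hab
        have h6 := hcon (a, b) hab
        simp only [Finset.coe_biUnion, Set.mem_iUnion, Finset.mem_coe, Multiset.mem_toFinset,
          Finset.mem_image]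
        refine ⟨a, ?_, b, ?_, rfl⟩
        · exact (mem_roots h4).2 h6
        · have h7 : fn.map (evalRingHom a) ≠ 0 := (hfnm.map _).ne_zero
          rw [mem_roots h7, IsRoot, map_evalRingHom_eval]
          exact hab
      refine (Set.ncard_le_ncard hsub (Finset.finite_toSet _)).trans ?_
      rw [Set.ncard_coe_finset]
      refine (Finset.card_biUnion_le_card_mul _ _ g.natDegree ?_).trans ?_
      · intro a _
        refine Finset.card_image_le.trans ((Multiset.toFinset_card_le _).trans ?_)
        refine (card_roots' _).trans ?_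
        rw [hfnm.natDegree_map, hfnd]
      · refine Nat.mul_le_mul_right _ ((Multiset.toFinset_card_le _).trans ?_)
        exact (card_roots' _).trans natDegree_map_le
    set q : ℝ := (Nat.card (k n) : ℝ) with hq
    have hq0 : 0 ≤ q := by positivity
    set s := √q with hs
    have hsq : s * s = q := Real.mul_self_sqrt hq0
    have hs0 : 0 ≤ s := Real.sqrt_nonneg _
    have hqM : ((W : ℝ) + e * g.natDegree + 2) ^ 2 ≤ q := by
      refine hM.trans ?_
      rw [hq]
      exact_mod_cast h5
    have hsbig : (W : ℝ) + e * g.natDegree + 2 ≤ s := by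
      rw [hs]
      exact Real.le_sqrt_of_sq_le hqM
    have hfin' : (({z : k n × k n | evalEval z.1 z.2 fn = 0}.ncard : ℕ) : ℝ) ≤ e * g.natDegree := by
      exact_mod_cast hfin
    have h8 := (abs_le.1 hw).1
    have h10 : (0 : ℝ) ≤ (e : ℝ) * g.natDegree := by positivity
    have h11 : (0 : ℝ) ≤ (W : ℝ) := by positivity
    nlinarith
  have hex : ∀ n, ∃ ab : k n × k n, (∃ ab : k n × k n,
      evalEval ab.1 ab.2 (g.map (mapRingHom (pr k n))) = 0 ∧ (E'.map (pr k n)).eval ab.1 ≠ 0) →
      evalEval ab.1 ab.2 (g.map (mapRingHom (pr k n))) = 0 ∧ (E'.map (pr k n)).eval ab.1 ≠ 0 := by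
    intro n
    by_cases h : ∃ ab : k n × k n, evalEval ab.1 ab.2 (g.map (mapRingHom (pr k n))) = 0 ∧
      (E'.map (pr k n)).eval ab.1 ≠ 0
    · exact ⟨h.choose, fun _ => h.choose_spec⟩
    · exact ⟨0, fun h' => absurd h' h⟩
  choose ab hab using hex
  refine ⟨mk U k fun n => (ab n).1, mk U k fun n => (ab n).2, ?_, ?_⟩
  · rw [← hgf, map_mapRingHom_evalEval, mk_eq_zero]
    filter_upwards [hmain] with n hn
    have h6 := (hab n hn).1
    rw [show (ab n).1 = pr k n (fun n => (ab n).1) from rfl,
      show (ab n).2 = pr k n (fun n => (ab n).2) from rfl, map_mapRingHom_evalEval] at h6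
    exact h6
  · rw [← hE', eval_map_apply, Ne, mk_eq_zero]
    intro h
    obtain ⟨n, h6, h7⟩ := (h.and hmain).exists
    apply (hab n h7).2
    have h8 : (E'.map (pr k n)).eval (pr k n (fun n => (ab n).1)) = 0 := by
      rw [eval_map_apply]
      exact h6
    exact h8

end

end Pool.Agent.K7.H18.NG
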