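import Pool.Agent.K7.H18.NG.Sep
import Pool.Agent.K7.H18.NG.Newton
import Pool.Agent.K7.H18.NG.Pac

/-!
# Deformation of nondegenerate solutions over pseudo algebraically closed fields
-/

set_option autoImplicit false

namespace Pool.Agent.K7.H18.NG

open Polynomial

/-! ### clearing denominators -/

section
variable {A Q : Type} [CommRing A] [IsDomain A] [Field Q] [Algebra A Q] [IsFractionRing A Q]

theorem clear (p : Q[X]) : ∃ (d : A) (q : A[X]), d ≠ 0 ∧
    q.map (algebraMap A Q) = C (algebraMap A Q d) * p := by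
  obtain ⟨b, hbM, hb⟩ := IsLocalization.integerNormalization_spec (nonZeroDivisors A) p
  refine ⟨b, IsLocalization.integerNormalization (nonZeroDivisors A) p,
    nonZeroDivisors.ne_zero hbM, ?_⟩
  rw [hb]
  ext i
  rw [coeff_C_mul, coeff_smul, Algebra.smul_def]

/-- A polynomial which is not divisible by the irreducible `f` is a unit modulo `f` up to
denominators. -/
theorem cert {f H : A[X]} (hf : f.Monic) (hirr : Irreducible (f.map (algebraMap A Q)))
    (hH : ¬ f ∣ H) : ∃ (u v : A[X]) (e : A), e ≠ 0 ∧ u * f + v * H = C e := by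
  have hinj : Function.Injective (algebraMap A Q) := IsFractionRing.injective A Q
  have h1 : ¬ f.map (algebraMap A Q) ∣ H.map (algebraMap A Q) := fun h =>
    hH ((Polynomial.map_dvd_map _ hinj hf).1 h)
  obtain ⟨a, b, hab⟩ := (dvd_or_isCoprime _ _ hirr).resolve_left h1
  obtain ⟨da, qa, hda, hqa⟩ := clear (A := A) a
  obtain ⟨db, qb, hdb, hqb⟩ := clear (A := A) b
  refine ⟨C db * qa, C da * qb, da * db, mul_ne_zero hda hdb, ?_⟩
  apply Polynomial.map_injective _ hinj
  rw [Polynomial.map_add, Polynomial.map_mul, Polynomial.map_mul, Polynomial.map_mul,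
    Polynomial.map_mul, hqa, hqb, Polynomial.map_C, Polynomial.map_C, Polynomial.map_C, map_mul, C_mul]
  linear_combination (C (algebraMap A Q da) * C (algebraMap A Q db)) * hab

end

/-! ### substitution of fractions -/

theorem subst_frac {K ι : Type} [Field K] (d : K[X]) (h : ι → K[X][X])
    (P : MvPolynomial ι K[X]) : ∃ (N : ℕ) (H : K[X][X]), ∀ (S : Type) [Field S] (θ : K[X][X] →+* S)
      (z : ι → S), (∀ j, θ (C d) * z j = θ (h j)) →
      θ (C d) ^ N * MvPolynomial.eval₂ (θ.comp C) z P = θ H := by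
  induction P using MvPolynomial.induction_on with
  | C a =>
    refine ⟨0, C a, fun S _ θ z _ => ?_⟩
    rw [MvPolynomial.eval₂_C, pow_zero, one_mul, RingHom.comp_apply]
  | add p q hp hq =>
    obtain ⟨N, H, h1⟩ := hp
    obtain ⟨M, G, h2⟩ := hq
    refine ⟨N + M, H * C d ^ M + G * C d ^ N, fun S _ θ z hz => ?_⟩
    rw [MvPolynomial.eval₂_add, map_add, map_mul, map_mul, map_pow, map_pow, ← h1 S θ z hz,
      ← h2 S θ z hz]
    ring
  | mul_X p i hp =>
    obtain ⟨N, H, h1⟩ := hp
    refine ⟨N + 1, H * h i, fun S _ θ z hz => ?_⟩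
    rw [MvPolynomial.eval₂_mul, MvPolynomial.eval₂_X, map_mul, ← h1 S θ z hz, ← hz i]
    ring

/-! ### specialization -/

section
variable {K : Type} [Field K]

/-- Specialization of algebraic power series. -/
theorem specialize (hK : PAC K) {ι κ μ : Type} [Fintype ι] [DecidableEq ι] [Fintype κ] [Fintype μ]
    (P : ι → MvPolynomial ι K[X]) (z : ι → PowerSeries K)
    (hz : ∀ k, MvPolynomial.aeval z (P k) = 0)
    (hdet : (Matrix.of fun k j => MvPolynomial.aeval z (MvPolynomial.pderiv j (P k))).det ≠ 0)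
    (G : κ → MvPolynomial ι K[X]) (hG : ∀ s, MvPolynomial.aeval z (G s) ≠ 0)
    (F : μ → MvPolynomial ι K[X]) (hF : ∀ s, MvPolynomial.aeval z (F s) = 0)
    (e : K[X]) (he : e ≠ 0) :
    ∃ (a : K) (x : ι → K), e.eval a ≠ 0 ∧
      (∀ s, MvPolynomial.eval₂ (evalRingHom a) x (F s) = 0) ∧
      ∀ s, MvPolynomial.eval₂ (evalRingHom a) x (G s) ≠ 0 := by
  classical
  let L := FractionRing (PowerSeries K)
  let Q := FractionRing K[X]
  have hinjL : Function.Injective (algebraMap K[X] L) := by
    rw [IsScalarTower.algebraMap_eq K[X] (PowerSeries K) L]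
    exact (IsFractionRing.injective (PowerSeries K) L).comp algMap_inj
  have _ : FaithfulSMul K[X] L := (faithfulSMul_iff_algebraMap_injective K[X] L).2 hinjL
  let _ : Algebra Q L := FractionRing.liftAlgebra K[X] L
  have _ : IsScalarTower K[X] Q L := FractionRing.isScalarTower_liftAlgebra K[X] L
  let zL : ι → L := fun j => algebraMap (PowerSeries K) L (z j)
  let PQ : ι → MvPolynomial ι Q := fun k => MvPolynomial.map (algebraMap K[X] Q) (P k)
  have hval : ∀ p : MvPolynomial ι K[X], MvPolynomial.aeval zL (MvPolynomial.map (algebraMap K[X] Q) p) =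
      algebraMap (PowerSeries K) L (MvPolynomial.aeval z p) := by
    intro p
    rw [MvPolynomial.aeval_map_algebraMap, ← MvPolynomial.aeval_algebraMap_apply]
    rfl
  obtain ⟨hfin, hsep⟩ := finite_separable PQ zL (fun k => by
      show MvPolynomial.aeval zL (MvPolynomial.map (algebraMap K[X] Q) (P k)) = 0
      rw [hval, hz k, map_zero]) (by
      have h1 : (Matrix.of fun k j => MvPolynomial.aeval zL (MvPolynomial.pderiv j (PQ k))) =
          (algebraMap (PowerSeries K) L).mapMatrix
            (Matrix.of fun k j => MvPolynomial.aeval z (MvPolynomial.pderiv j (P k))) := by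
        ext k j
        show MvPolynomial.aeval zL (MvPolynomial.pderiv j (MvPolynomial.map (algebraMap K[X] Q) (P k))) = _
        rw [MvPolynomial.pderiv_map, hval]
        rfl
      rw [h1, ← RingHom.map_det]
      exact (map_ne_zero_iff _ (IsFractionRing.injective (PowerSeries K) L)).2 hdet)
  set EE := IntermediateField.adjoin Q (Set.range zL) with hEE
  obtain ⟨α, hα⟩ := Field.exists_primitive_element Q EE
  -- an integral primitive element
  have halg : IsAlgebraic K[X] α := by
    have h1 : IsAlgebraic Q α := Algebra.IsAlgebraic.isAlgebraic α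
    exact (IsFractionRing.isAlgebraic_iff K[X] Q EE).2 h1
  obtain ⟨c, hc, hcα⟩ := halg.exists_integral_multiple
  obtain ⟨θ, hθ⟩ : ∃ θ : EE, θ = c • α := ⟨_, rfl⟩
  rw [← hθ] at hcα
  have hcQ : algebraMap K[X] Q c ≠ 0 := (map_ne_zero_iff _ (IsFractionRing.injective K[X] Q)).2 hc
  have hθtop : IntermediateField.adjoin Q {θ} = ⊤ := by
    rw [eq_top_iff, ← hα, IntermediateField.adjoin_simple_le_iff]
    have h1 : α = (algebraMap K[X] Q c)⁻¹ • θ := by
      rw [hθ, ← algebraMap_smul Q c α, smul_smul, inv_mul_cancel₀ hcQ, one_smul]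
    rw [h1]
    exact IntermediateField.smul_mem _ (IntermediateField.mem_adjoin_simple_self Q θ)
  have hθint : IsIntegral K[X] (θ : L) := by
    have h1 := hcα.map (EE.val.restrictScalars K[X])
    exact h1
  obtain ⟨y, hy⟩ : ∃ y : PowerSeries K, algebraMap (PowerSeries K) L y = (θ : L) :=
    IsIntegrallyClosed.isIntegral_iff.1 (hθint.tower_top (A := PowerSeries K))
  have hyint : IsIntegral K[X] y := by
    rw [← isIntegral_algebraMap_iff (IsFractionRing.injective (PowerSeries K) L), hy]
    exact hθint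
  set f := minpoly K[X] y with hf
  have hfm : f.Monic := minpoly.monic hyint
  have hf0 : 0 < f.natDegree := minpoly.natDegree_pos hyint
  have hfQ : f.map (algebraMap K[X] Q) = minpoly Q θ := by
    have h1 : minpoly Q (θ : L) = (minpoly K[X] (θ : L)).map (algebraMap K[X] Q) :=
      minpoly.isIntegrallyClosed_eq_field_fractions' Q hθint
    have h2 : minpoly K[X] (θ : L) = minpoly K[X] y := by
      rw [← hy]
      exact minpoly.algebraMap_eq (IsFractionRing.injective (PowerSeries K) L) y
    have h3 : minpoly Q (θ : L) = minpoly Q θ :=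
      minpoly.algebraMap_eq (algebraMap EE L).injective θ
    rw [← h3, h1, h2]
  have hirrQ : Irreducible (f.map (algebraMap K[X] Q)) := by
    rw [hfQ]
    exact minpoly.irreducible (Algebra.IsIntegral.isIntegral θ)
  have hsepQ : (f.map (algebraMap K[X] Q)).Separable := by
    rw [hfQ]
    exact Algebra.IsSeparable.isSeparable Q θ
  -- the certificate for the derivative
  have hder : ¬ f ∣ derivative f := by
    intro h
    have h1 : derivative f = 0 := by
      by_contra h2
      have h3 := natDegree_le_of_dvd h h2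
      have h4 := natDegree_derivative_lt (p := f) (by omega)
      omega
    have h2 : derivative (f.map (algebraMap K[X] Q)) = 0 := by
      rw [derivative_map, h1, Polynomial.map_zero]
    rw [Polynomial.separable_def, h2, isCoprime_zero_right] at hsepQ
    exact hirrQ.not_isUnit hsepQ
  obtain ⟨u, v, D, hD, huv⟩ := cert hfm hirrQ hder
  -- the elements `z j`
  have hzj : ∀ j, ∃ (d : K[X]) (q : K[X][X]), d ≠ 0 ∧
      eval₂ (algebraMap K[X] L) (θ : L) q = algebraMap K[X] L d * zL j := by
    intro j
    have h1 : zL j ∈ EE := IntermediateField.subset_adjoin Q _ ⟨j, rfl⟩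
    have h2 : (⟨zL j, h1⟩ : EE) ∈ IntermediateField.adjoin Q {θ} := by rw [hθtop]; trivial
    rw [← IntermediateField.mem_toSubalgebra,
      IntermediateField.adjoin_simple_toSubalgebra_of_isAlgebraic (Algebra.IsAlgebraic.isAlgebraic θ),
      Algebra.adjoin_singleton_eq_range_aeval] at h2
    obtain ⟨p, hp⟩ := h2
    obtain ⟨d, q, hd, hq⟩ := clear (A := K[X]) p
    refine ⟨d, q, hd, ?_⟩
    have h3 : aeval (θ : L) p = zL j := by
      have h4 : aeval (θ : L) p = algebraMap EE L (aeval θ p) := (aeval_algebraMap_apply L θ p)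
      rw [h4]
      have h5 : aeval θ p = (⟨zL j, h1⟩ : EE) := hp
      rw [h5]
      rfl
    rw [IsScalarTower.algebraMap_eq K[X] Q L, ← eval₂_map, hq, eval₂_mul, eval₂_C, ← aeval_def, h3]
    rfl
  choose dj qj hdj hqj using hzj
  set d : K[X] := ∏ j, dj j with hd
  have hd0 : d ≠ 0 := Finset.prod_ne_zero_iff.2 fun j _ => hdj j
  let h : ι → K[X][X] := fun j => C (∏ i ∈ Finset.univ.erase j, dj i) * qj j
  let θ1 : K[X][X] →+* L := eval₂RingHom (algebraMap K[X] L) (θ : L)
  have hθ1C : ∀ p : K[X], θ1 (C p) = algebraMap K[X] L p := fun p => eval₂_C _ _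
  have hrel1 : ∀ j, θ1 (C d) * zL j = θ1 (h j) := by
    intro j
    have h1 : θ1 (qj j) = algebraMap K[X] L (dj j) * zL j := hqj j
    have h2 : θ1 (h j) = algebraMap K[X] L (∏ i ∈ Finset.univ.erase j, dj i) * θ1 (qj j) := by
      show θ1 (C (∏ i ∈ Finset.univ.erase j, dj i) * qj j) = _
      rw [map_mul, hθ1C]
    rw [h2, h1, hθ1C, hd, ← Finset.mul_prod_erase Finset.univ dj (Finset.mem_univ j), map_mul]
    ring
  have hθ1comp : θ1.comp C = algebraMap K[X] L := by
    exact RingHom.ext hθ1C
  have hθ1f : ∀ H : K[X][X], θ1 H = 0 ↔ f ∣ H := by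
    intro H
    rw [← minpoly.isIntegrallyClosed_dvd_iff hyint H]
    have h1 : θ1 H = algebraMap (PowerSeries K) L (aeval y H) := by
      show eval₂ (algebraMap K[X] L) (θ : L) H = _
      rw [← aeval_def, ← hy, aeval_algebraMap_apply]
    rw [h1, map_eq_zero_iff _ (IsFractionRing.injective (PowerSeries K) L)]
  have hθ1d : θ1 (C d) ≠ 0 := by
    rw [hθ1C]
    exact (map_ne_zero_iff _ hinjL).2 hd0
  have hL : ∀ p : MvPolynomial ι K[X], MvPolynomial.eval₂ (θ1.comp C) zL p =
      algebraMap (PowerSeries K) L (MvPolynomial.aeval z p) := by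
    intro p
    rw [hθ1comp, ← MvPolynomial.aeval_algebraMap_apply]
    rfl
  -- the polynomials which should not vanish
  have hGs : ∀ s, ∃ (N : ℕ) (H : K[X][X]) (u v : K[X][X]) (e : K[X]), e ≠ 0 ∧
      u * f + v * H = C e ∧ ∀ (S : Type) [Field S] (θ : K[X][X] →+* S)
      (z : ι → S), (∀ j, θ (C d) * z j = θ (h j)) →
      θ (C d) ^ N * MvPolynomial.eval₂ (θ.comp C) z (G s) = θ H := by
    intro s
    obtain ⟨N, H, hH⟩ := subst_frac d h (G s)
    have h1 := hH L θ1 zL hrel1
    have h2 : ¬ f ∣ H := by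
      rw [← hθ1f, ← h1, hL]
      exact mul_ne_zero (pow_ne_zero _ hθ1d)
        ((map_ne_zero_iff _ (IsFractionRing.injective (PowerSeries K) L)).2 (hG s))
    obtain ⟨u, v, e, he, huv⟩ := cert hfm hirrQ h2
    exact ⟨N, H, u, v, e, he, huv, hH⟩
  choose NG HG uG vG eG heG huvG hHG using hGs
  -- the point
  obtain ⟨a, b, hab, hae⟩ := hK f u v D hfm hf0 huv hD (fun Om _ _ => irreducible_ext hyint Om)
    (e * d * ∏ s, eG s) (mul_ne_zero (mul_ne_zero he hd0) (Finset.prod_ne_zero_iff.2 fun s _ => heG s))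
  rw [eval_mul, eval_mul] at hae
  have hae1 : e.eval a ≠ 0 := fun h => hae (by rw [h, zero_mul, zero_mul])
  have had : d.eval a ≠ 0 := fun h => hae (by rw [h, mul_zero, zero_mul])
  have haG : ∀ s, (eG s).eval a ≠ 0 := fun s h => hae (by
    have h1 : eval a (∏ s, eG s) = 0 := by
      rw [eval_prod]
      exact Finset.prod_eq_zero (Finset.mem_univ s) h
    rw [h1, mul_zero])
  let θ2 : K[X][X] →+* K := evalEvalRingHom a b
  have hθ2C : ∀ p : K[X], θ2 (C p) = p.eval a := fun p => evalEval_C a b p
  have hθ2comp : θ2.comp C = evalRingHom a := by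
    exact RingHom.ext hθ2C
  have hθ2f : θ2 f = 0 := hab
  let x : ι → K := fun j => θ2 (h j) / d.eval a
  have hrel2 : ∀ j, θ2 (C d) * x j = θ2 (h j) := by
    intro j
    rw [hθ2C]
    show d.eval a * (θ2 (h j) / d.eval a) = _
    field_simp
  refine ⟨a, x, hae1, fun s => ?_, fun s => ?_⟩
  · obtain ⟨N, H, hH⟩ := subst_frac d h (F s)
    have h1 := hH L θ1 zL hrel1
    rw [hL, hF s, map_zero, mul_zero] at h1
    obtain ⟨H', hH'⟩ := (hθ1f H).1 h1.symm
    have h2 := hH K θ2 x hrel2
    rw [hH', map_mul, hθ2f, zero_mul, hθ2comp, hθ2C] at h2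
    exact (mul_eq_zero.1 h2).resolve_left (pow_ne_zero _ had)
  · intro h0
    have h2 := hHG s K θ2 x hrel2
    rw [hθ2comp, h0, mul_zero] at h2
    have h3 := congrArg θ2 (huvG s)
    rw [map_add, map_mul, map_mul, hθ2f, ← h2, mul_zero, mul_zero, add_zero, hθ2C] at h3
    exact haG s h3.symm

/-! ### systems depending on a parameter -/

/-- polynomials in the parameter as polynomials with coefficients depending on the parameter -/
noncomputable def toMv {ι : Type} : (MvPolynomial ι K)[X] →+* MvPolynomial ι K[X] :=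
  eval₂RingHom (MvPolynomial.map C) (MvPolynomial.C X)

theorem toMv_eval {ι S : Type} [CommRing S] (φ : K[X] →+* S) (z : ι → S)
    (E : (MvPolynomial ι K)[X]) : MvPolynomial.eval₂ φ z (toMv E) =
      E.eval₂ (MvPolynomial.eval₂Hom (φ.comp C) z) (φ X) := by
  have h : (MvPolynomial.eval₂Hom φ z).comp (toMv (K := K) (ι := ι)) =
      eval₂RingHom (MvPolynomial.eval₂Hom (φ.comp C) z) (φ X) := by
    apply Polynomial.ringHom_ext
    · intro p
      rw [RingHom.comp_apply, coe_eval₂RingHom, eval₂_C, toMv, coe_eval₂RingHom, eval₂_C,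
        MvPolynomial.coe_eval₂Hom, MvPolynomial.eval₂_map]
      rfl
    · rw [RingHom.comp_apply, coe_eval₂RingHom, eval₂_X, toMv, coe_eval₂RingHom, eval₂_X,
        MvPolynomial.coe_eval₂Hom, MvPolynomial.eval₂_C]
  exact congrArg (fun g => g E) h

theorem toMv_zero {ι : Type} (E : (MvPolynomial ι K)[X]) :
    MvPolynomial.map (evalRingHom (0 : K)) (toMv E) = E.coeff 0 := by
  have h : (MvPolynomial.map (evalRingHom (0 : K))).comp (toMv (K := K) (ι := ι)) =
      (Polynomial.constantCoeff : (MvPolynomial ι K)[X] →+* MvPolynomial ι K) := by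
    apply Polynomial.ringHom_ext
    · intro p
      rw [RingHom.comp_apply, toMv, coe_eval₂RingHom, eval₂_C, MvPolynomial.map_map,
        constantCoeff_apply, coeff_C_zero]
      have h1 : (evalRingHom (0 : K)).comp C = RingHom.id K := by
        ext a
        simp
      rw [h1, MvPolynomial.map_id]
    · rw [RingHom.comp_apply, toMv, coe_eval₂RingHom, eval₂_X, constantCoeff_apply, coeff_X_zero]
      simp
  exact congrArg (fun g => g E) h

theorem const_aeval {ι : Type} (z : ι → PowerSeries K) (z0 : ι → K)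
    (hz : ∀ j, PowerSeries.constantCoeff (z j) = z0 j) (p : MvPolynomial ι K[X]) :
    PowerSeries.constantCoeff (MvPolynomial.aeval z p) =
      MvPolynomial.eval z0 (MvPolynomial.map (evalRingHom (0 : K)) p) := by
  induction p using MvPolynomial.induction_on with
  | C a =>
    rw [MvPolynomial.algHom_C, MvPolynomial.map_C, MvPolynomial.eval_C, algMap_eq,
      coe_evalRingHom, ← coeff_zero_eq_eval_zero, ← PowerSeries.coeff_zero_eq_constantCoeff_apply,
      Polynomial.coeff_coe]
  | add p q hp hq => rw [map_add, map_add, map_add, map_add, hp, hq]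
  | mul_X p i hp =>
    rw [map_mul, map_mul, map_mul, map_mul, hp, MvPolynomial.aeval_X, MvPolynomial.map_X,
      MvPolynomial.eval_X, hz]

/-- **Deformation.** Over a pseudo algebraically closed field a nondegenerate solution of a system
for the value `0` of the parameter implies solutions for many other values of the parameter. -/
theorem gt (hK : PAC K) {ι κ : Type} [Fintype ι] [DecidableEq ι] [Fintype κ]
    (E : ι → (MvPolynomial ι K)[X]) (G : κ → (MvPolynomial ι K)[X]) (z0 : ι → K)
    (h0 : ∀ k, MvPolynomial.eval z0 ((E k).coeff 0) = 0)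
    (hJ : ∀ v : ι → K, (∀ k, ∑ j, MvPolynomial.eval z0 (MvPolynomial.pderiv j ((E k).coeff 0)) *
      v j = 0) → v = 0)
    (hG : ∀ s, MvPolynomial.eval z0 ((G s).coeff 0) ≠ 0) (e : K[X]) (he : e ≠ 0) :
    ∃ (a : K) (x : ι → K), e.eval a ≠ 0 ∧
      (∀ k, (E k).eval₂ (MvPolynomial.eval x) a = 0) ∧
      ∀ s, (G s).eval₂ (MvPolynomial.eval x) a ≠ 0 := by
  classical
  let P : ι → MvPolynomial ι (PowerSeries K) := fun k =>
    MvPolynomial.map (algebraMap K[X] (PowerSeries K)) (toMv (E k))
  have hPe : ∀ (z : ι → PowerSeries K) (p : MvPolynomial ι K[X]),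
      MvPolynomial.eval z (MvPolynomial.map (algebraMap K[X] (PowerSeries K)) p) =
        MvPolynomial.aeval z p := by
    intro z p
    rw [MvPolynomial.eval_map]
    rfl
  have hC : ∀ j, PowerSeries.constantCoeff ((fun i => PowerSeries.C (z0 i)) j) = z0 j := fun j =>
    PowerSeries.constantCoeff_C _
  have hpd : ∀ k j, MvPolynomial.map (evalRingHom (0 : K)) (MvPolynomial.pderiv j (toMv (E k))) =
      MvPolynomial.pderiv j ((E k).coeff 0) := by
    intro k j
    rw [← MvPolynomial.pderiv_map, toMv_zero]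
  obtain ⟨z, hz0, hz⟩ := newton P z0 (fun k => by
      show PowerSeries.constantCoeff (MvPolynomial.eval (fun i => PowerSeries.C (z0 i))
        (MvPolynomial.map (algebraMap K[X] (PowerSeries K)) (toMv (E k)))) = 0
      rw [hPe, const_aeval _ z0 hC, toMv_zero, h0 k]) (fun v hv => by
      apply hJ v
      intro k
      rw [← hv k]
      refine Finset.sum_congr rfl fun j _ => ?_
      congr 1
      show _ = PowerSeries.constantCoeff (MvPolynomial.eval (fun i => PowerSeries.C (z0 i))
        (MvPolynomial.pderiv j (MvPolynomial.map (algebraMap K[X] (PowerSeries K)) (toMv (E k)))))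
      rw [MvPolynomial.pderiv_map, hPe, const_aeval _ z0 hC, hpd])
  have hz' : ∀ k, MvPolynomial.aeval z (toMv (E k)) = 0 := by
    intro k
    rw [← hPe]
    exact hz k
  have hdet : (Matrix.of fun k j =>
      MvPolynomial.aeval z (MvPolynomial.pderiv j (toMv (E k)))).det ≠ 0 := by
    intro h
    have h1 : (Matrix.of fun k j => MvPolynomial.eval z0
        (MvPolynomial.pderiv j ((E k).coeff 0))).det = 0 := by
      have h2 := congrArg (PowerSeries.constantCoeff (R := K)) h
      rw [RingHom.map_det, map_zero] at h2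
      rw [← h2]
      congr 1
      ext k j
      show _ = PowerSeries.constantCoeff (MvPolynomial.aeval z (MvPolynomial.pderiv j (toMv (E k))))
      rw [const_aeval z z0 hz0, hpd]
      rfl
    obtain ⟨v, hv, hv'⟩ := Matrix.exists_mulVec_eq_zero_iff.2 h1
    exact hv (hJ v fun k => congrFun hv' k)
  obtain ⟨a, x, h1, h2, h3⟩ := specialize hK (fun k => toMv (E k)) z hz' hdet
    (fun s => toMv (G s)) (fun s h => by
      have h4 := const_aeval z z0 hz0 (toMv (G s))
      rw [h, map_zero, toMv_zero] at h4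
      exact hG s h4.symm) (fun k => toMv (E k)) hz' e he
  have hid : (evalRingHom a).comp C = RingHom.id K := by
    ext b
    simp
  have hev : ∀ F : (MvPolynomial ι K)[X], MvPolynomial.eval₂ (evalRingHom a) x (toMv F) =
      F.eval₂ (MvPolynomial.eval x) a := by
    intro F
    rw [toMv_eval, hid, coe_evalRingHom, eval_X]
    rfl
  refine ⟨a, x, h1, fun k => ?_, fun s => ?_⟩
  · rw [← hev]
    exact h2 k
  · rw [← hev]
    exact h3 s

end

end Pool.Agent.K7.H18.NG
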