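import Pool.Agent.K7.H18.NG.Gt

/-!
# Deformation of systems with coefficients in a cyclic extension
-/

set_option autoImplicit false

namespace Pool.Agent.K7.H18.NG

open Polynomial

/-- Data for a cyclic extension `F / K` of degree `m`: a homomorphism `σ : F → F` with `σ ^ m = 1`
and fixed field `K`, an element `β` and an element `ω` with `Tr (ω σ^i β) = δ_{i0}`. -/
structure Cyc (K F : Type) [Field K] [Field F] [Algebra K F] (m : ℕ) where
  σ : F →+* F
  fix : ∀ x, σ x = x → ∃ a : K, algebraMap K F a = x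
  com : ∀ a : K, σ (algebraMap K F a) = algebraMap K F a
  pow : σ ^ m = 1
  β : F
  ω : F
  dual : ∀ i < m, ∑ k ∈ Finset.range m, (σ ^ k) (ω * (σ ^ i) β) = if i = 0 then 1 else 0

section
variable {K F : Type} [Field K] [Field F] [Algebra K F] {m : ℕ} (c : Cyc K F m)

namespace Cyc

theorem pow_com (k : ℕ) (a : K) : (c.σ ^ k) (algebraMap K F a) = algebraMap K F a := by
  induction k with
  | zero => rw [pow_zero]; rfl
  | succ k ih => rw [pow_succ, RingHom.mul_def, RingHom.comp_apply, c.com, ih]

theorem pow_succ_apply (k : ℕ) (x : F) : (c.σ ^ (k + 1)) x = c.σ ((c.σ ^ k) x) := by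
  rw [pow_succ', RingHom.mul_def, RingHom.comp_apply]

theorem pow_add_apply (k l : ℕ) (x : F) : (c.σ ^ (k + l)) x = (c.σ ^ k) ((c.σ ^ l) x) := by
  rw [pow_add, RingHom.mul_def, RingHom.comp_apply]

theorem pow_m_apply (x : F) : (c.σ ^ m) x = x := by
  rw [c.pow]; rfl

/-- rotation of sums -/
theorem sum_shift {M : Type} [AddCommMonoid M] (m : ℕ) (f : ℕ → M) (h : f m = f 0) :
    ∑ k ∈ Finset.range m, f (k + 1) = ∑ k ∈ Finset.range m, f k := by
  have h1 := Finset.sum_range_succ f m
  have h2 := Finset.sum_range_succ' f m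
  rcases Nat.eq_zero_or_pos m with h0 | h0
  · subst h0; simp
  · obtain ⟨n, rfl⟩ : ∃ n, m = n + 1 := ⟨m - 1, by omega⟩
    rw [Finset.sum_range_succ (fun k => f (k + 1)) n, h, Finset.sum_range_succ' f n]

theorem prod_shift {M : Type} [CommMonoid M] (m : ℕ) (f : ℕ → M) (h : f m = f 0) :
    ∏ k ∈ Finset.range m, f (k + 1) = ∏ k ∈ Finset.range m, f k := by
  rcases Nat.eq_zero_or_pos m with h0 | h0
  · subst h0; simp
  · obtain ⟨n, rfl⟩ : ∃ n, m = n + 1 := ⟨m - 1, by omega⟩
    rw [Finset.prod_range_succ (fun k => f (k + 1)) n, h, Finset.prod_range_succ' f n]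

/-- the norm -/
def N (x : F) : F := ∏ k ∈ Finset.range m, (c.σ ^ k) x

/-- the trace -/
def T (x : F) : F := ∑ k ∈ Finset.range m, (c.σ ^ k) x

theorem N_mul (x y : F) : c.N (x * y) = c.N x * c.N y := by
  unfold N
  rw [← Finset.prod_mul_distrib]
  refine Finset.prod_congr rfl fun k _ => map_mul _ _ _

theorem N_σ (x : F) : c.N (c.σ x) = c.N x := by
  unfold N
  rw [← prod_shift m (fun k => (c.σ ^ k) x) (by
    show (c.σ ^ m) x = (c.σ ^ 0) x
    rw [c.pow_m_apply, pow_zero]; rfl)]
  refine Finset.prod_congr rfl fun k _ => ?_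
  rw [pow_succ, RingHom.mul_def, RingHom.comp_apply]

theorem N_σ_pow (i : ℕ) (x : F) : c.N ((c.σ ^ i) x) = c.N x := by
  induction i with
  | zero => rw [pow_zero]; rfl
  | succ i ih => rw [c.pow_succ_apply, c.N_σ, ih]

theorem σ_N (x : F) : c.σ (c.N x) = c.N x := by
  rw [← c.N_σ x]
  unfold N
  rw [map_prod, ← prod_shift m (fun k => (c.σ ^ k) (c.σ x)) (by
    show (c.σ ^ m) (c.σ x) = (c.σ ^ 0) (c.σ x)
    rw [c.pow_m_apply, pow_zero]; rfl)]
  have h1 : ∀ k ∈ Finset.range m, c.σ ((c.σ ^ k) x) = (c.σ ^ k) (c.σ x) := by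
    intro k _
    rw [← c.pow_succ_apply, pow_succ, RingHom.mul_def, RingHom.comp_apply]
  have h2 : ∀ k ∈ Finset.range m, (c.σ ^ (k + 1)) (c.σ x) = c.σ ((c.σ ^ k) (c.σ x)) := by
    intro k _
    rw [c.pow_succ_apply]
  rw [Finset.prod_congr rfl h2]

theorem N_ne_zero {x : F} (hx : x ≠ 0) : c.N x ≠ 0 :=
  Finset.prod_ne_zero_iff.2 fun _ _ => (_root_.map_ne_zero _).2 hx

theorem T_add (x y : F) : c.T (x + y) = c.T x + c.T y := by
  unfold T
  rw [← Finset.sum_add_distrib]
  refine Finset.sum_congr rfl fun k _ => map_add _ _ _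

theorem T_zero : c.T 0 = 0 := by
  unfold T
  refine Finset.sum_eq_zero fun k _ => map_zero _

theorem T_sub (x y : F) : c.T (x - y) = c.T x - c.T y := by
  unfold T
  rw [← Finset.sum_sub_distrib]
  refine Finset.sum_congr rfl fun k _ => map_sub _ _ _

theorem T_sum {ι : Type} (s : Finset ι) (f : ι → F) : c.T (∑ i ∈ s, f i) = ∑ i ∈ s, c.T (f i) := by
  classical
  induction s using Finset.induction_on with
  | empty => simp [c.T_zero]
  | insert a s ha ih => rw [Finset.sum_insert ha, Finset.sum_insert ha, c.T_add, ih]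

theorem T_smul (a : K) (x : F) : c.T (algebraMap K F a * x) = algebraMap K F a * c.T x := by
  unfold T
  rw [Finset.mul_sum]
  refine Finset.sum_congr rfl fun k _ => ?_
  rw [map_mul, c.pow_com]

theorem T_σ (x : F) : c.T (c.σ x) = c.T x := by
  unfold T
  rw [← sum_shift m (fun k => (c.σ ^ k) x) (by
    show (c.σ ^ m) x = (c.σ ^ 0) x
    rw [c.pow_m_apply, pow_zero]; rfl)]
  refine Finset.sum_congr rfl fun k _ => ?_
  rw [pow_succ, RingHom.mul_def, RingHom.comp_apply]

theorem T_σ_pow (i : ℕ) (x : F) : c.T ((c.σ ^ i) x) = c.T x := by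
  induction i with
  | zero => rw [pow_zero]; rfl
  | succ i ih => rw [c.pow_succ_apply, c.T_σ, ih]

theorem σ_T (x : F) : c.σ (c.T x) = c.T x := by
  unfold T
  rw [map_sum, ← sum_shift m (fun k => (c.σ ^ k) x) (by
    show (c.σ ^ m) x = (c.σ ^ 0) x
    rw [c.pow_m_apply, pow_zero]; rfl)]
  refine Finset.sum_congr rfl fun k _ => ?_
  rw [c.pow_succ_apply]

end Cyc

/-! ### descent of polynomials -/

variable {ι : Type}

theorem descend_mv (P : MvPolynomial ι F) (h : MvPolynomial.map c.σ P = P) :
    ∃ P' : MvPolynomial ι K, MvPolynomial.map (algebraMap K F) P' = P := by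
  classical
  have h1 : ∀ d, c.σ (P.coeff d) = P.coeff d := by
    intro d
    rw [← MvPolynomial.coeff_map, h]
  choose a ha using fun d => c.fix _ (h1 d)
  refine ⟨∑ d ∈ P.support, MvPolynomial.monomial d (a d), ?_⟩
  rw [map_sum]
  conv_rhs => rw [P.as_sum]
  refine Finset.sum_congr rfl fun d _ => ?_
  rw [MvPolynomial.map_monomial, ha]

theorem descend_poly (P : (MvPolynomial ι F)[X]) (h : P.map (MvPolynomial.map c.σ) = P) :
    ∃ P' : (MvPolynomial ι K)[X], P'.map (MvPolynomial.map (algebraMap K F)) = P := by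
  classical
  have h1 : ∀ d, MvPolynomial.map c.σ (P.coeff d) = P.coeff d := by
    intro d
    rw [← coeff_map, h]
  choose a ha using fun d => descend_mv c _ (h1 d)
  refine ⟨∑ d ∈ P.support, monomial d (a d), ?_⟩
  rw [Polynomial.map_sum]
  conv_rhs => rw [P.as_sum_support]
  refine Finset.sum_congr rfl fun d _ => ?_
  rw [map_monomial, ha]

/-- the derivative along a line -/
theorem line_coeff_one [Fintype ι] [DecidableEq ι] (z v : ι → F) (P : MvPolynomial ι F) :
    (MvPolynomial.aeval (fun i => C (z i) + C (v i) * X : ι → F[X]) P).coeff 1 =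
      ∑ j, MvPolynomial.eval z (MvPolynomial.pderiv j P) * v j := by
  have h1 := chain_rule (Polynomial.derivative' (R := F)) (fun i => C (z i) + C (v i) * X : ι → F[X]) P
  have h2 : (MvPolynomial.aeval (fun i => C (z i) + C (v i) * X : ι → F[X]) P).coeff 1 =
      eval 0 (derivative (MvPolynomial.aeval (fun i => C (z i) + C (v i) * X : ι → F[X]) P)) := by
    rw [← coeff_zero_eq_eval_zero, coeff_derivative]
    simp
  rw [h2]
  have h3 : derivative (MvPolynomial.aeval (fun i => C (z i) + C (v i) * X : ι → F[X]) P) =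
      ∑ j, MvPolynomial.aeval (fun i => C (z i) + C (v i) * X : ι → F[X])
        (MvPolynomial.pderiv j P) * C (v j) := by
    have h4 : Polynomial.derivative' (R := F)
        (MvPolynomial.aeval (fun i => C (z i) + C (v i) * X : ι → F[X]) P) =
        derivative (MvPolynomial.aeval (fun i => C (z i) + C (v i) * X : ι → F[X]) P) := rfl
    rw [← h4, h1]
    refine Finset.sum_congr rfl fun j _ => ?_
    have h5 : Polynomial.derivative' (R := F) (C (z j) + C (v j) * X) = C (v j) := by
      show derivative (C (z j) + C (v j) * X) = C (v j)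
      simp
    rw [h5, smul_eq_mul]
  rw [h3, eval_finsetSum]
  refine Finset.sum_congr rfl fun j _ => ?_
  rw [eval_mul, eval_C]
  congr 1
  have h6 : (evalRingHom (0 : F)).comp
      (MvPolynomial.aeval (fun i => C (z i) + C (v i) * X : ι → F[X])).toRingHom =
      MvPolynomial.eval z := by
    apply MvPolynomial.ringHom_ext
    · intro a
      simp
    · intro i
      simp
  exact congrArg (fun g => g (MvPolynomial.pderiv j P)) h6

theorem gtF (hm : 0 < m) (hK : PAC K) {κ : Type} [Fintype ι] [DecidableEq ι] [Fintype κ]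
    (E : ι → (MvPolynomial ι F)[X]) (hE : ∀ k, (E k).map (MvPolynomial.map c.σ) = E k)
    (G : κ → (MvPolynomial ι F)[X]) (z0 : ι → K)
    (h0 : ∀ k, MvPolynomial.eval (fun i => algebraMap K F (z0 i)) ((E k).coeff 0) = 0)
    (hJ : ∀ v : ι → K, (∀ k, (MvPolynomial.aeval (fun i => C (algebraMap K F (z0 i)) +
      C (algebraMap K F (v i)) * X : ι → F[X]) ((E k).coeff 0)).coeff 1 = 0) → v = 0)
    (hG : ∀ s, MvPolynomial.eval (fun i => algebraMap K F (z0 i)) ((G s).coeff 0) ≠ 0)
    (e : K[X]) (he : e ≠ 0) :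
    ∃ (a : K) (x : ι → K), e.eval a ≠ 0 ∧
      (∀ k, (E k).eval₂ (MvPolynomial.eval fun i => algebraMap K F (x i)) (algebraMap K F a) = 0) ∧
      ∀ s, (G s).eval₂ (MvPolynomial.eval fun i => algebraMap K F (x i)) (algebraMap K F a) ≠ 0 := by
  classical
  have hinj := (algebraMap K F).injective
  choose E' hE' using fun k => descend_poly c (E k) (hE k)
  -- products of conjugates
  let GN : κ → (MvPolynomial ι F)[X] := fun s =>
    ∏ k ∈ Finset.range m, (G s).map (MvPolynomial.map (c.σ ^ k))
  have hmm : ∀ (k : ℕ) (P : MvPolynomial ι F), MvPolynomial.map c.σ (MvPolynomial.map (c.σ ^ k) P) =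
      MvPolynomial.map (c.σ ^ (k + 1)) P := by
    intro k P
    rw [MvPolynomial.map_map, pow_succ', RingHom.mul_def]
  have hGN : ∀ s, (GN s).map (MvPolynomial.map c.σ) = GN s := by
    intro s
    show (∏ k ∈ Finset.range m, (G s).map (MvPolynomial.map (c.σ ^ k))).map (MvPolynomial.map c.σ) =
      ∏ k ∈ Finset.range m, (G s).map (MvPolynomial.map (c.σ ^ k))
    rw [Polynomial.map_prod, ← Cyc.prod_shift m (fun k => (G s).map (MvPolynomial.map (c.σ ^ k)))
      (by show (G s).map (MvPolynomial.map (c.σ ^ m)) = (G s).map (MvPolynomial.map (c.σ ^ 0))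
          rw [c.pow, pow_zero])]
    refine Finset.prod_congr rfl fun k _ => ?_
    ext1 i
    rw [coeff_map, coeff_map, coeff_map, hmm]
  choose G' hG' using fun s => descend_poly c (GN s) (hGN s)
  have hev : ∀ (x : ι → K) (P : MvPolynomial ι K),
      MvPolynomial.eval (fun i => algebraMap K F (x i)) (MvPolynomial.map (algebraMap K F) P) =
        algebraMap K F (MvPolynomial.eval x P) := by
    intro x P
    induction P using MvPolynomial.induction_on with
    | C a => simp
    | add p q hp hq => simp only [map_add, hp, hq]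
    | mul_X p i hp => simp only [map_mul, hp, MvPolynomial.map_X, MvPolynomial.eval_X]
  have hevσ : ∀ (k : ℕ) (x : ι → K) (P : MvPolynomial ι F),
      MvPolynomial.eval (fun i => algebraMap K F (x i)) (MvPolynomial.map (c.σ ^ k) P) =
        (c.σ ^ k) (MvPolynomial.eval (fun i => algebraMap K F (x i)) P) := by
    intro k x P
    induction P using MvPolynomial.induction_on with
    | C a => simp
    | add p q hp hq => simp only [map_add, hp, hq]
    | mul_X p i hp => simp only [map_mul, hp, MvPolynomial.map_X, MvPolynomial.eval_X, c.pow_com]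
  obtain ⟨a, x, h1, h2, h3⟩ := gt hK E' G' z0 (fun k => by
      apply hinj
      rw [map_zero, ← hev, ← coeff_map, hE', h0]) (fun v hv => by
      apply hJ v
      intro k
      rw [line_coeff_one, ← hE', coeff_map]
      have h4 := congrArg (algebraMap K F) (hv k)
      rw [map_zero, map_sum] at h4
      rw [← h4]
      refine Finset.sum_congr rfl fun j _ => ?_
      rw [map_mul, MvPolynomial.pderiv_map, hev]) (fun s h => by
      have h4 := congrArg (algebraMap K F) h
      rw [map_zero, ← hev, ← coeff_map, hG', ← constantCoeff_apply] at h4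
      have h5 : (∏ k ∈ Finset.range m, (c.σ ^ k)
          (MvPolynomial.eval (fun i => algebraMap K F (z0 i)) ((G s).coeff 0))) = 0 := by
        rw [← h4]
        show _ = MvPolynomial.eval (fun i => algebraMap K F (z0 i)) (Polynomial.constantCoeff
          (∏ k ∈ Finset.range m, (G s).map (MvPolynomial.map (c.σ ^ k))))
        rw [map_prod, map_prod]
        refine Finset.prod_congr rfl fun k _ => ?_
        rw [constantCoeff_apply, coeff_map, hevσ]
      rw [Finset.prod_eq_zero_iff] at h5
      obtain ⟨k, -, h6⟩ := h5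
      exact hG s ((map_eq_zero _).1 h6)) e he
  have hev2 : ∀ P : (MvPolynomial ι K)[X],
      (P.map (MvPolynomial.map (algebraMap K F))).eval₂
        (MvPolynomial.eval fun i => algebraMap K F (x i)) (algebraMap K F a) =
      algebraMap K F (P.eval₂ (MvPolynomial.eval x) a) := by
    intro P
    rw [eval₂_map, hom_eval₂]
    congr 1
    exact RingHom.ext fun p => hev x p
  refine ⟨a, x, h1, fun k => ?_, fun s => ?_⟩
  · rw [← hE', hev2, h2, map_zero]
  · have h4 := h3 s
    rw [Ne, ← map_eq_zero_iff (algebraMap K F) hinj, ← hev2, hG'] at h4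
    intro h5
    apply h4
    show (∏ k ∈ Finset.range m, (G s).map (MvPolynomial.map (c.σ ^ k))).eval₂ _ _ = 0
    rw [eval₂_finsetProd]
    apply Finset.prod_eq_zero (Finset.mem_range.2 hm)
    rw [pow_zero]
    have h6 : (G s).map (MvPolynomial.map (1 : F →+* F)) = G s := by
      have h7 : MvPolynomial.map (σ := ι) (1 : F →+* F) = RingHom.id _ := by
        apply MvPolynomial.ringHom_ext
        · intro a; simp
        · intro i; simp
      rw [h7, Polynomial.map_id]
    rw [h6]
    exact h5

end

end Pool.Agent.K7.H18.NG
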