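import Mathlib

/-!
# Minimal polynomials of algebraic power series stay irreducible over all fields
-/

set_option autoImplicit false

namespace Pool.Agent.K7.H18.NG

open Polynomial

variable {K : Type} [Field K]

theorem algMap_eq (p : K[X]) : algebraMap K[X] (PowerSeries K) p = (p : PowerSeries K) := rfl

theorem algMap_inj : Function.Injective (algebraMap K[X] (PowerSeries K)) := fun _ _ h =>
  Polynomial.coe_injective K h

instance : Module.IsTorsionFree K[X] (PowerSeries K) :=
  (Module.isTorsionFree_iff_algebraMap_injective).2 algMap_inj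

/-- coefficients of the value of a polynomial at a power series -/
theorem coeff_eval₂ {M : Type} [Field M] (y : PowerSeries M) (g : M[X][X]) (n : ℕ) :
    PowerSeries.coeff n (eval₂ (algebraMap M[X] (PowerSeries M)) y g) =
      ∑ i ∈ Finset.range (g.natDegree + 1), ∑ ab ∈ Finset.HasAntidiagonal.antidiagonal n,
        (g.coeff i).coeff ab.1 * PowerSeries.coeff ab.2 (y ^ i) := by
  rw [eval₂_eq_sum_range, map_sum]
  refine Finset.sum_congr rfl fun i _ => ?_
  rw [PowerSeries.coeff_mul]
  refine Finset.sum_congr rfl fun ab _ => ?_
  rw [algMap_eq, Polynomial.coeff_coe]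

theorem irreducible_ext {y : PowerSeries K} (hy : IsIntegral K[X] y) (M : Type) [Field M]
    [Algebra K M] : Irreducible ((minpoly K[X] y).map (mapRingHom (algebraMap K M))) := by
  classical
  set f := minpoly K[X] y with hf
  have hfm : f.Monic := minpoly.monic hy
  have hf0 : 0 < f.natDegree := minpoly.natDegree_pos hy
  set F := f.map (mapRingHom (algebraMap K M)) with hF
  have hFm : F.Monic := hfm.map _
  have hFd : F.natDegree = f.natDegree := hfm.natDegree_map _
  have hF1 : F ≠ 1 := by
    intro h
    rw [h, natDegree_one] at hFd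
    omega
  set yM : PowerSeries M := PowerSeries.map (algebraMap K M) y with hyM
  -- the root
  have hroot : eval₂ (algebraMap M[X] (PowerSeries M)) yM F = 0 := by
    have h1 : (algebraMap M[X] (PowerSeries M)).comp (mapRingHom (algebraMap K M)) =
        (PowerSeries.map (algebraMap K M)).comp (algebraMap K[X] (PowerSeries K)) := by
      apply RingHom.ext
      intro p
      rw [RingHom.comp_apply, RingHom.comp_apply, algMap_eq, algMap_eq, coe_mapRingHom]
      ext n
      rw [Polynomial.coeff_coe, coeff_map, PowerSeries.coeff_map, Polynomial.coeff_coe]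
    rw [hF, eval₂_map, h1, hyM, ← hom_eval₂]
    have h2 : eval₂ (algebraMap K[X] (PowerSeries K)) y f = 0 := minpoly.aeval K[X] y
    rw [h2, map_zero]
  -- a linear retraction
  obtain ⟨π, hπ⟩ := LinearMap.exists_leftInverse_of_injective (Algebra.linearMap K M)
    (LinearMap.ker_eq_bot.2 (algebraMap K M).injective)
  have hπ1 : ∀ a : K, π (algebraMap K M a) = a := fun a => by
    have := congrArg (fun φ => φ a) hπ
    simpa using this
  have key : ∀ g : M[X][X], g.Monic → eval₂ (algebraMap M[X] (PowerSeries M)) yM g = 0 →
      f.natDegree ≤ g.natDegree := by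
    intro g hg hgy
    -- the image of the coefficients
    let π' : M[X] → K[X] := fun p => ∑ j ∈ Finset.range (p.natDegree + 1), monomial j (π (p.coeff j))
    have hπ' : ∀ p j, (π' p).coeff j = π (p.coeff j) := by
      intro p j
      show (∑ j ∈ Finset.range (p.natDegree + 1), monomial j (π (p.coeff j))).coeff j = _
      rw [finsetSum_coeff]
      by_cases hj : j ≤ p.natDegree
      · rw [Finset.sum_eq_single j, coeff_monomial, if_pos rfl]
        · intro b _ hb
          rw [coeff_monomial, if_neg hb]
        · intro h
          exact absurd (Finset.mem_range.2 (by omega)) h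
      · rw [coeff_eq_zero_of_natDegree_lt (by omega), map_zero]
        refine Finset.sum_eq_zero fun b hb => ?_
        rw [Finset.mem_range] at hb
        rw [coeff_monomial, if_neg (by omega)]
    let g' : K[X][X] := ∑ i ∈ Finset.range (g.natDegree + 1), monomial i (π' (g.coeff i))
    have hg'c : ∀ i, i ≤ g.natDegree → g'.coeff i = π' (g.coeff i) := by
      intro i hi
      show (∑ i ∈ Finset.range (g.natDegree + 1), monomial i (π' (g.coeff i))).coeff i = _
      rw [finsetSum_coeff, Finset.sum_eq_single i, coeff_monomial, if_pos rfl]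
      · intro b _ hb
        rw [coeff_monomial, if_neg hb]
      · intro h
        exact absurd (Finset.mem_range.2 (by omega)) h
    have hg'0 : ∀ i, g.natDegree < i → g'.coeff i = 0 := by
      intro i hi
      show (∑ i ∈ Finset.range (g.natDegree + 1), monomial i (π' (g.coeff i))).coeff i = _
      rw [finsetSum_coeff]
      refine Finset.sum_eq_zero fun b hb => ?_
      rw [Finset.mem_range] at hb
      rw [coeff_monomial, if_neg (by omega)]
    have hg'1 : g'.coeff g.natDegree = 1 := by
      rw [hg'c _ le_rfl, hg.coeff_natDegree]
      ext j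
      rw [hπ', coeff_one, coeff_one]
      split_ifs with h
      · rw [← map_one (algebraMap K M), hπ1]
      · exact map_zero π
    have hg'd : g'.natDegree = g.natDegree := by
      apply le_antisymm
      · rw [natDegree_le_iff_coeff_eq_zero]
        exact fun N hN => hg'0 N hN
      · exact le_natDegree_of_ne_zero (by rw [hg'1]; exact one_ne_zero)
    have hg'y : aeval y g' = 0 := by
      rw [aeval_def]
      ext n
      rw [coeff_eval₂, hg'd, map_zero]
      have h3 : ∀ i, PowerSeries.map (algebraMap K M) (y ^ i) = yM ^ i := fun i => by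
        rw [map_pow]
      have h4 : ∀ i ∈ Finset.range (g.natDegree + 1), ∑ ab ∈ Finset.HasAntidiagonal.antidiagonal n,
          (g'.coeff i).coeff ab.1 * PowerSeries.coeff ab.2 (y ^ i) =
          π (∑ ab ∈ Finset.HasAntidiagonal.antidiagonal n, (g.coeff i).coeff ab.1 *
            PowerSeries.coeff ab.2 (yM ^ i)) := by
        intro i hi
        rw [Finset.mem_range] at hi
        rw [map_sum]
        refine Finset.sum_congr rfl fun ab _ => ?_
        rw [hg'c i (by omega), hπ', ← h3, PowerSeries.coeff_map, mul_comm ((g.coeff i).coeff ab.1),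
          ← Algebra.smul_def, map_smul, smul_eq_mul, mul_comm]
      rw [Finset.sum_congr rfl h4, ← map_sum, ← coeff_eval₂, hgy, map_zero, map_zero]
    have hg'ne : g' ≠ 0 := by
      intro h
      rw [h, coeff_zero] at hg'1
      exact zero_ne_one hg'1
    have h5 := natDegree_le_of_dvd (minpoly.isIntegrallyClosed_dvd hy hg'y) hg'ne
    rwa [hg'd] at h5
  rw [hFm.irreducible_iff_natDegree]
  refine ⟨hF1, fun g h hg hh hgh => ?_⟩
  have h6 := hg.natDegree_mul hh
  rw [hgh, hFd] at h6
  have h7 : eval₂ (algebraMap M[X] (PowerSeries M)) yM g *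
      eval₂ (algebraMap M[X] (PowerSeries M)) yM h = 0 := by
    rw [← eval₂_mul, hgh, hroot]
  rcases mul_eq_zero.1 h7 with h8 | h8
  · right
    have := key g hg h8
    omega
  · left
    have := key h hh h8
    omega

end Pool.Agent.K7.H18.NG
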