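import Pool.Agent.K7.H18.NG.FinCyc

/-!
# Complete bipartite subgraphs of projective norm graphs
-/

set_option autoImplicit false

namespace Pool.Agent.K7.H18.NG

/-- The projective norm graph: for `K = 𝔽_q` and `F = 𝔽_{q^(t-1)}`, vertices are the pairs
`(A, a) ∈ F × Kˣ`, and distinct `(A, a)`, `(B, b)` are adjacent when `N(A + B) = a b`. -/
def normGraph (K F : Type) [Field K] [Field F] [Algebra K F] : SimpleGraph (F × Kˣ) where
  Adj x y := x ≠ y ∧ Algebra.norm K (x.1 + y.1) = (x.2 : K) * (y.2 : K)
  symm := ⟨fun x y h => ⟨h.1.symm, by rw [add_comm, mul_comm]; exact h.2⟩⟩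
  loopless := ⟨fun x h => h.1 rfl⟩

section
variable {K F : Type} [Field K] [Field F] [Algebra K F]

open Classical in
theorem contained_of_points [Finite F] {t : ℕ} (A B : Fin t → F) (a b : Fin t → Kˣ)
    (hA : Function.Injective A) (hB : Function.Injective B)
    (h : ∀ i j, Algebra.norm K (A i + B j) = (a i : K) * (b j : K)) (hcard : t * t < Nat.card F) :
    (completeBipartiteGraph (Fin t) (Fin t)).IsContained (normGraph K F) := by
  have := Fintype.ofFinite F
  have hne : ∀ i j, A i + B j ≠ 0 := by
    intro i j h0
    have h1 := h i j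
    rw [h0] at h1
    have : Algebra.norm K (0 : F) = 0 := by
      have : Finite K := Finite.of_injective _ (algebraMap K F).injective
      have : FiniteDimensional K F := inferInstance
      exact Algebra.norm_zero
    rw [this] at h1
    exact mul_ne_zero (a i).ne_zero (b j).ne_zero h1.symm
  obtain ⟨s, hs⟩ : ∃ s : F, ∀ i j, A i + s ≠ B j - s := by
    by_cases h2 : (2 : F) = 0
    · refine ⟨0, fun i j h0 => hne i j ?_⟩
      rw [add_zero, sub_zero] at h0
      rw [h0, ← two_mul, h2, zero_mul]
    · let S : Finset F := Finset.univ.image fun p : Fin t × Fin t => (B p.2 - A p.1) / 2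
      have hS : S.card < Fintype.card F := by
        refine (Finset.card_image_le).trans_lt ?_
        rw [Finset.card_univ, Fintype.card_prod, Fintype.card_fin, Fintype.card_eq_nat_card]
        exact hcard
      obtain ⟨s, hs⟩ : ∃ s, s ∉ S := by
        by_contra hcon
        push Not at hcon
        have : S = Finset.univ := Finset.eq_univ_iff_forall.2 hcon
        rw [this, Finset.card_univ] at hS
        exact lt_irrefl _ hS
      refine ⟨s, fun i j h0 => hs ?_⟩
      refine Finset.mem_image.2 ⟨(i, j), Finset.mem_univ _, ?_⟩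
      rw [div_eq_iff h2]
      linear_combination -h0
  have hinj : Function.Injective (Sum.elim (fun i => (A i + s, a i)) (fun j => (B j - s, b j)) :
      Fin t ⊕ Fin t → F × Kˣ) := by
    rintro (i | i) (j | j) hij
    · have h1 : A i + s = A j + s := congrArg Prod.fst hij
      exact congrArg Sum.inl (hA (add_right_cancel h1))
    · exact absurd (congrArg Prod.fst hij) (hs i j)
    · exact absurd (congrArg Prod.fst hij).symm (hs j i)
    · have h1 : B i - s = B j - s := congrArg Prod.fst hij
      exact congrArg Sum.inr (hB (sub_left_injective h1))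
  refine ⟨⟨⟨Sum.elim (fun i => (A i + s, a i)) (fun j => (B j - s, b j)), ?_⟩, hinj⟩⟩
  rintro (i | i) (j | j) hij
  · simp at hij
  · refine ⟨fun h0 => by simpa using hinj h0, ?_⟩
    show Algebra.norm K (A i + s + (B j - s)) = _
    rw [show A i + s + (B j - s) = A i + B j by ring]
    exact h i j
  · refine ⟨fun h0 => by simpa using hinj h0, ?_⟩
    show Algebra.norm K (B i - s + (A j + s)) = _
    rw [show B i - s + (A j + s) = A j + B i by ring, h j i]
    exact mul_comm _ _
  · simp at hij

open Classical in
theorem contained_of_config [Finite F] {n : ℕ} (A : Fin (n + 2) → F) (B : Fin (n + 1) → F)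
    (b : Fin (n + 1) → K) (hA : Function.Injective A) (hB : Function.Injective B)
    (hb : ∀ j, b j ≠ 0) (h : ∀ i j, Algebra.norm K (A i + B j) = b j)
    (hcard : (n + 2) * (n + 2) + (2 * n + 3) < Nat.card F) :
    (completeBipartiteGraph (Fin (n + 2)) (Fin (n + 2))).IsContained (normGraph K F) := by
  have := Fintype.ofFinite F
  have : Finite K := Finite.of_injective _ (algebraMap K F).injective
  have : FiniteDimensional K F := inferInstance
  obtain ⟨c, hc⟩ : ∃ c : F, c ∉ (Finset.univ.image fun i => - A i) ∪ (Finset.univ.image B) := by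
    by_contra hcon
    push Not at hcon
    have h1 : (Finset.univ.image fun i => - A i) ∪ (Finset.univ.image B) = Finset.univ :=
      Finset.eq_univ_iff_forall.2 hcon
    have h2 := Finset.card_union_le (Finset.univ.image fun i => - A i) (Finset.univ.image B)
    have h3 : (Finset.univ.image fun i => - A i).card ≤ n + 2 :=
      Finset.card_image_le.trans (by simp)
    have h4 : (Finset.univ.image B).card ≤ n + 1 := Finset.card_image_le.trans (by simp)
    rw [h1, Finset.card_univ, Fintype.card_eq_nat_card] at h2
    omega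
  rw [Finset.mem_union, not_or] at hc
  have hAc : ∀ i, A i + c ≠ 0 := by
    intro i h0
    apply hc.1
    refine Finset.mem_image.2 ⟨i, Finset.mem_univ _, ?_⟩
    linear_combination -h0
  have hBc : ∀ j, B j - c ≠ 0 := by
    intro j h0
    apply hc.2
    exact Finset.mem_image.2 ⟨j, Finset.mem_univ _, by linear_combination h0⟩
  have hN : ∀ x : F, x ≠ 0 → Algebra.norm K x ≠ 0 := fun x hx =>
    (Algebra.norm_ne_zero_iff).2 hx
  let A' : Fin (n + 2) → F := fun i => (A i + c)⁻¹
  let B' : Fin (n + 2) → F := Fin.cons 0 (fun j => (B j - c)⁻¹)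
  let a' : Fin (n + 2) → Kˣ := fun i => Units.mk0 (Algebra.norm K (A i + c)⁻¹)
    (hN _ (inv_ne_zero (hAc i)))
  let b' : Fin (n + 2) → Kˣ := Fin.cons 1 (fun j => Units.mk0 (b j * Algebra.norm K (B j - c)⁻¹)
    (mul_ne_zero (hb j) (hN _ (inv_ne_zero (hBc j)))))
  apply contained_of_points A' B' a' b'
  · intro i j hij
    exact hA (add_right_cancel (inv_injective hij))
  · intro i j hij
    refine Fin.cases (fun hij => ?_) (fun i hij => ?_) i hij
    · refine Fin.cases (fun _ => rfl) (fun j hij => ?_) j hij
      exact absurd (show (0 : F) = (B j - c)⁻¹ from hij).symm (inv_ne_zero (hBc j))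
    · revert hij
      refine Fin.cases (fun hij => ?_) (fun j hij => ?_) j
      · exact absurd (show (B i - c)⁻¹ = (0 : F) from hij) (inv_ne_zero (hBc i))
      · have h1 : (B i - c)⁻¹ = (B j - c)⁻¹ := hij
        exact congrArg Fin.succ (hB (sub_left_injective (inv_injective h1)))
  · intro i j
    refine Fin.cases ?_ (fun j => ?_) j
    · show Algebra.norm K ((A i + c)⁻¹ + 0) = Algebra.norm K (A i + c)⁻¹ * 1
      rw [add_zero, mul_one]
    · show Algebra.norm K ((A i + c)⁻¹ + (B j - c)⁻¹) =
        Algebra.norm K (A i + c)⁻¹ * (b j * Algebra.norm K (B j - c)⁻¹)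
      have h1 : (A i + c)⁻¹ + (B j - c)⁻¹ = (A i + B j) * ((A i + c)⁻¹ * (B j - c)⁻¹) := by
        have := hAc i
        have := hBc j
        field_simp
        ring
      rw [h1, map_mul, map_mul, h i j]
      ring
  · omega

/-- For every `t ≥ 5` and all large `q`, the projective norm graph contains `K_{t,t}`. -/
theorem normGraph_contains (t : ℕ) (ht : 5 ≤ t) :
    ∃ q₀ : ℕ, ∀ (K F : Type) [Field K] [Finite K] [Field F] [Algebra K F],
      Module.finrank K F + 1 = t → q₀ ≤ Nat.card K →
      (completeBipartiteGraph (Fin t) (Fin t)).IsContained (normGraph K F) := by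
  obtain ⟨n, rfl⟩ : ∃ n, t = n + 2 := ⟨t - 2, by omega⟩
  by_contra hcon
  push Not at hcon
  choose K F iK fK iF iA hfr hcard hnot using fun i : ℕ => hcon (i + ((n + 2) * (n + 2) + (2 * n + 4)))
  have hm : ∀ i, Module.finrank (K i) (F i) = n + 1 := fun i => by have := hfr i; omega
  have hfd : ∀ i, Module.Finite (K i) (F i) := fun i =>
    Module.finite_of_finrank_pos (by rw [hm]; omega)
  have hF : ∀ i, Finite (F i) := fun i => Module.finite_of_finite (K i)
  choose c hc using fun i => exists_cyc (K i) (F i) (n + 1) (hm i)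
  obtain ⟨i, A, B, b, hA, hB, hb, hbσ, hAB⟩ := exists_config n (by omega) c (fun i => by
    have := hcard i; omega)
  choose b' hb' using fun j => (c i).fix _ (hbσ j)
  refine not_isEmpty_iff.2 (contained_of_config A B b' hA hB (fun j h0 => hb j ?_)
    (fun s j => ?_) ?_) (hnot i)
  · rw [← hb', h0, map_zero]
  · apply (algebraMap (K i) (F i)).injective
    rw [← hc, hAB, hb']
  · have h1 : Nat.card (K i) ≤ Nat.card (F i) :=
      Nat.card_le_card_of_injective _ (algebraMap (K i) (F i)).injective
    have := hcard i
    omega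

end

end Pool.Agent.K7.H18.NG
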