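import Pool.Agent.K7.H18.NG.Geom3

/-!
# The configuration over a cyclic extension of a pseudo algebraically closed field
-/

set_option autoImplicit false

namespace Pool.Agent.K7.H18.NG

open Polynomial

section
variable {K F : Type} [Field K] [Field F] [Algebra K F] {n : ℕ}

theorem config (d : Cyc K F (n + 1)) (hn : 3 ≤ n) (hK : PAC K) :
    ∃ (A : Fin (n + 2) → F) (B b : Fin (n + 1) → F), Function.Injective A ∧ Function.Injective B ∧
      (∀ j, b j ≠ 0) ∧ (∀ j, d.σ (b j) = b j) ∧ ∀ i j, d.N (A i + B j) = b j := by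
  obtain ⟨β₂, η, ρ, x, hx, hρ, hρσ, hβ₂, hη, hT, h1, h2, h3⟩ := stage2 d hn hK
  have hη0 : η ≠ 0 := by
    rintro rfl
    exact hη (map_zero _)
  have hβ : d.σ d.β ≠ d.β := by
    have := d.σβ_ne 1 one_pos (by omega)
    rwa [pow_one] at this
  let A' : Fin n ⊕ Fin 2 → F := Sum.elim (fun i => (d.σ ^ (i.val + 1)) d.β)
    (fun i => (d.σ ^ (i.val + 1)) β₂)
  let B' : Option (Fin n) → F := fun o => o.elim η⁻¹ (fun j => algebraMap K F (x j))
  let b' : Option (Fin n) → F := fun o => o.elim (d.N η⁻¹ * ρ)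
    (fun j => d.N (d.β + algebraMap K F (x j)))
  have hA' : Function.Injective A' := by
    rintro (i | i) (j | j) hij
    · have h4 : (d.σ ^ (i.val + 1)) d.β = (d.σ ^ (j.val + 1)) d.β := hij
      have h5 := d.σ_pow_inj (by omega) (by omega) h4
      exact congrArg Sum.inl (Fin.ext (by omega))
    · exfalso
      have h4 : (d.σ ^ (i.val + 1)) d.β = (d.σ ^ (j.val + 1)) β₂ := hij
      have h5 := congrArg d.T h4
      rw [d.T_σ_pow, d.T_σ_pow] at h5
      exact hT h5.symm
    · exfalso
      have h4 : (d.σ ^ (i.val + 1)) β₂ = (d.σ ^ (j.val + 1)) d.β := hij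
      have h5 := congrArg d.T h4
      rw [d.T_σ_pow, d.T_σ_pow] at h5
      exact hT h5
    · have h4 : (d.σ ^ (i.val + 1)) β₂ = (d.σ ^ (j.val + 1)) β₂ := hij
      have h6 : d.σ β₂ ≠ (d.σ ^ 2) β₂ := by
        rw [d.pow_succ_apply, pow_one]
        exact fun h => hβ₂ (d.σ.injective h).symm
      fin_cases i <;> fin_cases j
      · rfl
      · exfalso
        apply h6
        simpa using h4
      · exfalso
        apply h6
        simpa using h4.symm
      · rfl
  have hB' : Function.Injective B' := by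
    have h4 : ∀ j, η⁻¹ ≠ algebraMap K F (x j) := by
      intro j h
      apply hη
      have h5 : η = (algebraMap K F (x j))⁻¹ := by rw [← h, inv_inv]
      rw [h5, map_inv₀, d.com]
    rintro (_ | i) (_ | j) hij
    · rfl
    · exact absurd hij (h4 j)
    · exact absurd hij.symm (h4 i)
    · have h5 : algebraMap K F (x i) = algebraMap K F (x j) := hij
      exact congrArg some (hx ((algebraMap K F).injective h5))
  have hx' : ∀ j, d.β + algebraMap K F (x j) ≠ 0 := by
    intro j h
    apply hβ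
    have h4 : d.β = - algebraMap K F (x j) := by linear_combination h
    rw [h4, map_neg, d.com]
  have hb' : ∀ o, b' o ≠ 0 := by
    rintro (_ | j)
    · exact mul_ne_zero (d.N_ne_zero (inv_ne_zero hη0)) hρ
    · exact d.N_ne_zero (hx' j)
  have hbσ : ∀ o, d.σ (b' o) = b' o := by
    rintro (_ | j)
    · show d.σ (d.N η⁻¹ * ρ) = d.N η⁻¹ * ρ
      rw [map_mul, d.σ_N, hρσ]
    · exact d.σ_N _
  have hinv : ∀ y : F, d.N (1 + η * y) = ρ → d.N (y + η⁻¹) = d.N η⁻¹ * ρ := by
    intro y hy
    rw [← hy, ← d.N_mul]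
    congr 1
    field_simp
    ring
  have hconj : ∀ (k : ℕ) (y : F) (j : Fin n),
      d.N ((d.σ ^ k) y + algebraMap K F (x j)) = d.N (y + algebraMap K F (x j)) := by
    intro k y j
    rw [← d.pow_com k (x j), ← map_add, d.N_σ_pow, d.pow_com]
  have hAB : ∀ s o, d.N (A' s + B' o) = b' o := by
    rintro (i | i) (_ | j)
    · exact hinv _ (h3 i.val i.isLt)
    · exact hconj _ _ _
    · exact hinv _ (h2 i.val i.isLt)
    · exact (hconj _ _ _).trans (h1 j)
  refine ⟨A' ∘ finSumFinEquiv.symm, B' ∘ finSuccEquiv n, b' ∘ finSuccEquiv n,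
    hA'.comp (Equiv.injective _), hB'.comp (Equiv.injective _), fun j => hb' _, fun j => hbσ _,
    fun i j => hAB _ _⟩

end

end Pool.Agent.K7.H18.NG
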