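import Pool.Agent.K7.H18.NG.Irr

/-!
# Solutions of nondegenerate systems are algebraic and separable
-/

set_option autoImplicit false

namespace Pool.Agent.K7.H18.NG

open Polynomial

theorem chain_rule {A B M ι : Type*} [CommRing A] [CommRing B] [Algebra A B] [AddCommGroup M]
    [Module A M] [Module B M] [Fintype ι] [DecidableEq ι] (D : Derivation A B M) (z : ι → B)
    (P : MvPolynomial ι A) :
    D (MvPolynomial.aeval z P) = ∑ j, MvPolynomial.aeval z (MvPolynomial.pderiv j P) • D (z j) := by
  induction P using MvPolynomial.induction_on with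
  | C a =>
    rw [MvPolynomial.algHom_C, Derivation.map_algebraMap]
    refine (Finset.sum_eq_zero fun j _ => ?_).symm
    rw [MvPolynomial.pderiv_C, map_zero, zero_smul]
  | add p q hp hq =>
    rw [map_add, map_add, hp, hq, ← Finset.sum_add_distrib]
    refine Finset.sum_congr rfl fun j _ => ?_
    rw [map_add, map_add, add_smul]
  | mul_X p i hp =>
    have h2 : ∀ j, MvPolynomial.aeval z (MvPolynomial.pderiv j (p * MvPolynomial.X i)) • D (z j) =
        z i • MvPolynomial.aeval z (MvPolynomial.pderiv j p) • D (z j) +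
        (if i = j then MvPolynomial.aeval z p • D (z i) else 0) := by
      intro j
      rw [MvPolynomial.pderiv_mul, map_add, map_mul, map_mul, MvPolynomial.aeval_X]
      by_cases hij : i = j
      · subst hij
        rw [MvPolynomial.pderiv_X_self, map_one, if_pos rfl, mul_one, add_smul, mul_comm, mul_smul]
      · rw [if_neg hij, MvPolynomial.pderiv_X_of_ne hij, map_zero, mul_zero, add_zero, add_zero,
          mul_comm, mul_smul]
    simp_rw [h2]
    rw [Finset.sum_add_distrib, ← Finset.smul_sum, ← hp, Finset.sum_ite_eq,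
      if_pos (Finset.mem_univ i), map_mul, MvPolynomial.aeval_X, Derivation.leibniz, add_comm]

section
variable {Q L ι : Type} [Field Q] [Field L] [Algebra Q L] [Fintype ι] [DecidableEq ι]

theorem finite_separable (P : ι → MvPolynomial ι Q) (z : ι → L)
    (hz : ∀ k, MvPolynomial.aeval z (P k) = 0)
    (hdet : (Matrix.of fun k j => MvPolynomial.aeval z (MvPolynomial.pderiv j (P k))).det ≠ 0) :
    FiniteDimensional Q (IntermediateField.adjoin Q (Set.range z)) ∧
      Algebra.IsSeparable Q (IntermediateField.adjoin Q (Set.range z)) := by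
  classical
  set EE := IntermediateField.adjoin Q (Set.range z) with hEE
  have hess : Algebra.EssFiniteType Q EE := by
    rw [IntermediateField.essFiniteType_iff]
    refine ⟨Finset.univ.image z, ?_⟩
    rw [Finset.coe_image, Finset.coe_univ, Set.image_univ]
  have hzE : ∀ j, z j ∈ EE := fun j => IntermediateField.subset_adjoin Q _ ⟨j, rfl⟩
  let w : ι → EE := fun j => ⟨z j, hzE j⟩
  have hval : ∀ p : MvPolynomial ι Q, ((MvPolynomial.aeval w p : EE) : L) =
      MvPolynomial.aeval z p := by
    intro p
    have h1 : EE.val (MvPolynomial.aeval w p) = MvPolynomial.aeval (fun j => EE.val (w j)) p := by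
      rw [← MvPolynomial.comp_aeval_apply]
    exact h1
  have hw : ∀ k, MvPolynomial.aeval w (P k) = 0 := by
    intro k
    apply Subtype.ext
    rw [hval, hz k]
    rfl
  set M : Matrix ι ι EE := Matrix.of fun k j => MvPolynomial.aeval w (MvPolynomial.pderiv j (P k))
    with hM
  have hMdet : IsUnit M.det := by
    rw [isUnit_iff_ne_zero]
    intro h
    apply hdet
    have h1 : (Matrix.of fun k j => MvPolynomial.aeval z (MvPolynomial.pderiv j (P k))) =
        EE.val.toRingHom.mapMatrix M := by
      ext k j
      exact (hval _).symm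
    rw [h1, ← RingHom.map_det, h, map_zero]
  let D := KaehlerDifferential.D Q EE
  have hDw : ∀ j, D (w j) = 0 := by
    intro i
    have h1 : ∀ k, ∑ j, M k j • D (w j) = 0 := by
      intro k
      have h2 := chain_rule D w (P k)
      rw [hw k, map_zero] at h2
      exact h2.symm
    have h2 : ∑ k, M⁻¹ i k • ∑ j, M k j • D (w j) = D (w i) := by
      simp_rw [Finset.smul_sum, smul_smul]
      rw [Finset.sum_comm]
      simp_rw [← Finset.sum_smul]
      have h3 : ∀ j, ∑ k, M⁻¹ i k * M k j = (1 : Matrix ι ι EE) i j := by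
        intro j
        rw [← Matrix.mul_apply, Matrix.nonsing_inv_mul _ hMdet]
      simp_rw [h3]
      rw [Finset.sum_eq_single i]
      · rw [Matrix.one_apply_eq, one_smul]
      · intro j _ hj
        rw [Matrix.one_apply_ne hj.symm, zero_smul]
      · intro h
        exact absurd (Finset.mem_univ i) h
    rw [← h2]
    refine Finset.sum_eq_zero fun k _ => ?_
    rw [h1 k, smul_zero]
  have hD0 : ∀ (x : L) (hx : x ∈ EE), D ⟨x, hx⟩ = 0 := by
    intro x hx
    induction hx using IntermediateField.adjoin_induction with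
    | mem x hx =>
      obtain ⟨j, rfl⟩ := hx
      exact hDw j
    | algebraMap q => exact D.map_algebraMap q
    | add x y hx hy h1 h2 =>
      have h3 : (⟨x + y, add_mem hx hy⟩ : EE) = ⟨x, hx⟩ + ⟨y, hy⟩ := rfl
      rw [h3, map_add, h1, h2, add_zero]
    | inv x hx h1 =>
      have h3 : (⟨x⁻¹, inv_mem hx⟩ : EE) = (⟨x, hx⟩ : EE)⁻¹ := rfl
      rw [h3, Derivation.leibniz_inv, h1, smul_zero]
    | mul x y hx hy h1 h2 =>
      have h3 : (⟨x * y, mul_mem hx hy⟩ : EE) = ⟨x, hx⟩ * ⟨y, hy⟩ := rfl
      rw [h3, Derivation.leibniz, h1, h2, smul_zero, smul_zero, add_zero]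
  have hunr : Algebra.FormallyUnramified Q EE := by
    refine ⟨⟨fun a b => ?_⟩⟩
    have h1 : ∀ c : Ω[EE⁄Q], c = 0 := by
      intro c
      have h2 : c ∈ Submodule.span EE (Set.range D) := by
        rw [KaehlerDifferential.span_range_derivation]
        trivial
      have h3 : Set.range D ⊆ {0} := by
        rintro _ ⟨x, rfl⟩
        exact hD0 x.1 x.2
      have h4 := Submodule.span_mono (R := EE) h3 h2
      rw [Submodule.span_zero_singleton, Submodule.mem_bot] at h4
      exact h4
    rw [h1 a, h1 b]
  exact ⟨Algebra.FormallyUnramified.finite_of_free (R := Q) (S := EE),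
    Algebra.FormallyUnramified.isSeparable Q EE⟩

end

end Pool.Agent.K7.H18.NG
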